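import Pool.Agent.Lib.MP_1c0d65_gt.A.Rad

/-! The Cauchy transform and the formula of Cauchy and Pompeiu. -/

open MeasureTheory Set Metric Real Filter Topology
open Complex (I)

namespace Pool.Agent.Lib.MP_1c0d65_gt.A

variable {E : Type*} [NormedAddCommGroup E] [NormedSpace ℂ E]

/-- Antilinear part of a real linear map on the complex line. -/
noncomputable def db (L : ℂ →L[ℝ] E) : E := (2 : ℂ)⁻¹ • (L 1 + I • L I)

/-- Linear part of a real linear map on the complex line. -/
noncomputable def dz (L : ℂ →L[ℝ] E) : E := (2 : ℂ)⁻¹ • (L 1 - I • L I)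

/-- The Cauchy transform. -/
noncomputable def T (g : ℂ → E) (z : ℂ) : E := (π : ℂ)⁻¹ • ∫ s, (z - s)⁻¹ • g s

theorem lin_apply (L : ℂ →L[ℝ] E) (ξ : ℂ) : L ξ = (ξ.re : ℂ) • L 1 + (ξ.im : ℂ) • L I := by
  have : ξ = ξ.re • (1 : ℂ) + ξ.im • I := by simp
  conv_lhs => rw [this, map_add, map_smul, map_smul]
  simp only [Complex.coe_smul]

theorem lin_eq (L : ℂ →L[ℝ] E) (ξ : ℂ) : L ξ = ξ • dz L + (starRingEnd ℂ ξ) • db L := by
  rw [lin_apply L ξ, dz, db]
  have h1 : (starRingEnd ℂ ξ) = ξ.re - ξ.im * I := by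
    apply Complex.ext <;> simp
  have h2 : ξ = ξ.re + ξ.im * I := by simp
  rw [h1]
  generalize L 1 = a
  generalize L I = b
  generalize hx : (ξ.re : ℂ) = x at h2
  generalize hy : (ξ.im : ℂ) = y at h2
  rw [h2]
  match_scalars
  · ring
  · linear_combination y * Complex.I_mul_I

theorem db_add (L M : ℂ →L[ℝ] E) : db (L + M) = db L + db M := by
  simp only [db, add_apply]; module

theorem db_sub (L M : ℂ →L[ℝ] E) : db (L - M) = db L - db M := by
  simp only [db, sub_apply]; module

theorem dz_sub (L M : ℂ →L[ℝ] E) : dz (L - M) = dz L - dz M := by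
  simp only [dz, sub_apply]; module

@[simp] theorem db_zero : db (0 : ℂ →L[ℝ] E) = 0 := by simp [db]

theorem continuous_db : Continuous (db : (ℂ →L[ℝ] E) → E) := by
  unfold db; fun_prop

theorem two_db (L : ℂ →L[ℝ] E) : L I - I • L 1 = (-2 * I) • db L := by
  rw [db]
  match_scalars
  · linear_combination Complex.I_mul_I
  · ring

theorem norm_db (L : ℂ →L[ℝ] E) : ‖L I - I • L 1‖ = 2 * ‖db L‖ := by
  rw [two_db, norm_smul]; simp

theorem norm_db_le (L : ℂ →L[ℝ] E) : ‖db L‖ ≤ ‖L‖ := by
  have h1 := L.le_opNorm 1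
  have h2 := L.le_opNorm I
  have h3 := norm_add_le (L 1) (I • L I)
  simp only [db, norm_smul, norm_inv, Complex.norm_ofNat, norm_one, mul_one, Complex.norm_I,
    one_mul] at *
  linarith

theorem norm_le_dz_db (L : ℂ →L[ℝ] E) : ‖L‖ ≤ ‖dz L‖ + ‖db L‖ := by
  refine L.opNorm_le_bound (by positivity) fun ξ => ?_
  rw [lin_eq]
  refine (norm_add_le _ _).trans (le_of_eq ?_)
  rw [norm_smul, norm_smul, Complex.norm_conj]; ring

theorem cr_of_db {L : ℂ →L[ℝ] E} (h : db L = 0) : L I = I • L 1 := by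
  have := two_db L
  rw [h, smul_zero, sub_eq_zero] at this
  exact this

theorem db_restrict (L : ℂ →L[ℂ] E) : db (L.restrictScalars ℝ) = 0 := by
  have : L I = I • L 1 := by rw [← map_smul]; simp
  simp only [db, ContinuousLinearMap.coe_restrictScalars', this, smul_smul, Complex.I_mul_I]
  simp

theorem polar_key (L : ℂ →L[ℝ] E) {e : ℂ} (he : ‖e‖ = 1) {r : ℝ} (hr : 0 < r) :
    r • ((-(r * e : ℂ))⁻¹ • db L) = (-2 : ℂ)⁻¹ • (L e + I • L (e * I)) := by
  have h0 : e ≠ 0 := by rintro rfl; simp at he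
  have h1 : starRingEnd ℂ e = e⁻¹ := (Complex.inv_eq_conj he).symm
  have h2 : (r : ℂ) ≠ 0 := by exact_mod_cast hr.ne'
  rw [lin_eq L e, lin_eq L (e * I), map_mul, Complex.conj_I, h1, ← Complex.coe_smul]
  match_scalars
  · field_simp
    linear_combination (-1 : ℂ) * Complex.I_sq
  · linear_combination (e / 2) * Complex.I_mul_I

omit [NormedSpace ℂ E] in
theorem polar_int {A : ℝ × ℝ → E} (hA : Continuous A) {R : ℝ} (h : ∀ p : ℝ × ℝ, R ≤ p.1 → A p = 0) :
    IntegrableOn A (Ioi 0 ×ˢ Ioo (-π) π) := by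
  have h1 : IntegrableOn A (Icc 0 R ×ˢ Icc (-π) π) :=
    hA.continuousOn.integrableOn_compact (isCompact_Icc.prod isCompact_Icc)
  refine h1.of_forall_sdiff_eq_zero (measurableSet_Ioi.prod measurableSet_Ioo) fun p hp => ?_
  by_contra hne
  refine hp.2 ⟨⟨le_of_lt hp.1.1, ?_⟩, Ioo_subset_Icc_self hp.1.2⟩
  by_contra hlt
  exact hne (h p (not_le.1 hlt).le)

variable [CompleteSpace E]

/-- Cauchy-Pompeiu for compactly supported functions of class `C^1`. -/
theorem cp {v : ℂ → E} (hv : ContDiff ℝ 1 v) (hc : HasCompactSupport v) (z : ℂ) :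
    T (fun s => db (fderiv ℝ v s)) z = v z := by
  have hd : Differentiable ℝ v := hv.differentiable one_ne_zero
  have hD : Continuous (fderiv ℝ v) := hv.continuous_fderiv one_ne_zero
  obtain ⟨R, hR⟩ := (hc.isCompact.isBounded).subset_ball z
  set e : ℝ → ℂ := fun θ => Complex.exp (θ * I) with he
  have hen : ∀ θ, ‖e θ‖ = 1 := fun θ => Complex.norm_exp_ofReal_mul_I θ
  have hec : Continuous e := by rw [he]; fun_prop
  have hout : ∀ p : ℝ × ℝ, R ≤ p.1 → z + p.1 * e p.2 ∉ tsupport v := fun p hp hm => by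
    have := hR hm
    rw [mem_ball, dist_eq_norm, add_sub_cancel_left, norm_mul, hen, mul_one,
      Complex.norm_real] at this
    exact absurd (hp.trans (le_abs_self _)) (not_le.2 this)
  have hz : ∀ p : ℝ × ℝ, R ≤ p.1 → fderiv ℝ v (z + p.1 * e p.2) = 0 := fun p hp => by
    by_contra hne
    exact hout p hp (support_fderiv_subset ℝ hne)
  set A : ℝ × ℝ → E := fun p => fderiv ℝ v (z + p.1 * e p.2) (e p.2) with hA
  set B : ℝ × ℝ → E := fun p => fderiv ℝ v (z + p.1 * e p.2) (e p.2 * I) with hB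
  have hAi : IntegrableOn A (Ioi 0 ×ˢ Ioo (-π) π) :=
    polar_int (by rw [hA]; fun_prop) (R := R) fun p hp => by simp [hA, hz p hp]
  have hBi : IntegrableOn B (Ioi 0 ×ˢ Ioo (-π) π) :=
    polar_int (by rw [hB]; fun_prop) (R := R) fun p hp => by simp [hB, hz p hp]
  have hAv : ∫ p in Ioi (0 : ℝ) ×ˢ Ioo (-π) π, A p = -((2 * π) • v z) := by
    have hAi' := hAi
    rw [IntegrableOn, Measure.volume_eq_prod, ← Measure.prod_restrict] at hAi'
    rw [Measure.volume_eq_prod, ← Measure.prod_restrict, integral_prod_symm _ hAi']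
    have : ∀ θ : ℝ, ∫ r in Ioi (0 : ℝ), A (r, θ) = -v z := fun θ => by
      have hder : ∀ r : ℝ, HasDerivAt (fun r : ℝ => v (z + r * e θ)) (A (r, θ)) r := fun r => by
        have h1 : HasDerivAt (fun r : ℝ => z + r * e θ) (e θ) r := by
          simpa using ((Complex.ofRealCLM.hasDerivAt (x := r)).mul_const (e θ)).const_add z
        exact (hd _).hasFDerivAt.comp_hasDerivAt r h1
      have hi : IntegrableOn (fun r : ℝ => A (r, θ)) (Ioi 0) := by
        have h1 : IntegrableOn (fun r : ℝ => A (r, θ)) (Icc 0 R) :=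
          (by rw [hA]; fun_prop : Continuous fun r : ℝ => A (r, θ)).continuousOn.integrableOn_compact
            isCompact_Icc
        refine h1.of_forall_sdiff_eq_zero measurableSet_Ioi fun r hr => ?_
        have : R ≤ r := by
          by_contra hlt
          exact hr.2 ⟨le_of_lt hr.1, (not_le.1 hlt).le⟩
        simp [hA, hz (r, θ) this]
      have ht : Tendsto (fun r : ℝ => v (z + r * e θ)) atTop (𝓝 0) := by
        refine tendsto_const_nhds.congr' ?_
        filter_upwards [eventually_ge_atTop R] with r hr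
        exact (image_eq_zero_of_notMem_tsupport (hout (r, θ) hr)).symm
      rw [integral_Ioi_of_hasDerivAt_of_tendsto' (fun r _ => hder r) hi ht]
      simp
    simp only [this, integral_const, smul_neg]
    congr 2
    simp only [Measure.real, Measure.restrict_apply_univ, Real.volume_Ioo]
    rw [ENNReal.toReal_ofReal (by linarith [pi_pos])]; ring
  have hBv : ∫ p in Ioi (0 : ℝ) ×ˢ Ioo (-π) π, B p = 0 := by
    rw [Measure.volume_eq_prod] at hBi ⊢
    rw [setIntegral_prod _ hBi]
    refine setIntegral_eq_zero_of_forall_eq_zero fun r hr => ?_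
    have hr' : (0 : ℝ) < r := hr
    have hder : ∀ θ : ℝ, HasDerivAt (fun θ : ℝ => v (z + r * e θ)) (r • B (r, θ)) θ := fun θ => by
      have h1 : HasDerivAt (fun θ : ℝ => z + r * e θ) (r • (e θ * I)) θ := by
        have h2 := (((Complex.ofRealCLM.hasDerivAt (x := θ)).mul_const I).cexp.const_mul
          (r : ℂ)).const_add z
        simpa [he] using h2
      have h3 := (hd _).hasFDerivAt.comp_hasDerivAt θ h1
      rw [map_smul] at h3
      exact h3
    have hc' : Continuous fun θ : ℝ => r • B (r, θ) := by rw [hB]; fun_prop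
    have h4 := intervalIntegral.integral_eq_sub_of_hasDerivAt (a := -π) (b := π)
      (fun θ _ => hder θ) (hc'.intervalIntegrable _ _)
    have h5 : e π = e (-π) := by
      simp only [he, Complex.ofReal_neg, neg_mul, Complex.exp_neg, Complex.exp_pi_mul_I]; norm_num
    rw [h5, sub_self, intervalIntegral.integral_of_le (by linarith [pi_pos]),
      integral_Ioc_eq_integral_Ioo, integral_smul, smul_eq_zero] at h4
    exact h4.resolve_left hr'.ne'
  have hmain : ∫ s, (z - s)⁻¹ • db (fderiv ℝ v s) = (π : ℂ) • v z := by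
    rw [← integral_add_left_eq_self _ z, ← Complex.integral_comp_polarCoord_symm]
    have : ∀ p ∈ Ioi (0 : ℝ) ×ˢ Ioo (-π) π,
        p.1 • ((z - (z + Complex.polarCoord.symm p))⁻¹ •
          db (fderiv ℝ v (z + Complex.polarCoord.symm p))) = (-2 : ℂ)⁻¹ • (A p + I • B p) := by
      intro p hp
      have h1 : Complex.polarCoord.symm p = p.1 * e p.2 := by
        rw [Complex.polarCoord_symm_apply, he]; simp [Complex.exp_mul_I]
      rw [h1, sub_add_cancel_left]
      exact polar_key _ (hen _) hp.1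
    rw [polarCoord_target, setIntegral_congr_fun (measurableSet_Ioi.prod measurableSet_Ioo) this,
      integral_smul, integral_add hAi (show Integrable (fun p => I • B p) _ from hBi.smul I), integral_smul, hAv, hBv, ← Complex.coe_smul]
    push_cast
    module
  rw [T, hmain, smul_smul, inv_mul_cancel₀ (by exact_mod_cast pi_ne_zero), one_smul]

end Pool.Agent.Lib.MP_1c0d65_gt.A
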