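import Pool.Agent.Lib.MP_1c0d65_gt.A.CP

/-! Estimates for the Cauchy transform of bounded densities; local representation. -/

open MeasureTheory Set Metric Real Filter Topology
open Complex (I)

namespace Pool.Agent.Lib.MP_1c0d65_gt.A

variable {E : Type*} [NormedAddCommGroup E] [NormedSpace ℂ E]

/-- A measurable density, bounded by `M`, zero off the disc of centre `c` and radius `R`. -/
structure BS (M : ℝ) (c : ℂ) (R : ℝ) (g : ℂ → E) : Prop where
  meas : AEStronglyMeasurable g volume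
  bd : ∀ s, ‖g s‖ ≤ M
  supp : ∀ s, s ∉ ball c R → g s = 0

theorem ae_ne' (z : ℂ) : ∀ᵐ s : ℂ, s ≠ z := by
  rw [ae_iff]; simp

omit [NormedSpace ℂ E] in
theorem dom {F : ℂ → E} {φ : ℂ → ℝ} {U : Set ℂ} (hU : MeasurableSet U)
    (hF : AEStronglyMeasurable F volume) (h0 : ∀ s, s ∉ U → F s = 0) (hφ : IntegrableOn φ U)
    (h : ∀ᵐ s : ℂ, s ∈ U → ‖F s‖ ≤ φ s) : Integrable F := by
  refine IntegrableOn.integrable_of_forall_notMem_eq_zero (s := U) ?_ h0
  exact Integrable.mono' hφ hF.restrict ((ae_restrict_iff' hU).2 h)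

theorem dom_le {F : ℂ → E} {φ : ℂ → ℝ} {U : Set ℂ} (hU : MeasurableSet U)
    (h0 : ∀ s, s ∉ U → F s = 0) (hφ : IntegrableOn φ U)
    (h : ∀ᵐ s : ℂ, s ∈ U → ‖F s‖ ≤ φ s) : ‖∫ s, F s‖ ≤ ∫ s in U, φ s := by
  rw [← setIntegral_eq_integral_of_forall_compl_eq_zero h0]
  exact norm_integral_le_of_norm_le hφ ((ae_restrict_iff' hU).2 h)

theorem meas_ker {g : ℂ → E} (hg : AEStronglyMeasurable g volume) (z : ℂ) :
    AEStronglyMeasurable (fun s => (z - s)⁻¹ • g s) volume :=
  (by fun_prop : Measurable fun s : ℂ => (z - s)⁻¹).aestronglyMeasurable.smul hg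

theorem norm_pi_inv : ‖(π : ℂ)⁻¹‖ = π⁻¹ := by
  rw [norm_inv, Complex.norm_real, Real.norm_of_nonneg pi_pos.le]

theorem rpow32 {a : ℝ} (ha : 0 ≤ a) : a ^ (-(3 / 2 : ℝ)) = (√a ^ 3)⁻¹ := by
  rw [Real.rpow_neg ha, Real.sqrt_eq_rpow, ← Real.rpow_natCast, ← Real.rpow_mul ha]; norm_num

theorem rpow52 {a : ℝ} (ha : 0 ≤ a) : a ^ (-(5 / 2 : ℝ)) = (√a ^ 5)⁻¹ := by
  rw [Real.rpow_neg ha, Real.sqrt_eq_rpow, ← Real.rpow_natCast, ← Real.rpow_mul ha]; norm_num

theorem int1 {R : ℝ} (hR : 0 < R) (z c : ℂ) :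
    ∫ s in ball c R, ‖z - s‖ ^ (-(1 : ℝ)) ≤ 3 * π * R := by
  have := int_shift (γ := 1) zero_le_one one_lt_two hR z c
  norm_num at this ⊢
  exact this

theorem int32 {R : ℝ} (hR : 0 < R) (z c : ℂ) :
    ∫ s in ball c R, ‖z - s‖ ^ (-(3 / 2 : ℝ)) ≤ 5 * π * √R := by
  have := int_shift (γ := 3 / 2) (by norm_num) (by norm_num) hR z c
  rw [Real.sqrt_eq_rpow]
  norm_num at this ⊢
  exact this

namespace BS

variable {M R : ℝ} {c : ℂ} {g : ℂ → E}

omit [NormedSpace ℂ E] in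
theorem nonneg (h : BS M c R g) : 0 ≤ M := (norm_nonneg _).trans (h.bd 0)

omit [NormedSpace ℂ E] in
theorem integrable (h : BS M c R g) : Integrable g :=
  dom measurableSet_ball h.meas h.supp (integrableOn_const measure_ball_lt_top.ne)
    (ae_of_all _ fun s _ => h.bd s)

theorem ker_le (h : BS M c R g) (z s : ℂ) :
    ‖(z - s)⁻¹ • g s‖ ≤ M * ‖z - s‖ ^ (-(1 : ℝ)) := by
  rw [norm_smul, norm_inv, Real.rpow_neg_one, mul_comm]
  gcongr
  exact h.bd s

theorem T_int (h : BS M c R g) (z : ℂ) : Integrable fun s => (z - s)⁻¹ • g s :=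
  dom measurableSet_ball (meas_ker h.meas z) (fun s hs => by simp [h.supp s hs])
    ((intOn_shift one_lt_two z c R).const_mul M) (ae_of_all _ fun s _ => h.ker_le z s)

theorem T_le (h : BS M c R g) (hR : 0 < R) (z : ℂ) : ‖T g z‖ ≤ 3 * R * M := by
  have h1 := dom_le (F := fun s => (z - s)⁻¹ • g s) measurableSet_ball
    (fun s hs => by simp [h.supp s hs])
    ((intOn_shift one_lt_two z c R).const_mul M) (ae_of_all _ fun s _ => h.ker_le z s)
  rw [integral_const_mul] at h1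
  rw [T, norm_smul, norm_pi_inv, inv_mul_le_iff₀ pi_pos]
  have := mul_le_mul_of_nonneg_left (int1 hR z c) h.nonneg
  linarith

end BS

theorem ker_aux {x y d : ℝ} (hx : 0 < x) (hxy : x ≤ y) (hd : 0 ≤ d) (h : d ^ 2 ≤ x ^ 2 + y ^ 2) :
    d ^ 2 / (x ^ 2 * y ^ 2) ≤ 2 * d * (x ^ 3)⁻¹ := by
  have hy : 0 < y := hx.trans_le hxy
  have h1 : d ≤ 2 * y := by nlinarith
  rw [div_le_iff₀ (by positivity)]
  have : 2 * d * (x ^ 3)⁻¹ * (x ^ 2 * y ^ 2) = d * (2 * y) * (y / x) := by field_simp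
  rw [this]
  have h2 : 1 ≤ y / x := (one_le_div hx).2 hxy
  calc d ^ 2 = d * d * 1 := by ring
    _ ≤ _ := by gcongr

theorem ker_diff {a b : ℂ} (ha : a ≠ 0) (hb : b ≠ 0) :
    ‖a⁻¹ - b⁻¹‖ ≤ 2 * √‖a - b‖ * (‖a‖ ^ (-(3 / 2 : ℝ)) + ‖b‖ ^ (-(3 / 2 : ℝ))) := by
  have h1 : a⁻¹ - b⁻¹ = -(a - b) / (a * b) := by field_simp; ring
  rw [h1, norm_div, norm_neg, norm_mul, rpow32 (norm_nonneg _), rpow32 (norm_nonneg _)]
  have h2 := norm_sub_le a b
  have hx : 0 < √‖a‖ := Real.sqrt_pos.2 (norm_pos_iff.2 ha)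
  have hy : 0 < √‖b‖ := Real.sqrt_pos.2 (norm_pos_iff.2 hb)
  have hd : 0 ≤ √‖a - b‖ := Real.sqrt_nonneg _
  have e1 := Real.sq_sqrt (norm_nonneg a)
  have e2 := Real.sq_sqrt (norm_nonneg b)
  have e3 := Real.sq_sqrt (norm_nonneg (a - b))
  generalize √‖a‖ = x at *
  generalize √‖b‖ = y at *
  generalize √‖a - b‖ = d at *
  rw [← e1, ← e2, ← e3] at h2
  rw [← e1, ← e2, ← e3]
  have p1 : 0 ≤ 2 * d * (x ^ 3)⁻¹ := by positivity
  have p2 : 0 ≤ 2 * d * (y ^ 3)⁻¹ := by positivity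
  rcases le_total x y with h | h
  · have := ker_aux hx h hd h2
    linarith
  · have := ker_aux hy h hd (by linarith)
    rw [mul_comm (y ^ 2)] at this
    linarith

theorem T_sub {f g : ℂ → E} {z : ℂ} (hf : Integrable fun s => (z - s)⁻¹ • f s)
    (hg : Integrable fun s => (z - s)⁻¹ • g s) :
    T (fun s => f s - g s) z = T f z - T g z := by
  simp only [T, smul_sub, integral_sub hf hg]

theorem T_add {f g : ℂ → E} {z : ℂ} (hf : Integrable fun s => (z - s)⁻¹ • f s)
    (hg : Integrable fun s => (z - s)⁻¹ • g s) :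
    T (fun s => f s + g s) z = T f z + T g z := by
  simp only [T, smul_add, integral_add hf hg]

theorem T_smul (a : ℂ) (f : ℂ → E) (z : ℂ) : T (fun s => a • f s) z = a • T f z := by
  simp only [T, smul_comm _ a, integral_smul]

theorem BS.T_hol {M R : ℝ} {c : ℂ} {g : ℂ → E} (h : BS M c R g) (hR : 0 < R) (z w : ℂ) :
    ‖T g z - T g w‖ ≤ 20 * √R * M * √‖z - w‖ := by
  have hM := h.nonneg
  have i1 := intOn_shift (γ := 3 / 2) (by norm_num) z c R
  have i2 := intOn_shift (γ := 3 / 2) (by norm_num) w c R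
  have h1 := dom_le (F := fun s => (z - s)⁻¹ • g s - (w - s)⁻¹ • g s)
    (φ := fun s => 2 * √‖z - w‖ * M * (‖z - s‖ ^ (-(3 / 2 : ℝ)) + ‖w - s‖ ^ (-(3 / 2 : ℝ))))
    measurableSet_ball (fun s hs => by simp [h.supp s hs]) ((i1.add i2).const_mul _) (by
      filter_upwards [ae_ne' z, ae_ne' w] with s h1 h2 _
      rw [← sub_smul, norm_smul]
      have := ker_diff (sub_ne_zero.2 h1.symm) (sub_ne_zero.2 h2.symm)
      rw [sub_sub_sub_cancel_right] at this
      calc _ ≤ _ := mul_le_mul this (h.bd s) (norm_nonneg _) (by positivity)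
        _ = _ := by ring)
  rw [integral_const_mul, integral_add i1 i2, integral_sub (h.T_int z) (h.T_int w)] at h1
  rw [T, T, ← smul_sub, norm_smul, norm_pi_inv, inv_mul_le_iff₀ pi_pos]
  have := mul_le_mul_of_nonneg_left (add_le_add (int32 hR z c) (int32 hR w c))
    (by positivity : 0 ≤ 2 * √‖z - w‖ * M)
  linarith

omit [NormedSpace ℂ E] in
theorem continuous_of_hol {X : Type*} [NormedAddCommGroup X] {f : X → E} {H : ℝ}
    (h : ∀ x y, ‖f x - f y‖ ≤ H * √‖x - y‖) : Continuous f := by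
  refine continuous_iff_continuousAt.2 fun y => ?_
  rw [ContinuousAt, tendsto_iff_norm_sub_tendsto_zero]
  refine squeeze_zero (fun _ => norm_nonneg _) (fun x => h x y) ?_
  have : Continuous fun x : X => H * √‖x - y‖ := by fun_prop
  simpa using this.tendsto y

theorem BS.T_cont {M R : ℝ} {c : ℂ} {g : ℂ → E} (h : BS M c R g) (hR : 0 < R) :
    Continuous (T g) := continuous_of_hol (h.T_hol hR)

variable [CompleteSpace E]

omit [CompleteSpace E] in
/-- The Cauchy transform is holomorphic where the density vanishes. -/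
theorem T_holo {g : ℂ → E} (hg : Integrable g) {z : ℂ} (h0 : ∀ᶠ s in 𝓝 z, g s = 0) :
    HasDerivAt (T g) ((π : ℂ)⁻¹ • ∫ s, (-((z - s) ^ 2)⁻¹) • g s) z := by
  obtain ⟨ρ, hρ, hb⟩ := Metric.eventually_nhds_iff_ball.1 h0
  have far : ∀ s, g s ≠ 0 → ∀ x ∈ ball z (ρ / 2), ρ / 2 ≤ ‖x - s‖ := fun s hs x hx => by
    have h1 : ρ ≤ dist s z := by
      by_contra hlt
      exact hs (hb s (not_le.1 hlt))
    have h2 := dist_triangle s x z
    rw [mem_ball] at hx
    rw [← dist_eq_norm, dist_comm]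
    linarith
  have hρ2 : 0 < ρ / 2 := by positivity
  refine (hasDerivAt_integral_of_dominated_loc_of_deriv_le (F := fun x s => (x - s)⁻¹ • g s)
    (F' := fun x s => (-((x - s) ^ 2)⁻¹) • g s) (bound := fun s => ((ρ / 2) ^ 2)⁻¹ * ‖g s‖)
    (ball_mem_nhds z hρ2) (Eventually.of_forall fun x => meas_ker hg.1 x) ?_ ?_ ?_
    (hg.norm.const_mul _) ?_).2.const_smul _
  · refine Integrable.mono' (hg.norm.const_mul (ρ / 2)⁻¹) (meas_ker hg.1 z) (ae_of_all _ fun s => ?_)
    by_cases hs : g s = 0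
    · simp [hs]
    · rw [norm_smul, norm_inv]
      have := far s hs z (mem_ball_self hρ2)
      gcongr
  · exact (by fun_prop : Measurable fun s : ℂ => -((z - s) ^ 2)⁻¹).aestronglyMeasurable.smul hg.1
  · refine ae_of_all _ fun s x hx => ?_
    by_cases hs : g s = 0
    · simp [hs]
    · rw [norm_smul, norm_neg, norm_inv, norm_pow]
      have := far s hs x hx
      gcongr
  · refine ae_of_all _ fun s x hx => ?_
    by_cases hs : g s = 0
    · simpa [hs] using hasDerivAt_const x (0 : E)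
    · have h1 : x - s ≠ 0 := norm_pos_iff.1 (hρ2.trans_le (far s hs x hx))
      have h2 := (((hasDerivAt_id x).sub_const s).inv h1).smul_const (g s)
      simpa [neg_div] using h2

omit [CompleteSpace E] in
theorem cut_contDiff {U : Set ℂ} {V : ℂ → E} {χ : ℂ → ℝ} {n : WithTop ℕ∞} (hχ : ContDiff ℝ n χ)
    (hs : tsupport χ ⊆ U) (hV : ∀ z ∈ U, ContDiffAt ℝ n V z) :
    ContDiff ℝ n fun z => χ z • V z := by
  refine contDiff_iff_contDiffAt.2 fun z => ?_
  by_cases hz : z ∈ tsupport χ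
  · exact hχ.contDiffAt.smul (hV z (hs hz))
  · refine (contDiffAt_const (c := (0 : E))).congr_of_eventuallyEq ?_
    filter_upwards [notMem_tsupport_iff_eventuallyEq.1 hz] with x hx
    simp [hx]

/-- Local representation: `V - T g` is holomorphic where `g` is the antilinear derivative of `V`. -/
theorem loc_holo {U : Set ℂ} (hU : IsOpen U) {V g : ℂ → E} (hV : ∀ z ∈ U, ContDiffAt ℝ 1 V z)
    (hg : ∀ z ∈ U, g z = db (fderiv ℝ V z)) (hi : Integrable g)
    (hk : ∀ z ∈ U, Integrable fun s => (z - s)⁻¹ • g s) :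
    DifferentiableOn ℂ (fun z => V z - T g z) U := by
  intro z hz
  obtain ⟨ρ, hρ, hb⟩ := Metric.isOpen_iff.1 hU z hz
  let χ : ContDiffBump z := ⟨ρ / 3, ρ / 2, by positivity, by linarith⟩
  have hs : tsupport χ ⊆ U := by
    rw [χ.tsupport_eq]
    exact (closedBall_subset_ball (by show ρ / 2 < ρ; linarith)).trans hb
  have hv : ContDiff ℝ 1 fun x => χ x • V x := cut_contDiff χ.contDiff hs hV
  have hc : HasCompactSupport fun x => χ x • V x := χ.hasCompactSupport.smul_right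
  have hcont : Continuous fun s => db (fderiv ℝ (fun x => χ x • V x) s) :=
    continuous_db.comp (hv.continuous_fderiv one_ne_zero)
  have hcs : HasCompactSupport fun s => db (fderiv ℝ (fun x => χ x • V x) s) :=
    (hc.fderiv ℝ).comp_left db_zero
  obtain ⟨M, hM⟩ := hcont.bounded_above_of_compact_support hcs
  obtain ⟨R, hR⟩ := hcs.isCompact.isBounded.subset_ball (0 : ℂ)
  have hBS : BS M 0 R fun s => db (fderiv ℝ (fun x => χ x • V x) s) :=
    ⟨hcont.aestronglyMeasurable, hM, fun s hs' => by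
      by_contra hne
      exact hs' (hR (subset_tsupport _ hne))⟩
  have h3 : (0 : ℝ) < ρ / 3 := by positivity
  have heq : ∀ x ∈ ball z (ρ / 3), (fun x => χ x • V x) =ᶠ[𝓝 x] V := fun x hx => by
    filter_upwards [isOpen_ball.mem_nhds hx] with y hy
    rw [χ.one_of_mem_closedBall (ball_subset_closedBall hy), one_smul]
  have hsub : ball z (ρ / 3) ⊆ U := (ball_subset_ball (by linarith)).trans hb
  have h4 := T_holo (hBS.integrable.sub hi) (z := z) (by
    filter_upwards [ball_mem_nhds z h3] with x hx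
    rw [Pi.sub_apply, (heq x hx).fderiv_eq, hg x (hsub hx), sub_self])
  refine (h4.differentiableAt.congr_of_eventuallyEq ?_).differentiableWithinAt
  filter_upwards [ball_mem_nhds z h3] with x hx
  have := T_sub (hBS.T_int x) (hk x (hsub hx))
  rw [cp hv hc x, (heq x hx).eq_of_nhds] at this
  exact this.symm

end Pool.Agent.Lib.MP_1c0d65_gt.A
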