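import Mathlib

/-! Arzela-Ascoli on an open set with eventual bounds, and limits in `C^1_loc`. -/

open Set Metric Filter Topology

namespace Pool.Agent.Lib.MP_1c0d65_gt.A

variable {E : Type*} [NormedAddCommGroup E] [NormedSpace ℝ E]

/-- A subsequence that converges at every point of a sequence where the values stay bounded. -/
theorem exists_subseq_pt {G : Type*} [NormedAddCommGroup G] [ProperSpace G] {g : ℕ → ℕ → G}
    {P : ℕ → Prop} (h : ∀ k, P k → ∃ B : ℝ, ∀ᶠ n in atTop, ‖g n k‖ ≤ B) :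
    ∃ φ : ℕ → ℕ, StrictMono φ ∧ ∀ k, P k → ∃ a, Tendsto (fun n => g (φ n) k) atTop (𝓝 a) := by
  classical
  have h' : ∀ k, ∃ B : ℝ, 0 ≤ B ∧ (P k → ∀ᶠ n in atTop, ‖g n k‖ ≤ B) := by
    intro k
    by_cases hk : P k
    · obtain ⟨B, hB⟩ := h k hk
      exact ⟨max B 0, le_max_right _ _, fun _ => hB.mono fun n hn => hn.trans (le_max_left _ _)⟩
    · exact ⟨0, le_rfl, fun hk' => absurd hk' hk⟩
  choose B hB0 hB using h'
  have hK : IsCompact (Set.pi univ fun k => closedBall (0 : G) (B k)) :=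
    isCompact_univ_pi fun k => isCompact_closedBall _ _
  have hm : ∀ n, (fun k => if ‖g n k‖ ≤ B k then g n k else 0) ∈
      Set.pi univ fun k => closedBall (0 : G) (B k) := by
    intro n k _
    by_cases hk : ‖g n k‖ ≤ B k
    · simp [hk]
    · simp [hk, hB0 k]
  obtain ⟨a, -, φ, hφ, ha⟩ := hK.tendsto_subseq hm
  refine ⟨φ, hφ, fun k hk => ⟨a k, ?_⟩⟩
  refine ((tendsto_pi_nhds.1 ha) k).congr' ?_
  filter_upwards [hφ.tendsto_atTop.eventually (hB k hk)] with n hn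
  simp [hn]

/-- Arzela-Ascoli on an open set, with bounds that hold eventually and pointwise. -/
theorem exists_subseq_loc {X G : Type*} [PseudoMetricSpace X] [TopologicalSpace.SeparableSpace X]
    [Nonempty X] [NormedAddCommGroup G] [ProperSpace G] {O : Set X} (hO : IsOpen O)
    {f : ℕ → X → G} (hb : ∀ x ∈ O, ∃ B : ℝ, ∀ᶠ n in atTop, ‖f n x‖ ≤ B)
    (he : ∀ x ∈ O, ∀ ε > 0, ∃ η > 0, ∀ᶠ n in atTop, ∀ y ∈ ball x η, dist (f n y) (f n x) ≤ ε) :
    ∃ (φ : ℕ → ℕ) (g : X → G), StrictMono φ ∧ ContinuousOn g O ∧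
      TendstoLocallyUniformlyOn (fun n => f (φ n)) g atTop O := by
  obtain ⟨φ, hφ, hd⟩ := exists_subseq_pt (g := fun n k => f n (TopologicalSpace.denseSeq X k))
    (P := fun k => TopologicalSpace.denseSeq X k ∈ O) fun k hk => hb _ hk
  have hc : ∀ x ∈ O, ∃ a, Tendsto (fun n => f (φ n) x) atTop (𝓝 a) := by
    intro x hx
    refine cauchySeq_tendsto_of_complete (Metric.cauchySeq_iff'.2 fun ε hε => ?_)
    obtain ⟨η, hη, h1⟩ := he x hx (ε / 4) (by positivity)
    obtain ⟨k, hk⟩ := (TopologicalSpace.denseRange_denseSeq X).exists_mem_open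
      (hO.inter isOpen_ball) ⟨x, hx, mem_ball_self hη⟩
    obtain ⟨a, ha⟩ := hd k hk.1
    have h2 := (Metric.tendsto_nhds.1 ha) (ε / 4) (by positivity)
    obtain ⟨N, hN⟩ := eventually_atTop.1 ((hφ.tendsto_atTop.eventually h1).and h2)
    refine ⟨N, fun n hn => ?_⟩
    have a1 := (hN n hn).1 _ hk.2
    have a2 := (hN n hn).2
    have a3 := (hN N le_rfl).1 _ hk.2
    have a4 := (hN N le_rfl).2
    have b1 := dist_triangle4 (f (φ n) x) (f (φ n) (TopologicalSpace.denseSeq X k)) a (f (φ N) x)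
    have b2 := dist_triangle a (f (φ N) (TopologicalSpace.denseSeq X k)) (f (φ N) x)
    rw [dist_comm] at a1 a4
    linarith
  choose! g hg using hc
  have hg' : ∀ x ∈ O, ∀ ε > 0, ∃ η > 0, (∀ y ∈ ball x η ∩ O, dist (g y) (g x) ≤ ε) ∧
      ∀ᶠ n in atTop, ∀ y ∈ ball x η, dist (f (φ n) y) (f (φ n) x) ≤ ε := by
    intro x hx ε hε
    obtain ⟨η, hη, h1⟩ := he x hx ε hε
    have h2 := hφ.tendsto_atTop.eventually h1
    exact ⟨η, hη, fun y hy => le_of_tendsto ((hg y hy.2).dist (hg x hx))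
      (h2.mono fun n hn => hn y hy.1), h2⟩
  refine ⟨φ, g, hφ, fun x hx => ?_, Metric.tendstoLocallyUniformlyOn_iff.2 fun ε hε x hx => ?_⟩
  · refine Metric.continuousWithinAt_iff.2 fun ε hε => ?_
    obtain ⟨η, hη, h1, -⟩ := hg' x hx (ε / 2) (by positivity)
    exact ⟨η, hη, fun y hy hd => (h1 y ⟨hd, hy⟩).trans_lt (by linarith)⟩
  · obtain ⟨η, hη, h1, h2⟩ := hg' x hx (ε / 3) (by positivity)
    refine ⟨ball x η ∩ O, inter_mem (mem_nhdsWithin_of_mem_nhds (ball_mem_nhds x hη))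
      self_mem_nhdsWithin, ?_⟩
    filter_upwards [h2, (Metric.tendsto_nhds.1 (hg x hx)) (ε / 3) (by positivity)] with n a1 a2 y hy
    have a3 := h1 y hy
    have a4 := a1 y hy.1
    have b1 := dist_triangle4 (g y) (g x) (f (φ n) x) (f (φ n) y)
    rw [dist_comm] at a2 a4
    linarith

/-- Limits in `C^1_loc` are of class `C^1`; differentiability is only asked locally and
eventually. -/
theorem c1_of_lim {X : Type*} [NormedAddCommGroup X] [NormedSpace ℝ X] {O : Set X} (hO : IsOpen O)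
    {u : ℕ → X → E} {v : X → E} {w : X → X →L[ℝ] E}
    (hd : ∀ x ∈ O, ∃ r > 0, ∀ᶠ n in atTop, ∀ y ∈ ball x r, DifferentiableAt ℝ (u n) y)
    (h0 : TendstoLocallyUniformlyOn u v atTop O)
    (h1 : TendstoLocallyUniformlyOn (fun n => fderiv ℝ (u n)) w atTop O) (hw : ContinuousOn w O) :
    (∀ x ∈ O, ContDiffAt ℝ 1 v x) ∧
      TendstoLocallyUniformlyOn (fun n => fderiv ℝ (u n)) (fderiv ℝ v) atTop O := by
  have hD : ∀ x ∈ O, HasFDerivAt v (w x) x := by
    intro x hx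
    obtain ⟨r, hr, h2⟩ := hd x hx
    have h3 := tendstoLocallyUniformlyOn_iff_filter.1 h1 x hx
    rw [hO.nhdsWithin_eq hx] at h3
    refine hasFDerivAt_of_tendstoUniformlyOnFilter (f := u) h3 ?_ ?_
    · filter_upwards [h2.prod_mk (ball_mem_nhds x hr)] with p hp
      exact (hp.1 _ hp.2).hasFDerivAt
    · filter_upwards [hO.mem_nhds hx] with y hy
      exact h0.tendsto_at hy
  exact ⟨fun x hx => contDiffAt_one_iff.2 ⟨w, O, hO.mem_nhds hx, hw, hD⟩,
    h1.congr_right fun x hx => (hD x hx).fderiv.symm⟩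

end Pool.Agent.Lib.MP_1c0d65_gt.A
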