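import Pool.Agent.Lib.MP_1c0d65_gt.A.Est
import Pool.Agent.Lib.MP_1c0d65_gt.A.CptA

/-! Compactness in `C^1_loc` of curves with locally bounded first derivatives. -/

open MeasureTheory Set Metric Real Filter Topology
open Complex (I)
open scoped ContDiff

namespace Pool.Agent.Lib.MP_1c0d65_gt.A

variable {E F : Type*} [NormedAddCommGroup E] [NormedSpace ℝ E] [NormedAddCommGroup F]
  [NormedSpace ℂ F] [CompleteSpace F]

theorem cpt [FiniteDimensional ℝ E] {C δ : ℝ} (hδ : 0 < δ) {O : Set ℂ} (hO : IsOpen O)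
    {u : ℕ → ℂ → E}
    (h : ∀ x ∈ O, ∃ r B : ℝ, 0 < r ∧ ∀ᶠ n in atTop, LocHol F C δ (ball x r) (u n) ∧
      ∀ y ∈ ball x r, ‖u n y‖ ≤ B ∧ ‖fderiv ℝ (u n) y‖ ≤ B) :
    ∃ (φ : ℕ → ℕ) (v : ℂ → E), StrictMono φ ∧ (∀ x ∈ O, ContDiffAt ℝ 1 v x) ∧
      TendstoLocallyUniformlyOn (fun n => u (φ n)) v atTop O ∧
      TendstoLocallyUniformlyOn (fun n => fderiv ℝ (u (φ n))) (fderiv ℝ v) atTop O := by
  have : ProperSpace (E × (ℂ →L[ℝ] E)) := FiniteDimensional.proper_real _
  obtain ⟨φ, g, hφ, hg, hl⟩ := exists_subseq_loc (G := E × (ℂ →L[ℝ] E)) hO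
    (f := fun n y => (u n y, fderiv ℝ (u n) y)) (fun x hx => by
      obtain ⟨r, B, hr, h1⟩ := h x hx
      refine ⟨B, h1.mono fun n hn => ?_⟩
      have := hn.2 x (mem_ball_self hr)
      exact max_le this.1 this.2) (fun x hx ε hε => by
      obtain ⟨r, B, hr, h1⟩ := h x hx
      obtain ⟨C', -, hC⟩ := est E F C (B * r) hδ
      have c1 : ContinuousAt (fun y : ℂ => max (B * ‖y - x‖) (C' / r * √(‖y - x‖ / r))) x := by
        fun_prop
      have c2 := c1.eventually_lt (continuousAt_const (y := ε)) (by simpa using hε)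
      obtain ⟨η, hη, h2⟩ := Metric.eventually_nhds_iff_ball.1
        (c2.and (ball_mem_nhds x (half_pos hr)))
      refine ⟨η, hη, h1.mono fun n hn y hy => ?_⟩
      obtain ⟨a1, a2⟩ := h2 y hy
      have a3 : y ∈ ball x r := ball_subset_ball (half_le_self hr.le) a2
      refine le_trans ?_ a1.le
      rw [Prod.dist_eq, dist_eq_norm, dist_eq_norm]
      refine max_le_max ?_ ?_
      · exact (convex_ball x r).norm_image_sub_le_of_norm_fderiv_le
          (fun z hz => (hn.1.diff z hz).differentiableAt one_ne_zero) (fun z hz => (hn.2 z hz).2)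
          (mem_ball_self hr) a3
      · exact hC _ _ x r hr hn.1 subset_rfl
          (fun z hz => by rw [mul_div_cancel_right₀ _ hr.ne']; exact (hn.2 z hz).2) y a2 x
          (mem_ball_self (half_pos hr)))
  have l0 : TendstoLocallyUniformlyOn (fun n => u (φ n)) (fun y => (g y).1) atTop O :=
    uniformContinuous_fst.comp_tendstoLocallyUniformlyOn hl
  have l1 : TendstoLocallyUniformlyOn (fun n => fderiv ℝ (u (φ n))) (fun y => (g y).2) atTop O :=
    uniformContinuous_snd.comp_tendstoLocallyUniformlyOn hl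
  obtain ⟨a1, a2⟩ := c1_of_lim hO (fun x hx => by
    obtain ⟨r, B, hr, h1⟩ := h x hx
    exact ⟨r, hr, (hφ.tendsto_atTop.eventually h1).mono fun n hn y hy =>
      (hn.1.diff y hy).differentiableAt one_ne_zero⟩) l0 l1 hg.snd
  exact ⟨φ, _, hφ, a1, l0, a2⟩

end Pool.Agent.Lib.MP_1c0d65_gt.A
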