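import Pool.Agent.Lib.MP_1c0d65_gt.A.Fr

/-! Oscillation on an annulus. -/

open MeasureTheory Set Metric Real Filter Topology
open Complex (I)
open scoped ContDiff

namespace Pool.Agent.Lib.MP_1c0d65_gt.A

variable {E F : Type*} [NormedAddCommGroup E] [NormedSpace ℝ E] [NormedAddCommGroup F]
  [NormedSpace ℂ F] [CompleteSpace F]

theorem osc {u : ℂ → E} {a : ℂ} {r R M : ℝ} (hr : 0 < r)
    (hu : ∀ z, r ≤ ‖z - a‖ → ‖z - a‖ ≤ R → DifferentiableAt ℝ u z ∧ ‖z - a‖ * ‖fderiv ℝ u z‖ ≤ M)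
    {x y : ℂ} (hx : r ≤ ‖x - a‖) (hx' : ‖x - a‖ ≤ R) (hy : r ≤ ‖y - a‖) (hy' : ‖y - a‖ ≤ R) :
    ‖u x - u y‖ ≤ M * (|Real.log ‖x - a‖ - Real.log ‖y - a‖| + 2 * π) := by
  have hM : 0 ≤ M := le_trans (by positivity) (hu x hx hx').2
  have hR : 0 < R := hr.trans_le (hx.trans hx')
  have hc : Convex ℝ ({w : ℂ | Real.log r ≤ w.re} ∩ {w : ℂ | w.re ≤ Real.log R}) :=
    (convex_halfSpace_re_ge _).inter (convex_halfSpace_re_le _)
  have hn : ∀ w : ℂ, ‖a + Complex.exp w - a‖ = Real.exp w.re := fun w => by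
    rw [add_sub_cancel_left, Complex.norm_exp]
  have hS : ∀ w ∈ {w : ℂ | Real.log r ≤ w.re} ∩ {w : ℂ | w.re ≤ Real.log R},
      DifferentiableAt ℝ u (a + Complex.exp w) ∧
        Real.exp w.re * ‖fderiv ℝ u (a + Complex.exp w)‖ ≤ M := fun w hw => by
    rw [← hn]
    exact hu _ (by rw [hn]; exact (Real.log_le_iff_le_exp hr).1 hw.1)
      (by rw [hn]; exact (Real.le_log_iff_exp_le hR).1 hw.2)
  have hm : ∀ z : ℂ, r ≤ ‖z - a‖ → ‖z - a‖ ≤ R → Complex.log (z - a) ∈
      {w : ℂ | Real.log r ≤ w.re} ∩ {w : ℂ | w.re ≤ Real.log R} := fun z h1 h2 =>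
    ⟨by rw [mem_ofPred_eq, Complex.log_re]; exact Real.log_le_log hr h1,
      by rw [mem_ofPred_eq, Complex.log_re]; exact Real.log_le_log (hr.trans_le h1) h2⟩
  have he : ∀ z : ℂ, r ≤ ‖z - a‖ → a + Complex.exp (Complex.log (z - a)) = z := fun z h1 => by
    rw [Complex.exp_log (norm_pos_iff.1 (hr.trans_le h1)), add_sub_cancel]
  have key := hc.norm_image_sub_le_of_norm_hasFDerivWithin_le (𝕜 := ℝ) (C := M)
    (f := fun w => u (a + Complex.exp w))
    (f' := fun w => (fderiv ℝ u (a + Complex.exp w)).comp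
      ((ContinuousLinearMap.toSpanSingleton ℂ (Complex.exp w)).restrictScalars ℝ))
    (fun w hw => ((hS w hw).1.hasFDerivAt.comp w
      (((Complex.hasDerivAt_exp w).hasFDerivAt.restrictScalars ℝ).const_add a)).hasFDerivWithinAt)
    (fun w hw => by
      refine (ContinuousLinearMap.opNorm_comp_le _ _).trans ?_
      rw [ContinuousLinearMap.norm_restrictScalars, ContinuousLinearMap.norm_toSpanSingleton,
        Complex.norm_exp, mul_comm]
      exact (hS w hw).2) (hm y hy hy') (hm x hx hx')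
  simp only [he x hx, he y hy] at key
  refine key.trans (mul_le_mul_of_nonneg_left ((Complex.norm_le_abs_re_add_abs_im _).trans ?_) hM)
  rw [Complex.sub_re, Complex.sub_im, Complex.log_re, Complex.log_re, Complex.log_im,
    Complex.log_im]
  have h1 := Complex.arg_le_pi (x - a)
  have h2 := Complex.arg_le_pi (y - a)
  have h3 := Complex.neg_pi_lt_arg (x - a)
  have h4 := Complex.neg_pi_lt_arg (y - a)
  have : |(x - a).arg - (y - a).arg| ≤ 2 * π := abs_le.2 ⟨by linarith, by linarith⟩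
  linarith

end Pool.Agent.Lib.MP_1c0d65_gt.A
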