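import Pool.Agent.Lib.MP_1c0d65_gt.A.DecA
import Pool.Agent.Lib.MP_1c0d65_gt.A.Osc

/-! Decay of the derivative on long annuli. -/

open MeasureTheory Set Metric Real Filter Topology
open Complex (I)
open scoped ContDiff

namespace Pool.Agent.Lib.MP_1c0d65_gt.A

variable {E F : Type*} [NormedAddCommGroup E] [NormedSpace ℝ E] [NormedAddCommGroup F]
  [NormedSpace ℂ F] [CompleteSpace F]

theorem dec_osc {u : ℂ → E} {a z₀ : ℂ} {ρ L M : ℝ} (hρ : 0 < ρ) (hL : 4 ≤ L) (hz : ‖z₀ - a‖ = ρ)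
    (hM : 0 ≤ M) (hu : ∀ z, ρ / L ≤ ‖z - a‖ → ‖z - a‖ ≤ ρ * L →
      DifferentiableAt ℝ u z ∧ ‖z - a‖ * ‖fderiv ℝ u z‖ ≤ M)
    {s : ℂ} (h1 : ρ / L ≤ ‖s - a‖) (h2 : ‖s - a‖ ≤ ρ * L) :
    ‖u s - u z₀‖ ≤ 3 * L * M ∧ ‖u s - u z₀‖ ≤ 6 * L * M / ρ * ‖s - z₀‖ := by
  have hL0 : 0 < L := by linarith
  have hr : 0 < ρ / L := by positivity
  have q1 : ρ / L ≤ ρ / 2 := by gcongr; linarith
  have q2 : 2 * ρ ≤ ρ * L := by nlinarith
  have hs : 0 < ‖s - a‖ := hr.trans_le h1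
  have a1 : ‖u s - u z₀‖ ≤ 3 * L * M := by
    refine (osc hr hu h1 h2 (by linarith) (by linarith)).trans ?_
    have l1 := Real.log_le_log hr h1
    have l2 := Real.log_le_log hs h2
    rw [Real.log_div hρ.ne' hL0.ne'] at l1
    rw [Real.log_mul hρ.ne' hL0.ne'] at l2
    have l3 := Real.log_le_sub_one_of_pos hL0
    have l4 : |Real.log ‖s - a‖ - Real.log ‖z₀ - a‖| ≤ L - 1 := by
      rw [hz, abs_le]; constructor <;> linarith
    have := Real.pi_le_four
    nlinarith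
  refine ⟨a1, ?_⟩
  by_cases hn : s ∈ ball z₀ (ρ / 2)
  · have b : ∀ x ∈ ball z₀ (ρ / 2), ρ / 2 ≤ ‖x - a‖ ∧ ‖x - a‖ ≤ 2 * ρ := fun x hx => by
      have h3 := mem_ball_iff_norm.1 hx
      have h4 := norm_sub_le (x - a) (x - z₀)
      have h5 := norm_add_le (x - z₀) (z₀ - a)
      rw [sub_sub_sub_cancel_left] at h4
      rw [sub_add_sub_cancel] at h5
      constructor <;> linarith
    refine (convex_ball z₀ (ρ / 2)).norm_image_sub_le_of_norm_fderiv_le (𝕜 := ℝ)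
      (fun x hx => (hu x (q1.trans (b x hx).1) ((b x hx).2.trans q2)).1) (fun x hx => ?_)
      (mem_ball_self (by positivity)) hn
    have h3 := (hu x (q1.trans (b x hx).1) ((b x hx).2.trans q2)).2
    have h4 := mul_le_mul_of_nonneg_right (b x hx).1 (norm_nonneg (fderiv ℝ u x))
    rw [le_div_iff₀ hρ]
    nlinarith
  · rw [mem_ball_iff_norm, not_lt] at hn
    refine a1.trans ?_
    calc 3 * L * M = 6 * L * M / ρ * (ρ / 2) := by field_simp; ring
      _ ≤ _ := by gcongr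

/-- one step -/
theorem dec_step {Ψ : E → E →L[ℝ] F} {u : ℂ → E} {a z₀ : ℂ} {ρ L M C δ : ℝ} (hρ : 0 < ρ)
    (hL : 4 ≤ L) (hz : ‖z₀ - a‖ = ρ) (hM : 0 ≤ M) (hδ : 3 * L * M < δ)
    (hΨ : Fr C (ball (u z₀) δ) Ψ) (hu : ∀ z, ρ / L ≤ ‖z - a‖ → ‖z - a‖ ≤ ρ * L →
      ContDiffAt ℝ 1 u z ∧ ‖z - a‖ * ‖fderiv ℝ u z‖ ≤ M ∧ (u z ∈ ball (u z₀) δ → HolAt Ψ u z)) :
    ρ * ‖fderiv ℝ u z₀‖ ≤ C ^ 2 * (128 / L + 54 * M * L ^ 3) * M := by
  have hL0 : 0 < L := by linarith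
  have hr : 0 < ρ / L := by positivity
  have hR : 0 < ρ * L := by positivity
  have h0 : u z₀ ∈ ball (u z₀) δ := mem_ball_self (lt_of_le_of_lt (by positivity) hδ)
  have hC : 0 ≤ C := (norm_nonneg _).trans (hΨ.le _ h0)
  have hu' : ∀ z, ρ / L ≤ ‖z - a‖ → ‖z - a‖ ≤ ρ * L →
      DifferentiableAt ℝ u z ∧ ‖z - a‖ * ‖fderiv ℝ u z‖ ≤ M := fun z h1 h2 =>
    ⟨(hu z h1 h2).1.differentiableAt one_ne_zero, (hu z h1 h2).2.1⟩
  set U : Set ℂ := ball a (ρ * L) \ closedBall a (ρ / L) with hUd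
  have hU : IsOpen U := isOpen_ball.sdiff isClosed_closedBall
  have mem : ∀ {z}, z ∈ U ↔ ‖z - a‖ < ρ * L ∧ ρ / L < ‖z - a‖ := fun {z} => by
    rw [hUd, Set.mem_sdiff, mem_ball_iff_norm, mem_closedBall_iff_norm, not_le]
  set W : ℂ → F := fun s => Ψ (u z₀) (u s) with hW
  have hWc : ∀ z ∈ U, ContDiffAt ℝ 1 W z := fun z h =>
    (Ψ (u z₀)).contDiff.contDiffAt.comp z (hu z (mem.1 h).2.le (mem.1 h).1.le).1
  have hWd : ∀ z ∈ U, HasFDerivAt W ((Ψ (u z₀)).comp (fderiv ℝ u z)) z := fun z h =>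
    (Ψ (u z₀)).hasFDerivAt.comp z (hu' z (mem.1 h).2.le (mem.1 h).1.le).1.hasFDerivAt
  set g : ℂ → F := U.indicator fun s => db (fderiv ℝ W s) with hg
  have gb : ∀ s ∈ U, ‖g s‖ ≤ C * ‖u s - u z₀‖ * (M * L / ρ) := fun s h => by
    obtain ⟨h2, h1⟩ := mem.1 h
    have h3 : u s ∈ ball (u z₀) δ :=
      mem_ball_iff_norm.2 ((dec_osc hρ hL hz hM hu' h1.le h2.le).1.trans_lt hδ)
    have h4 := holAt_iff.1 ((hu s h1.le h2.le).2.2 h3)
    rw [hg, indicator_of_mem h, (hWd s h).fderiv, ← sub_zero (db _), ← h4, ← db_sub,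
      ← ContinuousLinearMap.sub_comp]
    refine (norm_db_le _).trans ((ContinuousLinearMap.opNorm_comp_le _ _).trans ?_)
    refine mul_le_mul ((hΨ.lip _ h0 _ h3).trans_eq (by rw [norm_sub_rev])) ?_ (norm_nonneg _)
      (by positivity)
    have h5 := (mul_le_mul_of_nonneg_right h1.le (norm_nonneg (fderiv ℝ u s))).trans
      (hu s h1.le h2.le).2.1
    rw [le_div_iff₀ hρ]
    rw [div_mul_eq_mul_div, div_le_iff₀ hL0] at h5
    linarith
  have hBS : BS (C * (3 * L * M) * (M * L / ρ)) a (ρ * L) g := by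
    refine ⟨meas_cut hU hWc, fun s => ?_, fun s h => indicator_of_notMem (fun h' => h h'.1) _⟩
    by_cases h : s ∈ U
    · refine (gb s h).trans ?_
      have := (dec_osc hρ hL hz hM hu' (mem.1 h).2.le (mem.1 h).1.le).1
      gcongr
    · rw [hg, indicator_of_notMem h, norm_zero]; positivity
  have hlip := dec_T_lip (H := C * (6 * L * M / ρ) * (M * L / ρ)) (z₀ := z₀) hBS hR
    (by positivity) fun s => by
      by_cases h : s ∈ U
      · refine (gb s h).trans ?_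
        have := (dec_osc hρ hL hz hM hu' (mem.1 h).2.le (mem.1 h).1.le).2
        calc _ ≤ C * (6 * L * M / ρ * ‖s - z₀‖) * (M * L / ρ) := by gcongr
          _ = _ := by ring
      · rw [hg, indicator_of_notMem h, norm_zero]; positivity
  have hf := loc_holo hU hWc (fun z h => indicator_of_mem h _) hBS.integrable
    fun z _ => hBS.T_int z
  have q1 : ρ / L < 2 * ρ / L := by gcongr; linarith
  have q2 : 2 * ρ / L ≤ ρ / 2 := by rw [div_le_div_iff₀ hL0 two_pos]; nlinarith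
  have q3 : 2 * ρ ≤ ρ * L / 2 := by nlinarith
  have q4 : ρ * L / 2 < ρ * L := by linarith
  have circ : ∀ t, ρ / L < t → t < ρ * L → ∀ s ∈ sphere a t,
      ‖W s - T g s - W (a + t)‖ ≤ C * M * (8 + 9 * M * L ^ 3) := fun t t1 t2 s hs => by
    have h1 := mem_sphere_iff_norm.1 hs
    have h2 : ‖a + t - a‖ = t := by
      rw [add_sub_cancel_left, Complex.norm_real, Real.norm_of_nonneg (hr.trans t1).le]
    have h3 := osc hr hu' (x := s) (y := a + t) (by linarith) (by linarith) (by linarith)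
      (by linarith)
    rw [h1, h2, sub_self, abs_zero, zero_add] at h3
    have h4 : ‖W s - W (a + t)‖ ≤ C * (M * 8) := by
      rw [hW]
      simp only [← map_sub]
      refine ((Ψ (u z₀)).le_opNorm _).trans (mul_le_mul (hΨ.le _ h0) (h3.trans ?_)
        (norm_nonneg _) hC)
      have := Real.pi_le_four
      gcongr
      linarith
    rw [sub_right_comm]
    refine (norm_sub_le _ _).trans ((add_le_add h4 (hBS.T_le hR s)).trans_eq ?_)
    field_simp
    ring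
  have hd := dec_laurent (z₀ := z₀) (d := ρ / 2) (D := ρ * L / 4) hU hf (hr.trans q1)
    (by positivity) (by positivity) (by linarith) (by linarith : _ ≤ ρ * L / 2)
    (fun s h => mem.2 ⟨(mem_closedBall_iff_norm.1 h.1).trans_lt q4,
      q1.trans_le (not_lt.1 fun h' => h.2 (mem_ball_iff_norm.2 h'))⟩) _ _
    (circ _ q1 (by linarith)) (circ _ (by linarith) q4)
  have hzU : z₀ ∈ U := mem.2 ⟨by linarith, by linarith⟩
  have hf' := (hf.differentiableAt (hU.mem_nhds hzU)).hasFDerivAt.restrictScalars ℝ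
  have h7 := ((hWd z₀ hzU).sub hf').le_of_lip'
    (C := 3 * (ρ * L) * (C * (6 * L * M / ρ) * (M * L / ρ))) (by positivity)
    (Eventually.of_forall fun x => by simpa using hlip x)
  have h8 := norm_add_le ((Ψ (u z₀)).comp (fderiv ℝ u z₀) - ContinuousLinearMap.restrictScalars ℝ
    (fderiv ℂ (fun z => W z - T g z) z₀)) (ContinuousLinearMap.restrictScalars ℝ
      (fderiv ℂ (fun z => W z - T g z) z₀))
  rw [sub_add_cancel, ContinuousLinearMap.norm_restrictScalars, ← norm_deriv_eq_norm_fderiv] at h8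
  have h9 : ‖fderiv ℝ u z₀‖ ≤ C * ‖(Ψ (u z₀)).comp (fderiv ℝ u z₀)‖ :=
    ContinuousLinearMap.opNorm_le_bound _ (by positivity) fun v => (hΨ.ge _ h0 _).trans (by
      rw [mul_assoc]
      exact mul_le_mul_of_nonneg_left (((Ψ (u z₀)).comp (fderiv ℝ u z₀)).le_opNorm v) hC)
  calc ρ * ‖fderiv ℝ u z₀‖ ≤ ρ * (C * _) := mul_le_mul_of_nonneg_left
        (h9.trans (mul_le_mul_of_nonneg_left (h8.trans (add_le_add h7 hd)) hC)) hρ.le
    _ = C ^ 2 * (128 / L + 18 * M * L ^ 3 + 144 / L * (M * L ^ 3)) * M := by field_simp; ring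
    _ ≤ C ^ 2 * (128 / L + 18 * M * L ^ 3 + 144 / 4 * (M * L ^ 3)) * M := by gcongr
    _ = _ := by ring

variable (E F) in
theorem dec (C : ℝ) {δ μ : ℝ} (hδ : 0 < δ) (h0 : 0 < μ) (h1 : μ < 1) :
    ∃ ε₀ C' : ℝ, 0 < ε₀ ∧ 0 ≤ C' ∧ ∀ (O : Set ℂ) (u : ℂ → E) (a : ℂ) (r R ε : ℝ), 0 < r → ε ≤ ε₀ →
    LocHol F C δ O u → {z | r ≤ ‖z - a‖ ∧ ‖z - a‖ ≤ R} ⊆ O →
    (∀ z, r ≤ ‖z - a‖ → ‖z - a‖ ≤ R → ‖z - a‖ * ‖fderiv ℝ u z‖ ≤ ε) →
    ∀ z, r ≤ ‖z - a‖ → ‖z - a‖ ≤ R →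
      ‖z - a‖ * ‖fderiv ℝ u z‖ ≤ C' * ε * ((r / ‖z - a‖) ^ μ + (‖z - a‖ / R) ^ μ) := by
  obtain ⟨L, hL, hL'⟩ : ∃ L : ℝ, 4 ≤ L ∧ C ^ 2 * 128 * L ^ (-(1 - μ)) < 1 / 4 := by
    have := ((tendsto_rpow_neg_atTop (sub_pos.2 h1)).const_mul (C ^ 2 * 128)).eventually
      (gt_mem_nhds (by norm_num : C ^ 2 * 128 * 0 < (1 / 4 : ℝ)))
    exact ((eventually_ge_atTop 4).and this).exists
  have hL0 : 0 < L := by linarith
  have hP : 0 < L ^ μ := Real.rpow_pos_of_pos hL0 μ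
  rw [neg_sub, Real.rpow_sub_one hL0.ne'] at hL'
  obtain ⟨ε₀, hε, e1, e2⟩ : ∃ ε₀ : ℝ, 0 < ε₀ ∧ 3 * L * ε₀ < δ ∧
      C ^ 2 * (54 * ε₀ * L ^ 3) * L ^ μ < 1 / 4 := by
    have c1 : Continuous fun x : ℝ => 3 * L * x := by fun_prop
    have c2 : Continuous fun x : ℝ => C ^ 2 * (54 * x * L ^ 3) * L ^ μ := by fun_prop
    have := ((c1.tendsto 0).eventually (gt_mem_nhds (by simpa using hδ))).and
      ((c2.tendsto 0).eventually (gt_mem_nhds (by norm_num : _ < (1 / 4 : ℝ))))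
    exact ((eventually_mem_nhdsWithin (s := Ioi (0 : ℝ))).and
      (this.filter_mono nhdsWithin_le_nhds)).exists
  refine ⟨ε₀, L ^ μ, hε, hP.le, fun O u a r R ε hr hle hu hO hm z z1 z2 => ?_⟩
  have hR : 0 < R := hr.trans_le (z1.trans z2)
  have hε0 : 0 ≤ ε := le_trans (by positivity) (hm z z1 z2)
  set w : ℝ → ℝ := fun t => (r / t) ^ μ + (t / R) ^ μ with hw
  have wl : ∀ t t', 0 < t → 0 < t' → t / L ≤ t' → t' ≤ t * L → w t' ≤ L ^ μ * w t := by
    intro t t' p p' b1 b2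
    simp only [hw]
    rw [mul_add, ← Real.mul_rpow hL0.le (by positivity), ← Real.mul_rpow hL0.le (by positivity)]
    rw [div_le_iff₀ hL0] at b1
    refine add_le_add (Real.rpow_le_rpow (by positivity) ?_ h0.le)
      (Real.rpow_le_rpow (by positivity) ?_ h0.le)
    · rw [← mul_div_assoc, div_le_div_iff₀ p' p]; nlinarith
    · rw [← mul_div_assoc]; gcongr; linarith
  have key : ∀ n : ℕ, ∀ x, r ≤ ‖x - a‖ → ‖x - a‖ ≤ R → ‖x - a‖ * ‖fderiv ℝ u x‖ ≤
      (L ^ μ * ε + (R / r) ^ μ * ε * (1 / 2) ^ n) * w ‖x - a‖ := by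
    intro n
    induction n with
    | zero =>
      intro x x1 x2
      have p : 0 < ‖x - a‖ := hr.trans_le x1
      have b : 1 ≤ (R / r) ^ μ * (r / ‖x - a‖) ^ μ := by
        rw [← Real.mul_rpow (by positivity) (by positivity)]
        refine Real.one_le_rpow ?_ h0.le
        rw [div_mul_div_cancel₀ hr.ne', one_le_div p]; exact x2
      refine (hm x x1 x2).trans ?_
      have b1 : 0 ≤ (‖x - a‖ / R) ^ μ := by positivity
      have b2 : 0 ≤ (r / ‖x - a‖) ^ μ := by positivity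
      have b3 : 0 ≤ (R / r) ^ μ := by positivity
      simp only [hw, pow_zero, mul_one]
      nlinarith [mul_nonneg hP.le hε0, mul_nonneg b3 hε0, mul_le_mul_of_nonneg_left b hε0,
        mul_nonneg (mul_nonneg hP.le hε0) (add_nonneg b2 b1), mul_nonneg (mul_nonneg b3 hε0) b1]
    | succ n ih =>
      intro x x1 x2
      have p : 0 < ‖x - a‖ := hr.trans_le x1
      have w0 : 0 ≤ w ‖x - a‖ := by simp only [hw]; positivity
      have k0 : 0 ≤ (R / r) ^ μ * ε * (1 / 2) ^ n := by positivity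
      by_cases hx : r ≤ ‖x - a‖ / L ∧ ‖x - a‖ * L ≤ R
      · obtain ⟨Ψ, f1, f2⟩ := hu.fr x (hO ⟨x1, x2⟩)
        set K := L ^ μ * ε + (R / r) ^ μ * ε * (1 / 2) ^ n with hK
        have K0 : 0 ≤ K := by positivity
        set M := min ε (K * (L ^ μ * w ‖x - a‖)) with hM
        have M0 : 0 ≤ M := le_min hε0 (by positivity)
        have M1 : M ≤ ε₀ := (min_le_left _ _).trans hle
        have st := dec_step p hL rfl M0 (lt_of_le_of_lt (by gcongr) e1) f1 fun y y1 y2 =>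
          ⟨hu.diff y (hO ⟨hx.1.trans y1, y2.trans hx.2⟩), le_min (hm y (hx.1.trans y1)
            (y2.trans hx.2)) ((ih y (hx.1.trans y1) (y2.trans hx.2)).trans
              (mul_le_mul_of_nonneg_left (wl _ _ p (hr.trans_le (hx.1.trans y1)) y1 y2) K0)),
            f2 y (hO ⟨hx.1.trans y1, y2.trans hx.2⟩)⟩
        calc _ ≤ _ := st
          _ ≤ C ^ 2 * (128 / L + 54 * ε₀ * L ^ 3) * (K * (L ^ μ * w ‖x - a‖)) := by
            gcongr; exact min_le_right _ _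
          _ = (C ^ 2 * 128 * (L ^ μ / L) + C ^ 2 * (54 * ε₀ * L ^ 3) * L ^ μ) * (K * w ‖x - a‖) := by
            ring
          _ ≤ (1 / 4 + 1 / 4) * (K * w ‖x - a‖) := by gcongr
          _ ≤ _ := by
            rw [← mul_assoc, hK, pow_succ]
            refine mul_le_mul_of_nonneg_right ?_ w0
            nlinarith [mul_nonneg hP.le hε0]
      · have b : 1 ≤ L ^ μ * w ‖x - a‖ := by
          have b1 : 0 ≤ L ^ μ * (‖x - a‖ / R) ^ μ := by positivity
          have b2 : 0 ≤ L ^ μ * (r / ‖x - a‖) ^ μ := by positivity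
          simp only [hw, mul_add]
          rcases not_and_or.1 hx with h | h
          · refine le_add_of_le_of_nonneg ?_ b1
            rw [← Real.mul_rpow hL0.le (by positivity)]
            refine Real.one_le_rpow ?_ h0.le
            rw [not_le, div_lt_iff₀ hL0] at h
            rw [← mul_div_assoc, one_le_div p]; linarith
          · refine le_add_of_nonneg_of_le b2 ?_
            rw [← Real.mul_rpow hL0.le (by positivity)]
            refine Real.one_le_rpow ?_ h0.le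
            rw [← mul_div_assoc, one_le_div hR]; linarith [not_le.1 h]
        refine (hm x x1 x2).trans ?_
        have k1 : 0 ≤ (R / r) ^ μ * ε * (1 / 2) ^ (n + 1) * w ‖x - a‖ := by positivity
        nlinarith [mul_le_mul_of_nonneg_left b hε0]
  have lim : Tendsto (fun n : ℕ => (L ^ μ * ε + (R / r) ^ μ * ε * (1 / 2) ^ n) * w ‖z - a‖) atTop
      (𝓝 ((L ^ μ * ε + (R / r) ^ μ * ε * 0) * w ‖z - a‖)) :=
    (((tendsto_pow_atTop_nhds_zero_of_lt_one (by norm_num) (by norm_num)).const_mul _).const_add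
      _).mul_const _
  rw [mul_zero, add_zero] at lim
  exact ge_of_tendsto' lim fun n => key n z z1 z2

end Pool.Agent.Lib.MP_1c0d65_gt.A
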