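import Pool.Agent.Lib.MP_1c0d65_gt.A.Fr

/-! Two estimates: the derivative of a holomorphic function on an annulus, and the Cauchy transform
of a density that vanishes at a point. -/

open MeasureTheory Set Metric Real Filter Topology
open Complex (I)

namespace Pool.Agent.Lib.MP_1c0d65_gt.A

variable {F : Type*} [NormedAddCommGroup F] [NormedSpace ℂ F]

theorem dec_T_lip {M R H : ℝ} {c z₀ : ℂ} {g : ℂ → F} (h : BS M c R g) (hR : 0 < R) (hH : 0 ≤ H)
    (hg : ∀ s, ‖g s‖ ≤ H * ‖s - z₀‖) (z : ℂ) : ‖T g z - T g z₀‖ ≤ 3 * R * H * ‖z - z₀‖ := by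
  have h' : BS H c R fun s => (z₀ - s)⁻¹ • g s := by
    refine ⟨meas_ker h.meas z₀, fun s => ?_, fun s hs => by simp [h.supp s hs]⟩
    by_cases e : s = z₀
    · simpa [e] using hH
    · have : 0 < ‖z₀ - s‖ := norm_pos_iff.2 (sub_ne_zero.2 (Ne.symm e))
      rw [norm_smul, norm_inv, inv_mul_le_iff₀ this, mul_comm, norm_sub_rev]
      exact hg s
  have e : T g z - T g z₀ = (z₀ - z) • T (fun s => (z₀ - s)⁻¹ • g s) z := by
    rw [← T_smul, T, T, T, ← smul_sub, ← integral_sub (h.T_int z) (h.T_int z₀)]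
    congr 1
    refine integral_congr_ae ?_
    filter_upwards [ae_ne' z, ae_ne' z₀] with s h1 h2
    have h3 := sub_ne_zero.2 h1.symm
    have h4 := sub_ne_zero.2 h2.symm
    rw [← sub_smul, smul_smul, smul_smul]
    congr 1
    field_simp
    ring
  rw [e, norm_smul, norm_sub_rev, mul_comm]
  exact mul_le_mul_of_nonneg_right (h'.T_le hR z) (norm_nonneg _)

variable [CompleteSpace F]

theorem dec_circ {f : ℂ → F} {a z₀ : ℂ} {r d B : ℝ} (hr : 0 ≤ r) (hd : 0 < d) (c : F)
    (hf : ContinuousOn (dslope (dslope f z₀) z₀) (sphere a r))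
    (h1 : ∀ s ∈ sphere a r, d ≤ ‖s - z₀‖) (h2 : ∀ s ∈ sphere a r, ‖f s - c‖ ≤ B) :
    ‖(∮ s in C(a, r), dslope (dslope f z₀) z₀ s) + (∮ s in C(a, r), (s - z₀)⁻¹) • deriv f z₀‖ ≤
      2 * π * r * (B / d ^ 2) := by
  have hne : ∀ s ∈ sphere a r, s - z₀ ≠ 0 := fun s hs => norm_pos_iff.1 (hd.trans_le (h1 s hs))
  have c1 : ContinuousOn (fun s : ℂ => (s - z₀)⁻¹) (sphere a r) :=
    (continuousOn_id.sub continuousOn_const).inv₀ hne
  have c2 : ContinuousOn (fun s : ℂ => ((s - z₀) ^ 2)⁻¹) (sphere a r) :=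
    ((continuousOn_id.sub continuousOn_const).pow 2).inv₀ fun s hs => pow_ne_zero 2 (hne s hs)
  have h4 : (∮ s in C(a, r), ((s - z₀) ^ 2)⁻¹) = 0 := by
    simpa using! circleIntegral.integral_sub_zpow_of_ne (by decide : (-2 : ℤ) ≠ -1) a z₀ r
  have i1 := hf.circleIntegrable hr
  have i2 : CircleIntegrable (fun s => (s - z₀)⁻¹ • deriv f z₀) a r :=
    (c1.smul continuousOn_const).circleIntegrable hr
  have i3 : CircleIntegrable (fun s => ((s - z₀) ^ 2)⁻¹ • (c - f z₀)) a r :=
    (c2.smul continuousOn_const).circleIntegrable hr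
  have e := circleIntegral.integral_sub (i1.add i2) i3
  simp only [Pi.add_apply] at e
  rw [circleIntegral.integral_add i1 i2, circleIntegral.integral_smul_const,
    circleIntegral.integral_smul_const, h4, zero_smul, sub_zero] at e
  rw [← e]
  refine circleIntegral.norm_integral_le_of_norm_le_const hr fun s hs => ?_
  have h5 := hne s hs
  have h6 : s ≠ z₀ := sub_ne_zero.1 h5
  have : dslope (dslope f z₀) z₀ s + (s - z₀)⁻¹ • deriv f z₀ - ((s - z₀) ^ 2)⁻¹ • (c - f z₀) =
      ((s - z₀) ^ 2)⁻¹ • (f s - c) := by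
    rw [dslope_of_ne _ h6, slope_def_module, dslope_of_ne _ h6, slope_def_module, dslope_same,
      sq, mul_inv]
    module
  rw [this, norm_smul, norm_inv, norm_pow, div_eq_inv_mul]
  have := h1 s hs
  gcongr
  exact h2 s hs

/-- the derivative of a holomorphic function in the middle of a long annulus -/
theorem dec_laurent {f : ℂ → F} {U : Set ℂ} {a z₀ : ℂ} {r R d D B : ℝ} (hU : IsOpen U)
    (hf : DifferentiableOn ℂ f U) (hr : 0 < r) (hd : 0 < d) (hD : 0 < D)
    (h1 : r + d ≤ ‖z₀ - a‖) (h2 : ‖z₀ - a‖ + D ≤ R) (hs : closedBall a R \ ball a r ⊆ U)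
    (c c' : F) (b1 : ∀ s ∈ sphere a r, ‖f s - c‖ ≤ B) (b2 : ∀ s ∈ sphere a R, ‖f s - c'‖ ≤ B) :
    ‖deriv f z₀‖ ≤ r * (B / d ^ 2) + R * (B / D ^ 2) := by
  have hz : z₀ ∈ U := hs ⟨mem_closedBall_iff_norm.2 (by linarith), fun h => by
    have := mem_ball_iff_norm.1 h
    linarith⟩
  have hn := hU.mem_nhds hz
  have hh := (Complex.differentiableOn_dslope hn).2 ((Complex.differentiableOn_dslope hn).2 hf)
  have hrR : r ≤ R := by linarith
  have e := Complex.circleIntegral_eq_of_differentiable_on_annulus_off_countable hr hrR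
    countable_empty (hh.continuousOn.mono hs) fun z hz => hh.differentiableAt (hU.mem_nhds
      (hs ⟨ball_subset_closedBall hz.1.1, fun h => hz.1.2 (ball_subset_closedBall h)⟩))
  have far : ∀ s ∈ closedBall a r, d ≤ ‖s - z₀‖ := fun s hs => by
    have h3 := mem_closedBall_iff_norm.1 hs
    have h4 := norm_sub_le (s - a) (s - z₀)
    rw [sub_sub_sub_cancel_left] at h4
    linarith
  have e1 := dec_circ hr.le hd c (hh.continuousOn.mono fun s h => hs
    ⟨closedBall_subset_closedBall hrR (sphere_subset_closedBall h), fun h' =>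
      (mem_ball_iff_norm.1 h').ne (mem_sphere_iff_norm.1 h)⟩)
    (fun s h => far s (sphere_subset_closedBall h)) b1
  have e2 := dec_circ (hr.le.trans hrR) hD c' (hh.continuousOn.mono fun s h => hs
    ⟨sphere_subset_closedBall h, fun h' =>
      ((mem_ball_iff_norm.1 h').trans_le hrR).ne (mem_sphere_iff_norm.1 h)⟩)
    (fun s h => by
      have h3 := mem_sphere_iff_norm.1 h
      have h4 := norm_add_le (s - z₀) (z₀ - a)
      rw [sub_add_sub_cancel] at h4
      linarith) b2
  have hne : ∀ s ∈ closedBall a r, s - z₀ ≠ 0 := fun s h => norm_pos_iff.1 (hd.trans_le (far s h))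
  rw [Complex.circleIntegral_eq_zero_of_differentiable_on_off_countable (f := fun s => (s - z₀)⁻¹)
    hr.le countable_empty ((continuousOn_id.sub continuousOn_const).inv₀ hne) fun z hz =>
      (differentiableAt_id.sub_const z₀).inv (hne z (ball_subset_closedBall hz.1)),
    zero_smul, add_zero, ← e] at e1
  rw [circleIntegral.integral_sub_inv_of_mem_ball (mem_ball_iff_norm.2 (by linarith))] at e2
  have e3 := (norm_sub_le _ _).trans (add_le_add e2 e1)
  rw [add_sub_cancel_left, norm_smul] at e3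
  have e4 : ‖(2 * π * I : ℂ)‖ = 2 * π := by simp [abs_of_pos pi_pos]
  rw [e4] at e3
  have := pi_pos
  nlinarith

end Pool.Agent.Lib.MP_1c0d65_gt.A
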