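import Pool.Agent.Lib.MP_1c0d65_gt.A.Fr

/-! Hoelder estimates for the first derivative of a holomorphic curve. -/

open MeasureTheory Set Metric Real Filter Topology
open Complex (I)
open scoped ContDiff

namespace Pool.Agent.Lib.MP_1c0d65_gt.A

variable {E F : Type*} [NormedAddCommGroup E] [NormedSpace ℝ E] [NormedAddCommGroup F]
  [NormedSpace ℂ F] [CompleteSpace F]

theorem est_sqrt {c x y : ℂ} {r : ℝ} (hx : x ∈ ball c r) (hy : y ∈ ball c r) :
    ‖x - y‖ ≤ 2 * √r * √‖x - y‖ := by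
  have h1 : ‖x - y‖ ≤ 4 * r := by
    have := dist_triangle_right x y c
    rw [dist_eq_norm] at this
    linarith [mem_ball.1 hx, mem_ball.1 hy, pos_of_mem_ball hx]
  have h2 := Real.sqrt_le_sqrt h1
  rw [Real.sqrt_mul (by norm_num), show √4 = 2 by
    rw [show (4 : ℝ) = 2 ^ 2 by norm_num, Real.sqrt_sq (by norm_num)]] at h2
  calc _ = √‖x - y‖ * √‖x - y‖ := (Real.mul_self_sqrt (norm_nonneg _)).symm
    _ ≤ _ := mul_le_mul_of_nonneg_right h2 (Real.sqrt_nonneg _)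

theorem hol_of_db {V : ℂ → F} {c : ℂ} {r M N : ℝ} (hr : 0 < r)
    (hV : ∀ z ∈ ball c (2 * r), ContDiffAt ℝ 1 V z) (hM : ∀ z ∈ ball c (2 * r), ‖V z‖ ≤ M)
    (hN : ∀ z ∈ ball c (2 * r), ‖db (fderiv ℝ V z)‖ ≤ N) :
    ∀ x ∈ ball c r, ∀ y ∈ ball c r, ‖V x - V y‖ ≤ 100 * (M / √r + N * √r) * √‖x - y‖ := by
  intro x hx y hy
  have r2 : 0 < 2 * r := by linarith
  have N0 : 0 ≤ N := (norm_nonneg _).trans (hN c (mem_ball_self r2))
  have M0 : 0 ≤ M := (norm_nonneg _).trans (hM c (mem_ball_self r2))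
  set g := (ball c (2 * r)).indicator fun z => db (fderiv ℝ V z)
  have hg : BS N c (2 * r) g := ⟨(aestronglyMeasurable_indicator_iff measurableSet_ball).2
    (ContinuousOn.aestronglyMeasurable (fun z hz => (continuous_db.continuousAt.comp
      ((hV z hz).continuousAt_fderiv one_ne_zero)).continuousWithinAt) measurableSet_ball),
    fun s => by
      by_cases hs : s ∈ ball c (2 * r)
      · exact (congrArg norm (indicator_of_mem hs _)).trans_le (hN s hs)
      · exact (congrArg norm (indicator_of_notMem hs _)).trans_le (norm_zero.trans_le N0),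
    fun s hs => indicator_of_notMem hs _⟩
  have hf := loc_holo isOpen_ball hV (fun z hz => indicator_of_mem hz _) hg.integrable
    fun z _ => hg.T_int z
  have hs : ∀ z ∈ ball c r, closedBall z r ⊆ ball c (2 * r) := fun z hz =>
    closedBall_subset_ball' (by linarith [mem_ball.1 hz])
  have h1 := (convex_ball c r).norm_image_sub_le_of_norm_deriv_le (C := (M + 3 * (2 * r) * N) / r)
    (fun z hz => hf.differentiableAt (isOpen_ball.mem_nhds (hs z hz (mem_closedBall_self hr.le))))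
    (fun z hz => Complex.norm_deriv_le_of_forall_mem_sphere_norm_le hr
      (hf.diffContOnCl_ball (hs z hz)) fun w hw => (norm_sub_le _ _).trans
        (add_le_add (hM w (hs z hz (sphere_subset_closedBall hw))) (hg.T_le r2 w))) hy hx
  have h2 := hg.T_hol r2 x y
  have h3 : √(2 * r) ≤ 2 * √r := by
    rw [Real.sqrt_le_left (by positivity), mul_pow, Real.sq_sqrt hr.le]
    linarith
  have h4 := est_sqrt hx hy
  have h5 := Real.sqrt_pos.2 hr
  have h6 := Real.mul_self_sqrt hr.le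
  generalize √r = s at h3 h4 h5 h6
  subst h6
  calc ‖V x - V y‖ = ‖(V x - T g x - (V y - T g y)) + (T g x - T g y)‖ := by congr 1; abel
    _ ≤ (M + 3 * (2 * (s * s)) * N) / (s * s) * (2 * s * √‖x - y‖) + 20 * (2 * s) * N * √‖x - y‖ :=
      (norm_add_le _ _).trans (add_le_add (h1.trans (by gcongr)) (h2.trans (by gcongr)))
    _ = (2 * (M / s) + 52 * (N * s)) * √‖x - y‖ := by field_simp; ring
    _ ≤ _ := by
      have : 0 ≤ M / s := by positivity
      have : 0 ≤ N * s := by positivity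
      gcongr
      linarith

/-- one frame, only `C^1` and Lipschitz -/
theorem est1 {Ψ : E → E →L[ℝ] F} {U : Set E} {u : ℂ → E} {c : ℂ} {r C B : ℝ} (hr : 0 < r)
    (hC : 0 ≤ C) (hU : IsOpen U) (hΨ : ContDiffOn ℝ 1 Ψ U) (le : ∀ e ∈ U, ‖Ψ e‖ ≤ C)
    (ge : ∀ e ∈ U, ∀ v, ‖v‖ ≤ C * ‖Ψ e v‖) (lip : ∀ e ∈ U, ∀ e' ∈ U, ‖Ψ e - Ψ e'‖ ≤ C * ‖e - e'‖)
    (hu : ∀ z ∈ ball c (3 * r), ContDiffAt ℝ 1 u z ∧ u z ∈ U ∧ HolAt Ψ u z ∧ ‖fderiv ℝ u z‖ ≤ B) :
    ∀ x ∈ ball c r, ∀ y ∈ ball c r,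
      ‖fderiv ℝ u x - fderiv ℝ u y‖ ≤ 1000 * C ^ 2 * (B / √r + B ^ 2 * √r) * √‖x - y‖ := by
  intro x hx y hy
  have B0 : 0 ≤ B := (norm_nonneg _).trans (hu c (mem_ball_self (by linarith))).2.2.2
  have s1 : ball c r ⊆ ball c (3 * r) := ball_subset_ball (by linarith)
  have s2 : ball c (2 * r) ⊆ ball c (3 * r) := ball_subset_ball (by linarith)
  have hd : ∀ z ∈ ball c (3 * r), HasFDerivAt u (fderiv ℝ u z) z := fun z hz =>
    ((hu z hz).1.differentiableAt one_ne_zero).hasFDerivAt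
  have hL : ∀ z ∈ ball c (3 * r), ∀ z' ∈ ball c (3 * r), ‖u z - u z'‖ ≤ B * ‖z - z'‖ :=
    fun z hz z' hz' => (convex_ball c (3 * r)).norm_image_sub_le_of_norm_fderiv_le
      (fun w hw => (hd w hw).differentiableAt) (fun w hw => (hu w hw).2.2.2) hz' hz
  have hP : ∀ z ∈ ball c (3 * r), ∀ z' ∈ ball c (3 * r), ‖Ψ (u z) - Ψ (u z')‖ ≤ C * B * ‖z - z'‖ :=
    fun z hz z' hz' => (lip _ (hu z hz).2.1 _ (hu z' hz').2.1).trans (by
      rw [mul_assoc]; exact mul_le_mul_of_nonneg_left (hL z hz z' hz') hC)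
  have key : ∀ η ∈ ball (0 : ℂ) r, ‖Ψ (u x) (u (x + η) - u x) - Ψ (u y) (u (y + η) - u y)‖ ≤
      100 * (C * B / √r + 2 * C * B ^ 2 * √r) * √‖x - y‖ * ‖η‖ := fun η hη => by
    have s3 : ∀ z ∈ ball c (2 * r), z + η ∈ ball c (3 * r) := fun z hz => by
      have := dist_triangle (z + η) z c
      rw [dist_self_add_left] at this
      exact mem_ball.2 (by linarith [mem_ball.1 hz, mem_ball_zero_iff.1 hη])
    have c1 : ∀ z ∈ ball c (2 * r), ContDiffAt ℝ 1 (fun z => Ψ (u z)) z := fun z hz =>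
      (hΨ.contDiffAt (hU.mem_nhds (hu z (s2 hz)).2.1)).comp z (hu z (s2 hz)).1
    have c2 : ∀ z ∈ ball c (2 * r), ‖u (z + η) - u z‖ ≤ B * ‖η‖ := fun z hz => by
      simpa using hL _ (s3 z hz) _ (s2 hz)
    refine (hol_of_db (V := fun z => Ψ (u z) (u (z + η) - u z)) (M := C * (B * ‖η‖))
      (N := 2 * C * B ^ 2 * ‖η‖) hr (fun z hz => (c1 z hz).clm_apply (((hu _ (s3 z hz)).1.comp z
        (contDiffAt_id.add contDiffAt_const)).sub (hu z (s2 hz)).1))
      (fun z hz => ((Ψ (u z)).le_opNorm _).trans (mul_le_mul (le _ (hu z (s2 hz)).2.1) (c2 z hz)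
        (norm_nonneg _) hC)) (fun z hz => ?_) x hx y hy).trans (le_of_eq (by ring))
    have d1 := ((c1 z hz).differentiableAt one_ne_zero).hasFDerivAt
    have d2 := d1.le_of_lip' (C := C * B) (by positivity) (by
      filter_upwards [isOpen_ball.mem_nhds (s2 hz)] with w hw using hP w hw z (s2 hz))
    have d3 : HasFDerivAt (fun z => u (z + η) - u z) (fderiv ℝ u (z + η) - fderiv ℝ u z) z :=
      ((hasFDerivAt_comp_add_right η).2 (hd _ (s3 z hz))).sub (hd z (s2 hz))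
    have d4 : (Ψ (u z)).comp (fderiv ℝ u (z + η) - fderiv ℝ u z) = (Ψ (u z) - Ψ (u (z + η))).comp
        (fderiv ℝ u (z + η)) + (Ψ (u (z + η))).comp (fderiv ℝ u (z + η)) -
        (Ψ (u z)).comp (fderiv ℝ u z) := by ext v; simp
    rw [(d1.clm_apply d3).fderiv, db_add, d4, db_sub, db_add, holAt_iff.1 (hu z (s2 hz)).2.2.1,
      holAt_iff.1 (hu _ (s3 z hz)).2.2.1, add_zero, sub_zero]
    have d5 := hP z (s2 hz) _ (s3 z hz)
    rw [sub_add_cancel_left, norm_neg] at d5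
    calc _ ≤ C * B * ‖η‖ * B + C * B * (B * ‖η‖) := (norm_add_le _ _).trans (add_le_add
          ((norm_db_le _).trans ((ContinuousLinearMap.opNorm_comp_le _ _).trans
            (mul_le_mul d5 (hu _ (s3 z hz)).2.2.2 (norm_nonneg _) (by positivity))))
          ((norm_db_le _).trans ((ContinuousLinearMap.le_opNorm _ _).trans (mul_le_mul
            ((ContinuousLinearMap.opNorm_flip _).trans_le d2) (c2 z hz) (norm_nonneg _)
            (by positivity)))))
      _ = _ := by ring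
  have d : ∀ z ∈ ball c r, HasFDerivAt (fun η => Ψ (u z) (u (z + η) - u z))
      ((Ψ (u z)).comp (fderiv ℝ u z)) 0 := fun z hz =>
    (Ψ (u z)).hasFDerivAt.comp 0 (((hasFDerivAt_comp_add_left z).2
      (by rw [add_zero]; exact hd z (s1 hz))).sub_const _)
  have k1 := ((d x hx).sub (d y hy)).le_of_lip'
    (C := 100 * (C * B / √r + 2 * C * B ^ 2 * √r) * √‖x - y‖) (by positivity) (by
    filter_upwards [ball_mem_nhds 0 hr] with η hη
    simpa using key η hη)
  have k2 := (hP y (s1 hy) x (s1 hx)).trans (mul_le_mul_of_nonneg_left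
    ((norm_sub_rev _ _).trans_le (est_sqrt hx hy)) (by positivity))
  refine ContinuousLinearMap.opNorm_le_bound _ (by positivity) fun v => ?_
  have k3 : Ψ (u x) ((fderiv ℝ u x - fderiv ℝ u y) v) = ((Ψ (u x)).comp (fderiv ℝ u x) -
      (Ψ (u y)).comp (fderiv ℝ u y)) v + (Ψ (u y) - Ψ (u x)) (fderiv ℝ u y v) := by simp
  have k4 := (fderiv ℝ u y).le_of_opNorm_le (hu y (s1 hy)).2.2.2 v
  calc _ ≤ C * (100 * (C * B / √r + 2 * C * B ^ 2 * √r) * √‖x - y‖ * ‖v‖ +
        C * B * (2 * √r * √‖x - y‖) * (B * ‖v‖)) := (ge _ (hu x (s1 hx)).2.1 _).trans (by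
          rw [k3]
          exact mul_le_mul_of_nonneg_left ((norm_add_le _ _).trans (add_le_add
            (ContinuousLinearMap.le_of_opNorm_le _ k1 v) ((ContinuousLinearMap.le_opNorm _ _).trans
              (mul_le_mul k2 k4 (norm_nonneg _) (by positivity))))) hC)
    _ = C ^ 2 * (100 * (B / √r) + 202 * (B ^ 2 * √r)) * √‖x - y‖ * ‖v‖ := by ring
    _ ≤ C ^ 2 * (1000 * (B / √r) + 1000 * (B ^ 2 * √r)) * √‖x - y‖ * ‖v‖ := by
      gcongr <;> norm_num
    _ = _ := by ring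

variable (E F) in
theorem est (C B : ℝ) {δ : ℝ} (hδ : 0 < δ) : ∃ C' : ℝ, 0 ≤ C' ∧ ∀ (O : Set ℂ) (u : ℂ → E) (x : ℂ) (r : ℝ),
    0 < r → LocHol F C δ O u → ball x r ⊆ O → (∀ y ∈ ball x r, ‖fderiv ℝ u y‖ ≤ B / r) →
    ∀ y ∈ ball x (r / 2), ∀ y' ∈ ball x (r / 2),
      ‖fderiv ℝ u y - fderiv ℝ u y'‖ ≤ C' / r * √(‖y - y'‖ / r) := by
  obtain ⟨θ, θ0, θ1, θ2⟩ : ∃ θ : ℝ, 0 < θ ∧ θ ≤ 1 / 6 ∧ 3 * θ * |B| < δ := by
    refine ⟨min (1 / 6) (δ / (3 * (|B| + 1))), by positivity, min_le_left _ _, ?_⟩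
    have := (le_div_iff₀ (by positivity)).1 (min_le_right (1 / 6) (δ / (3 * (|B| + 1))))
    have : 0 < min (1 / 6) (δ / (3 * (|B| + 1))) := by positivity
    nlinarith
  refine ⟨1000 * C ^ 2 * (|B| / √θ + B ^ 2 * √θ) + 2 * |B| / √θ, by positivity,
    fun O u x r hr h hO hB y hy y' hy' => ?_⟩
  have B0 : 0 ≤ B := by
    have := (norm_nonneg _).trans (hB x (mem_ball_self hr))
    rwa [le_div_iff₀ hr, zero_mul] at this
  rw [abs_of_nonneg B0] at θ2 ⊢
  have s0 : ball x (r / 2) ⊆ ball x r := ball_subset_ball (by linarith)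
  have t0 := Real.sqrt_pos.2 θ0
  have r0 := Real.sqrt_pos.2 hr
  rw [add_div, add_mul]
  rcases lt_or_ge ‖y' - y‖ (θ * r) with h1 | h1
  · refine le_add_of_le_of_nonneg ?_ (by positivity)
    have s1 : ball y (3 * (θ * r)) ⊆ ball x r :=
      ball_subset_ball' (by nlinarith [mem_ball.1 hy])
    obtain ⟨Ψ, f, hh⟩ := h.fr y (hO (s0 hy))
    have hm : ∀ z ∈ ball y (3 * (θ * r)), u z ∈ ball (u y) δ := fun z hz => by
      have := (convex_ball x r).norm_image_sub_le_of_norm_fderiv_le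
        (fun w hw => (h.diff w (hO hw)).differentiableAt one_ne_zero) hB (s0 hy) (s1 hz)
      refine mem_ball_iff_norm.2 (this.trans_lt (lt_of_le_of_lt ?_ θ2))
      exact (mul_le_mul_of_nonneg_left (mem_ball_iff_norm.1 hz).le (by positivity)).trans
        (le_of_eq (by field_simp))
    refine (est1 (B := B / r) (by positivity) ((norm_nonneg _).trans (f.le _ (mem_ball_self hδ)))
      isOpen_ball (f.smooth.of_le (by simp)) f.le f.ge f.lip (fun z hz => ⟨h.diff z (hO (s1 hz)),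
        hm z hz, hh z (hO (s1 hz)) (hm z hz), hB z (s1 hz)⟩) y (mem_ball_self (by positivity)) y'
      (mem_ball_iff_norm.2 h1)).trans (le_of_eq ?_)
    rw [Real.sqrt_mul θ0.le, Real.sqrt_div (norm_nonneg _)]
    have h6 := Real.mul_self_sqrt hr.le
    generalize √r = s at r0 h6
    subst h6
    field_simp
  · refine le_add_of_nonneg_of_le (by positivity) ?_
    have h2 : √θ ≤ √(‖y - y'‖ / r) :=
      Real.sqrt_le_sqrt ((le_div_iff₀ hr).2 (norm_sub_rev y y' ▸ h1))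
    calc _ ≤ B / r + B / r := (norm_sub_le _ _).trans (add_le_add (hB y (s0 hy)) (hB y' (s0 hy')))
      _ = 2 * B / √θ / r * √θ := by field_simp; ring
      _ ≤ _ := by gcongr

end Pool.Agent.Lib.MP_1c0d65_gt.A
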