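import Pool.Agent.Lib.MP_1c0d65_gt.A.Sim

/-! Frames and curves that are holomorphic for a frame; the Beurling transform. -/

open MeasureTheory Set Metric Real Filter Topology
open Complex (I)
open scoped ContDiff

namespace Pool.Agent.Lib.MP_1c0d65_gt.A

section
variable {E : Type*} [NormedAddCommGroup E] [NormedSpace ℂ E]

/-- The real linear map `ξ ↦ ξ • a + conj ξ • b`. -/
noncomputable def lin (a b : E) : ℂ →L[ℝ] E :=
  (ContinuousLinearMap.id ℝ ℂ).smulRight a + (Complex.conjCLE : ℂ →L[ℝ] ℂ).smulRight b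

theorem lin_app (a b : E) (ξ : ℂ) : lin a b ξ = ξ • a + (starRingEnd ℂ ξ) • b := by
  simp [lin]

@[simp] theorem dz_lin (a b : E) : dz (lin a b) = a := by
  simp only [dz, lin_app, map_one, Complex.conj_I]
  match_scalars
  · linear_combination (-1 / 2 : ℂ) * Complex.I_mul_I
  · linear_combination (1 / 2 : ℂ) * Complex.I_mul_I

@[simp] theorem db_lin (a b : E) : db (lin a b) = b := by
  simp only [db, lin_app, map_one, Complex.conj_I]
  match_scalars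
  · linear_combination (1 / 2 : ℂ) * Complex.I_mul_I
  · linear_combination (-1 / 2 : ℂ) * Complex.I_mul_I

theorem lin_dz_db (L : ℂ →L[ℝ] E) : lin (dz L) (db L) = L := by
  ext ξ; rw [lin_app, ← lin_eq]

theorem lin_sub (a b a' b' : E) : lin a b - lin a' b' = lin (a - a') (b - b') := by
  ext ξ; simp only [sub_apply, lin_app]; module

theorem norm_lin_le (a b : E) : ‖lin a b‖ ≤ ‖a‖ + ‖b‖ := by
  simpa using norm_le_dz_db (lin a b)

/-- The Beurling transform, in symmetrised form. -/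
noncomputable def S (f : ℂ → E) (z : ℂ) : E :=
  (-(2 * π : ℂ)⁻¹) • ∫ t, (t ^ 2)⁻¹ • (f (z + t) - f (z + I * t))

end

variable {E F : Type*} [NormedAddCommGroup E] [NormedSpace ℝ E] [NormedAddCommGroup F]
  [NormedSpace ℂ F]

/-- `u` is holomorphic at `z` for the frame `Ψ`. -/
def HolAt (Ψ : E → E →L[ℝ] F) (u : ℂ → E) (z : ℂ) : Prop :=
  Ψ (u z) (fderiv ℝ u z I) = I • Ψ (u z) (fderiv ℝ u z 1)

/-- A smooth injective frame on `U` with bounds `C`. -/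
structure Fr (C : ℝ) (U : Set E) (Ψ : E → E →L[ℝ] F) : Prop where
  smooth : ContDiffOn ℝ ∞ Ψ U
  le : ∀ e ∈ U, ‖Ψ e‖ ≤ C
  ge : ∀ e ∈ U, ∀ v, ‖v‖ ≤ C * ‖Ψ e v‖
  lip : ∀ e ∈ U, ∀ e' ∈ U, ‖Ψ e - Ψ e'‖ ≤ C * ‖e - e'‖

variable (F) in
/-- `u` is of class `C^1` on `O` and holomorphic for frames with bound `C` on balls of radius `δ`
around its values. -/
structure LocHol (C δ : ℝ) (O : Set ℂ) (u : ℂ → E) : Prop where
  diff : ∀ z ∈ O, ContDiffAt ℝ 1 u z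
  fr : ∀ z₀ ∈ O, ∃ Ψ : E → E →L[ℝ] F, Fr C (ball (u z₀) δ) Ψ ∧
    ∀ z ∈ O, u z ∈ ball (u z₀) δ → HolAt Ψ u z

theorem holAt_iff {Ψ : E → E →L[ℝ] F} {u : ℂ → E} {z : ℂ} :
    HolAt Ψ u z ↔ db ((Ψ (u z)).comp (fderiv ℝ u z)) = 0 := by
  refine ⟨fun h => ?_, fun h => cr_of_db h⟩
  have := norm_db ((Ψ (u z)).comp (fderiv ℝ u z))
  rw [ContinuousLinearMap.comp_apply, ContinuousLinearMap.comp_apply, h, sub_self, norm_zero] at this
  exact norm_eq_zero.1 (by linarith)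

theorem Fr.mono {C : ℝ} {U V : Set E} {Ψ : E → E →L[ℝ] F} (h : Fr C U Ψ) (hV : V ⊆ U) :
    Fr C V Ψ :=
  ⟨h.smooth.mono hV, fun e he => h.le e (hV he), fun e he => h.ge e (hV he),
    fun e he e' he' => h.lip e (hV he) e' (hV he')⟩

theorem LocHol.mono {C δ : ℝ} {O O' : Set ℂ} {u : ℂ → E} (h : LocHol F C δ O u) (hO : O' ⊆ O) :
    LocHol F C δ O' u :=
  ⟨fun z hz => h.diff z (hO hz), fun z hz =>
    let ⟨Ψ, h1, h2⟩ := h.fr z (hO hz); ⟨Ψ, h1, fun y hy => h2 y (hO hy)⟩⟩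

/-- Composition with a holomorphic map of the domain. -/
theorem HolAt.comp {Ψ : E → E →L[ℝ] F} {u : ℂ → E} {φ : ℂ → ℂ} {z : ℂ} (h : HolAt Ψ u (φ z))
    (hu : DifferentiableAt ℝ u (φ z)) (hφ : DifferentiableAt ℂ φ z) : HolAt Ψ (u ∘ φ) z := by
  have h1 := hu.hasFDerivAt.comp z (hφ.hasDerivAt.hasFDerivAt.restrictScalars ℝ)
  have h2 := holAt_iff.1 h
  have h3 := lin_eq ((Ψ (u (φ z))).comp (fderiv ℝ u (φ z)))
  simp only [h2, smul_zero, add_zero, ContinuousLinearMap.comp_apply] at h3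
  simp only [HolAt, h1.fderiv, Function.comp_apply, ContinuousLinearMap.comp_apply, h3, smul_smul]
  simp

theorem LocHol.comp {C δ : ℝ} {O O' : Set ℂ} {u : ℂ → E} {φ : ℂ → ℂ} (h : LocHol F C δ O u)
    (hO : MapsTo φ O' O) (hφ : ∀ z ∈ O', ContDiffAt ℂ 1 φ z) : LocHol F C δ O' (u ∘ φ) :=
  ⟨fun z hz => (h.diff _ (hO hz)).comp z ((hφ z hz).restrict_scalars ℝ), fun z hz =>
    let ⟨Ψ, h1, h2⟩ := h.fr _ (hO hz)
    ⟨Ψ, h1, fun y hy hb => (h2 _ (hO hy) hb).comp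
      ((h.diff _ (hO hy)).differentiableAt one_ne_zero) ((hφ y hy).differentiableAt one_ne_zero)⟩⟩

/-- The equation passes to limits. -/
theorem HolAt.of_tendsto {ι : Type*} {l : Filter ι} [l.NeBot] {Ψ : ι → E → E →L[ℝ] F}
    {u : ι → ℂ → E} {z : ι → ℂ} {Ψ₀ : E → E →L[ℝ] F} {v : ℂ → E} {w : ℂ}
    (h : ∀ᶠ i in l, HolAt (Ψ i) (u i) (z i))
    (h1 : Tendsto (fun i => Ψ i (u i (z i))) l (𝓝 (Ψ₀ (v w))))
    (h2 : Tendsto (fun i => fderiv ℝ (u i) (z i)) l (𝓝 (fderiv ℝ v w))) : HolAt Ψ₀ v w := by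
  have hc : Continuous fun p : (E →L[ℝ] F) × (ℂ →L[ℝ] E) => db (p.1.comp p.2) :=
    continuous_db.comp (by fun_prop)
  have h3 := (hc.tendsto _).comp (h1.prodMk_nhds h2)
  rw [holAt_iff]
  refine tendsto_nhds_unique h3 (tendsto_const_nhds.congr' ?_)
  filter_upwards [h] with i hi
  exact (holAt_iff.1 hi).symm

end Pool.Agent.Lib.MP_1c0d65_gt.A
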