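import Mathlib

/-! Radial integrals on the complex plane. -/

open MeasureTheory Set Metric Real

namespace Pool.Agent.Lib.MP_1c0d65_gt.A

theorem meas_rpow (γ : ℝ) (z : ℂ) : Measurable (fun s : ℂ => ‖z - s‖ ^ (-γ)) := by
  fun_prop

theorem intOn_ball {γ : ℝ} (hγ : γ < 2) (R : ℝ) :
    IntegrableOn (fun t : ℂ => ‖t‖ ^ (-γ)) (ball 0 R) := by
  refine integrableOn_ball_of_norm_le_rpow (C := 1) (α := γ) (by simp) (by simpa using hγ) ?_ ?_
  · refine ae_of_all _ fun x => ?_
    rw [one_mul, Real.norm_of_nonneg (by positivity)]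
  · exact (by fun_prop : Measurable (fun t : ℂ => ‖t‖ ^ (-γ))).aestronglyMeasurable

theorem vol_one : (volume : Measure ℂ).real (ball 0 1) = π := by
  simp [Measure.real, Complex.volume_ball]

theorem vol_ball (c : ℂ) {R : ℝ} (hR : 0 ≤ R) : (volume : Measure ℂ).real (ball c R) = π * R ^ 2 := by
  simp [Measure.real, Complex.volume_ball, ENNReal.toReal_ofReal hR, mul_comm]

theorem int_ball {γ R : ℝ} (hγ : γ < 2) (hR : 0 < R) :
    ∫ t in ball (0 : ℂ) R, ‖t‖ ^ (-γ) = 2 * π * R ^ (2 - γ) / (2 - γ) := by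
  have h1 : ∫ t in ball (0 : ℂ) R, ‖t‖ ^ (-γ)
      = ∫ t : ℂ, (Iio R).indicator (fun y : ℝ => y ^ (-γ)) ‖t‖ := by
    rw [← integral_indicator measurableSet_ball]
    congr 1; ext t
    simp [indicator]
  rw [h1, integral_fun_norm_addHaar volume ((Iio R).indicator fun y : ℝ => y ^ (-γ)), vol_one]
  have h2 : ∫ y in Ioi (0 : ℝ), y ^ (Module.finrank ℝ ℂ - 1) • (Iio R).indicator (fun y : ℝ => y ^ (-γ)) y
      = ∫ y in (0 : ℝ)..R, y ^ (1 - γ) := by
    rw [intervalIntegral.integral_of_le hR.le, integral_Ioc_eq_integral_Ioo, ← Ioi_inter_Iio,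
      ← setIntegral_indicator measurableSet_Iio]
    refine setIntegral_congr_fun measurableSet_Ioi fun y hy => ?_
    have hy' : (0 : ℝ) < y := hy
    by_cases h : y < R
    · simp only [Complex.finrank_real_complex, indicator, mem_Iio, h, if_true, smul_eq_mul]
      rw [sub_eq_add_neg (1 : ℝ), Real.rpow_add hy']; simp
    · simp [indicator, h]
  rw [h2, integral_rpow (Or.inl (by linarith)), Real.zero_rpow (by linarith)]
  have : (1 : ℝ) - γ + 1 = 2 - γ := by ring
  rw [this]
  simp only [Complex.finrank_real_complex, nsmul_eq_mul, smul_eq_mul]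
  push_cast
  ring

theorem far_aux {γ r : ℝ} (hr : 0 < r) :
    EqOn (fun y : ℝ => y ^ (Module.finrank ℝ ℂ - 1) • (Ici r).indicator (fun y : ℝ => y ^ (-γ)) y)
      ((Ici r).indicator fun y : ℝ => y ^ (1 - γ)) (Ioi 0) := by
  intro y hy
  have hy' : (0 : ℝ) < y := hy
  by_cases h : r ≤ y
  · simp only [Complex.finrank_real_complex, indicator, mem_Ici, h, if_true, smul_eq_mul]
    rw [sub_eq_add_neg (1 : ℝ), Real.rpow_add hy']; simp
  · simp [indicator, h]

theorem far_ind (γ r : ℝ) : (ball (0 : ℂ) r)ᶜ.indicator (fun t : ℂ => ‖t‖ ^ (-γ))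
    = fun t : ℂ => (Ici r).indicator (fun y : ℝ => y ^ (-γ)) ‖t‖ := by
  ext t
  simp [indicator]

theorem intOn_far {γ r : ℝ} (hγ : 2 < γ) (hr : 0 < r) :
    IntegrableOn (fun t : ℂ => ‖t‖ ^ (-γ)) (ball 0 r)ᶜ := by
  rw [← integrable_indicator_iff measurableSet_ball.compl, far_ind,
    integrable_fun_norm_addHaar volume (f := (Ici r).indicator fun y : ℝ => y ^ (-γ)),
    integrableOn_congr_fun (far_aux hr) measurableSet_Ioi]
  refine Integrable.integrableOn ?_
  rw [integrable_indicator_iff measurableSet_Ici, integrableOn_Ici_iff_integrableOn_Ioi]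
  exact integrableOn_Ioi_rpow_of_lt (by linarith) hr

theorem int_far {γ r : ℝ} (hγ : 2 < γ) (hr : 0 < r) :
    ∫ t in (ball (0 : ℂ) r)ᶜ, ‖t‖ ^ (-γ) = 2 * π * r ^ (2 - γ) / (γ - 2) := by
  rw [← integral_indicator measurableSet_ball.compl, far_ind,
    integral_fun_norm_addHaar volume ((Ici r).indicator fun y : ℝ => y ^ (-γ)), vol_one,
    setIntegral_congr_fun measurableSet_Ioi (far_aux hr), setIntegral_indicator measurableSet_Ici,
    inter_eq_right.2 (Ici_subset_Ioi.2 hr), integral_Ici_eq_integral_Ioi,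
    integral_Ioi_rpow_of_lt (by linarith) hr]
  have : (1 : ℝ) - γ + 1 = 2 - γ := by ring
  rw [this]
  have h2 : γ - 2 ≠ 0 := by linarith
  have h3 : 2 - γ ≠ 0 := by linarith
  simp only [Complex.finrank_real_complex, nsmul_eq_mul, smul_eq_mul]
  push_cast
  field_simp
  ring

theorem intOn_shift0 {γ : ℝ} (hγ : γ < 2) (z : ℂ) (R : ℝ) :
    IntegrableOn (fun s : ℂ => ‖z - s‖ ^ (-γ)) (ball z R) := by
  have h := (intOn_ball hγ R)
  rw [← integrable_indicator_iff measurableSet_ball] at h ⊢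
  have := h.comp_sub_left z
  refine this.congr (ae_of_all _ fun s => ?_)
  simp [indicator, dist_eq_norm, norm_sub_rev]

theorem int_shift0 {γ R : ℝ} (hγ : γ < 2) (hR : 0 < R) (z : ℂ) :
    ∫ s in ball z R, ‖z - s‖ ^ (-γ) = 2 * π * R ^ (2 - γ) / (2 - γ) := by
  rw [← int_ball hγ hR, ← integral_indicator measurableSet_ball,
    ← integral_indicator measurableSet_ball,
    ← integral_sub_left_eq_self ((ball (0 : ℂ) R).indicator fun t : ℂ => ‖t‖ ^ (-γ)) volume z]
  congr 1; ext s
  simp [indicator, dist_eq_norm, norm_sub_rev]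

theorem intOn_shift {γ : ℝ} (hγ : γ < 2) (z c : ℂ) (R : ℝ) :
    IntegrableOn (fun s : ℂ => ‖z - s‖ ^ (-γ)) (ball c R) := by
  refine (intOn_shift0 hγ z (R + ‖c - z‖)).mono_set fun s hs => ?_
  rw [mem_ball, dist_eq_norm] at hs ⊢
  have := norm_add_le (s - c) (c - z)
  rw [sub_add_sub_cancel] at this
  linarith

/-- The singular integral over any disc of radius `R`. -/
theorem int_shift {γ R : ℝ} (h0 : 0 ≤ γ) (hγ : γ < 2) (hR : 0 < R) (z c : ℂ) :
    ∫ s in ball c R, ‖z - s‖ ^ (-γ) ≤ (2 / (2 - γ) + 1) * π * R ^ (2 - γ) := by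
  have hb : (volume : Measure ℂ) (ball c R) ≠ ⊤ := measure_ball_lt_top.ne
  have h1 : IntegrableOn ((ball z R).indicator fun s : ℂ => ‖z - s‖ ^ (-γ)) (ball c R) :=
    ((integrable_indicator_iff measurableSet_ball).2 (intOn_shift0 hγ z R)).integrableOn
  have h2 : IntegrableOn (fun _ : ℂ => R ^ (-γ)) (ball c R) := integrableOn_const hb
  calc ∫ s in ball c R, ‖z - s‖ ^ (-γ)
      ≤ ∫ s in ball c R, ((ball z R).indicator (fun s : ℂ => ‖z - s‖ ^ (-γ)) s + R ^ (-γ)) := by
        refine integral_mono (intOn_shift hγ z c R) (h1.add h2) fun s => ?_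
        by_cases h : s ∈ ball z R
        · simp only [indicator_of_mem h, le_add_iff_nonneg_right]; positivity
        · simp only [indicator_of_notMem h, zero_add]
          rw [mem_ball, dist_eq_norm, norm_sub_rev, not_lt] at h
          exact Real.rpow_le_rpow_of_nonpos hR h (by linarith)
    _ ≤ (∫ s in ball z R, ‖z - s‖ ^ (-γ)) + π * R ^ 2 * R ^ (-γ) := by
        rw [integral_add h1 h2, setIntegral_const, vol_ball c hR.le, smul_eq_mul]
        gcongr
        rw [← integral_indicator measurableSet_ball (s := ball z R)]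
        refine setIntegral_le_integral
          ((integrable_indicator_iff measurableSet_ball).2 (intOn_shift0 hγ z R)) ?_
        exact ae_of_all _ fun s => indicator_nonneg (fun s _ => by positivity) s
    _ = _ := by
        rw [int_shift0 hγ hR, mul_assoc π, ← Real.rpow_natCast R 2, ← Real.rpow_add hR]
        have : ((2 : ℕ) : ℝ) + -γ = 2 - γ := by push_cast; ring
        rw [this]; ring

/-- Rotation and scaling of the variable. -/
theorem int_mul {E : Type*} [NormedAddCommGroup E] [NormedSpace ℝ E] (F : ℂ → E) :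
    ∫ t : ℂ, F (Complex.I * t) = ∫ t, F t := by
  have h := (rotation (⟨Complex.I, by simp [Submonoid.unitSphere]⟩ : Circle)).measurePreserving
  exact h.integral_comp (rotation _).toHomeomorph.measurableEmbedding F

theorem intg_mul {E : Type*} [NormedAddCommGroup E] {F : ℂ → E} (hF : Integrable F) :
    Integrable fun t : ℂ => F (Complex.I * t) := by
  have h := (rotation (⟨Complex.I, by simp [Submonoid.unitSphere]⟩ : Circle)).measurePreserving
  exact (h.integrable_comp_emb (rotation _).toHomeomorph.measurableEmbedding).2 hF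

end Pool.Agent.Lib.MP_1c0d65_gt.A
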