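import Pool.Agent.Lib.MP_1c0d65_gt.A.Reg2

/-! Curves that are holomorphic for a smooth frame are smooth. -/

open MeasureTheory Set Metric Real Filter Topology
open Complex (I)
open scoped ContDiff

namespace Pool.Agent.Lib.MP_1c0d65_gt.A

universe u v

variable {E F : Type*} [NormedAddCommGroup E] [NormedSpace ℝ E] [NormedAddCommGroup F]
  [NormedSpace ℂ F] [CompleteSpace F]

/-- the frame of the first prolongation -/
noncomputable def regFr (Ψ : E → E →L[ℝ] F) (p : E × E) : E × E →L[ℝ] F × F :=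
  (ContinuousLinearMap.inl ℝ F F).comp ((Ψ p.1).comp (ContinuousLinearMap.fst ℝ E E)) +
    (ContinuousLinearMap.inr ℝ F F).comp ((Ψ p.1).comp (ContinuousLinearMap.snd ℝ E E) +
      (fderiv ℝ Ψ p.1 p.2).comp (ContinuousLinearMap.fst ℝ E E))

omit [CompleteSpace F] in
theorem regFr_apply (Ψ : E → E →L[ℝ] F) (p q : E × E) :
    regFr Ψ p q = (Ψ p.1 q.1, Ψ p.1 q.2 + fderiv ℝ Ψ p.1 p.2 q.1) := by
  simp [regFr]

omit [CompleteSpace F] in
theorem regFr_smooth {Ψ : E → E →L[ℝ] F} {p : E × E} (h : ContDiffAt ℝ ∞ Ψ p.1) :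
    ContDiffAt ℝ ∞ (regFr Ψ) p := by
  have h1 : ContDiffAt ℝ ∞ (fun q : E × E => Ψ q.1) p := h.comp p contDiffAt_fst
  have h2 : ContDiffAt ℝ ∞ (fun q : E × E => fderiv ℝ Ψ q.1 q.2) p :=
    ((h.fderiv_right (m := ∞) (by exact_mod_cast le_top)).comp p contDiffAt_fst).clm_apply
      contDiffAt_snd
  exact (contDiffAt_const.clm_comp (h1.clm_comp contDiffAt_const)).add
    (contDiffAt_const.clm_comp ((h1.clm_comp contDiffAt_const).add (h2.clm_comp contDiffAt_const)))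

omit [CompleteSpace F] in
theorem regFr_inj {Ψ : E → E →L[ℝ] F} {p : E × E} (h : Function.Injective (Ψ p.1)) :
    Function.Injective (regFr Ψ p) := fun a b e => by
  rw [regFr_apply, regFr_apply, Prod.mk.injEq] at e
  have h1 := h e.1
  rw [h1] at e
  exact Prod.ext h1 (h (add_right_cancel e.2))

omit [CompleteSpace F] in
theorem regFr_hol {Ψ : E → E →L[ℝ] F} {u : ℂ → E} {y : ℂ} (ξ : ℂ)
    (hΨ : DifferentiableAt ℝ Ψ (u y)) (hu : ContDiffAt ℝ 2 u y) (hh : ∀ᶠ x in 𝓝 y, HolAt Ψ u x) :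
    HolAt (regFr Ψ) (fun x => (u x, fderiv ℝ u x ξ)) y := by
  have d1 : HasFDerivAt u (fderiv ℝ u y) y := (hu.differentiableAt two_ne_zero).hasFDerivAt
  have d2 : HasFDerivAt (fderiv ℝ u) (fderiv ℝ (fderiv ℝ u) y) y :=
    ((hu.fderiv_right (m := 1) le_rfl).differentiableAt one_ne_zero).hasFDerivAt
  have sy := hu.isSymmSndFDerivAt (by simp)
  have d3 := fun η : ℂ => d2.clm_apply (hasFDerivAt_const η y)
  have d4 := fun η : ℂ => (hΨ.hasFDerivAt.comp y d1).clm_apply (d3 η)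
  have e := ((d4 I).congr_of_eventuallyEq (f₁ := fun x => I • Ψ (u x) (fderiv ℝ u x 1))
    (hh.mono fun x hx => Eq.symm hx)).unique ((d4 1).const_smul I)
  have e1 := congrArg (fun L : ℂ →L[ℝ] F => L ξ) e
  unfold HolAt
  rw [(d1.prodMk (d3 ξ)).fderiv, regFr_apply, regFr_apply]
  refine Prod.ext hh.self_of_nhds ?_
  simp only [add_apply, ContinuousLinearMap.comp_apply,
    ContinuousLinearMap.flip_apply, zero_apply, map_zero, zero_add,
    Function.comp_apply, smul_apply, ContinuousLinearMap.prod_apply,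
    Prod.smul_snd] at e1 ⊢
  rw [sy.eq I ξ, sy.eq 1 ξ]
  exact e1

theorem reg_nat (n : ℕ) : ∀ {E : Type u} {F : Type v} [NormedAddCommGroup E] [NormedSpace ℝ E]
    [NormedAddCommGroup F] [NormedSpace ℂ F] [CompleteSpace F] [FiniteDimensional ℝ E]
    [FiniteDimensional ℂ F] {Ψ : E → E →L[ℝ] F} {u : ℂ → E} {z : ℂ},
    ContDiffAt ℝ ∞ Ψ (u z) → Function.Injective (Ψ (u z)) → ContDiffAt ℝ 1 u z →
    (∀ᶠ y in 𝓝 z, HolAt Ψ u y) → ContDiffAt ℝ (n + 1 : ℕ) u z := by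
  induction n with
  | zero => intro E F _ _ _ _ _ _ _ Ψ u z _ _ hu _; simpa using hu
  | succ n ih =>
    intro E F _ _ _ _ _ _ _ Ψ u z hΨ hi hu hh
    have h2 : ContDiffAt ℝ 2 u z := reg2 (contDiffAt_infty.1 hΨ 2) hi hu hh
    have hd : ∀ᶠ y in 𝓝 z, DifferentiableAt ℝ Ψ (u y) :=
      hu.continuousAt.eventually (((hΨ.of_le (m := 1) (by exact_mod_cast le_top)).eventually
        (by simp)).mono fun e he => he.differentiableAt one_ne_zero)
    have k : ∀ ξ : ℂ, ContDiffAt ℝ (n + 1 : ℕ) (fun x => fderiv ℝ u x ξ) z := fun ξ => by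
      refine (ih (Ψ := regFr Ψ) (u := fun x => (u x, fderiv ℝ u x ξ)) (regFr_smooth hΨ)
        (regFr_inj hi) (hu.prodMk ((h2.fderiv_right (m := 1) le_rfl).clm_apply contDiffAt_const))
        ?_).snd
      filter_upwards [hd, h2.eventually (by simp), hh.eventually_nhds] with y h3 h4 h5
      exact regFr_hol ξ h3 h4 h5
    have e : fderiv ℝ u = fun x => Complex.reCLM.smulRight (fderiv ℝ u x 1) +
        Complex.imCLM.smulRight (fderiv ℝ u x I) := by
      ext x ξ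
      have : ξ = ξ.re • (1 : ℂ) + ξ.im • I := by simp
      conv_lhs => rw [this, map_add, map_smul, map_smul]
      simp
    rw [Nat.cast_succ, contDiffAt_succ_iff_hasFDerivAt]
    refine ⟨fderiv ℝ u, ⟨_, hu.eventually (by simp), fun y hy =>
      ((show ContDiffAt ℝ 1 u y from hy).differentiableAt one_ne_zero).hasFDerivAt⟩, ?_⟩
    rw [e]
    exact (contDiffAt_const.smulRight (k 1)).add (contDiffAt_const.smulRight (k I))

theorem reg [FiniteDimensional ℝ E] [FiniteDimensional ℂ F] {Ψ : E → E →L[ℝ] F} {u : ℂ → E} {z : ℂ}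
    (hΨ : ContDiffAt ℝ ∞ Ψ (u z)) (hi : Function.Injective (Ψ (u z))) (hu : ContDiffAt ℝ 1 u z)
    (hh : ∀ᶠ y in 𝓝 z, HolAt Ψ u y) : ContDiffAt ℝ ∞ u z :=
  contDiffAt_infty.2 fun n =>
    (reg_nat n hΨ hi hu hh).of_le (by exact_mod_cast Nat.le_succ n)

theorem LocHol.smooth [FiniteDimensional ℝ E] [FiniteDimensional ℂ F] {C δ : ℝ} {O : Set ℂ}
    {u : ℂ → E} (h : LocHol F C δ O u) (hδ : 0 < δ) {z : ℂ} (hz : O ∈ 𝓝 z) :
    ContDiffAt ℝ ∞ u z := by
  have hz' := mem_of_mem_nhds hz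
  obtain ⟨Ψ, h1, h2⟩ := h.fr z hz'
  refine reg (h1.smooth.contDiffAt (ball_mem_nhds _ hδ))
    ((injective_iff_map_eq_zero _).2 fun v hv => ?_) (h.diff z hz') ?_
  · have := h1.ge _ (mem_ball_self hδ) v
    rwa [hv, norm_zero, mul_zero, norm_le_zero_iff] at this
  · filter_upwards [hz, (h.diff z hz').continuousAt.eventually (ball_mem_nhds _ hδ)] with y h3 h4
    exact h2 y h3 h4

end Pool.Agent.Lib.MP_1c0d65_gt.A
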