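import Pool.Agent.Lib.MP_1c0d65_gt.A.SchB
import Pool.Agent.Lib.MP_1c0d65_gt.A.Est

/-! Curves of class `C^1` that are holomorphic for a frame of class `C^2` are of class `C^2`. -/

open MeasureTheory Set Metric Real Filter Topology
open Complex (I)
open scoped ContDiff

namespace Pool.Agent.Lib.MP_1c0d65_gt.A

section
variable {F : Type*} [NormedAddCommGroup F] [NormedSpace ℂ F] [CompleteSpace F]

omit [NormedSpace ℂ F] [CompleteSpace F] in
theorem r2_bs {g : ℂ → F} {z : ℂ} {r M : ℝ} (hM : 0 ≤ M) (hg : ContinuousOn g (ball z r))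
    (hb : ∀ s ∈ ball z r, ‖g s‖ ≤ M) : BS M z r ((ball z r).indicator g) := by
  refine ⟨(aestronglyMeasurable_indicator_iff measurableSet_ball).2
    (hg.aestronglyMeasurable measurableSet_ball), fun s => ?_, fun s hs => indicator_of_notMem hs _⟩
  by_cases hs : s ∈ ball z r
  · rw [indicator_of_mem hs]; exact hb s hs
  · rw [indicator_of_notMem hs, norm_zero]; exact hM

/-- A uniform limit of `C^1` maps whose antilinear derivatives converge uniformly to a Hoelder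
function is of class `C^1`. -/
theorem r2_closure {ι : Type*} {l : Filter ι} [l.NeBot] {w : ι → ℂ → F} {w₀ g : ℂ → F} {z : ℂ}
    {r H : ℝ} (hr : 0 < r) (hw : ∀ᶠ i in l, ∀ s ∈ ball z r, ContDiffAt ℝ 1 (w i) s)
    (h1 : ∀ ε > 0, ∀ᶠ i in l, ∀ s ∈ ball z r, ‖w i s - w₀ s‖ ≤ ε)
    (h2 : ∀ ε > 0, ∀ᶠ i in l, ∀ s ∈ ball z r, ‖db (fderiv ℝ (w i) s) - g s‖ ≤ ε)
    (hH : ∀ s ∈ ball z r, ∀ s' ∈ ball z r, ‖g s - g s'‖ ≤ H * √‖s - s'‖) :
    ContDiffAt ℝ 1 w₀ z ∧ db (fderiv ℝ w₀ z) = g z := by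
  have hgc : ContinuousOn g (ball z r) := fun y hy => by
    rw [ContinuousWithinAt, tendsto_iff_norm_sub_tendsto_zero]
    refine squeeze_zero' (Eventually.of_forall fun _ => norm_nonneg _)
      (eventually_nhdsWithin_of_forall fun x hx => hH x hx y hy) ?_
    have : Continuous fun x : ℂ => H * √‖x - y‖ := by fun_prop
    simpa using (this.tendsto y).mono_left nhdsWithin_le_nhds
  set M := ‖g z‖ + |H| * √r with hM
  have hM0 : 0 ≤ M := by positivity
  have hgb : ∀ s ∈ ball z r, ‖g s‖ ≤ M := fun s hs => by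
    have e1 := hH s hs z (mem_ball_self hr)
    have e2 : √‖s - z‖ ≤ √r := Real.sqrt_le_sqrt (by rw [← dist_eq_norm]; exact le_of_lt hs)
    have e3 : H * √‖s - z‖ ≤ |H| * √r :=
      mul_le_mul (le_abs_self _) e2 (Real.sqrt_nonneg _) (abs_nonneg _)
    have e4 := norm_sub_norm_le (g s) (g z)
    linarith
  have hG := r2_bs hM0 hgc hgb
  set G := (ball z r).indicator g with hGd
  set Gi : ι → ℂ → F := fun i => (ball z r).indicator fun s => db (fderiv ℝ (w i) s) with hGi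
  have hc : ∀ i, (∀ s ∈ ball z r, ContDiffAt ℝ 1 (w i) s) →
      ContinuousOn (fun s => db (fderiv ℝ (w i) s)) (ball z r) := fun i hi s hs =>
    (continuous_db.continuousAt.comp
      ((hi s hs).continuousAt_fderiv one_ne_zero)).continuousWithinAt
  have hB : ∀ᶠ i in l, BS (M + 1) z r (Gi i) := by
    filter_upwards [hw, h2 1 one_pos] with i hi hi2
    refine r2_bs (by linarith) (hc i hi) fun s hs => ?_
    have := norm_sub_norm_le (db (fderiv ℝ (w i) s)) (g s)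
    linarith [hi2 s hs, hgb s hs]
  have hhol : ∀ᶠ i in l, DifferentiableOn ℂ (fun s => w i s - T (Gi i) s) (ball z r) := by
    filter_upwards [hw, hB] with i hi hb
    exact loc_holo isOpen_ball hi (fun s hs => indicator_of_mem hs _) hb.integrable
      fun s _ => hb.T_int s
  have hun : TendstoUniformlyOn (fun i s => w i s - T (Gi i) s) (fun s => w₀ s - T G s) l
      (ball z r) := by
    refine Metric.tendstoUniformlyOn_iff.2 fun ε hε => ?_
    have hε' : 0 < ε / (9 * r) := by positivity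
    filter_upwards [hw, hB, h1 (ε / 3) (by positivity), h2 _ hε'] with i hi hb e1 e2 s hs
    have hD : BS (ε / (9 * r)) z r
        ((ball z r).indicator fun s => db (fderiv ℝ (w i) s) - g s) :=
      r2_bs hε'.le ((hc i hi).sub hgc) e2
    have e3 := hD.T_le hr s
    have e4 : ((ball z r).indicator fun s => db (fderiv ℝ (w i) s) - g s) =
        fun s => Gi i s - G s := by
      ext y; by_cases hy : y ∈ ball z r <;> simp [hGi, hGd, hy]
    rw [e4, T_sub (hb.T_int s) (hG.T_int s)] at e3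
    have e5 : 3 * r * (ε / (9 * r)) = ε / 3 := by field_simp; ring
    have e6 : w₀ s - T G s - (w i s - T (Gi i) s) = (T (Gi i) s - T G s) - (w i s - w₀ s) := by abel
    rw [dist_eq_norm, e6]
    have := norm_sub_le (T (Gi i) s - T G s) (w i s - w₀ s)
    linarith [e1 s hs]
  have hlim := hun.tendstoLocallyUniformlyOn.differentiableOn hhol isOpen_ball
  have hT := hG.T_contDiffAt (z := z) (H := H) hr fun s hs s' hs' => by
    rw [hGd, indicator_of_mem hs, indicator_of_mem hs']; exact hH s hs s' hs'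
  have ha : ContDiffAt ℂ 1 (fun s => w₀ s - T G s) z :=
    (hlim.contDiffOn isOpen_ball).contDiffAt (ball_mem_nhds z hr)
  have he : w₀ = fun s => (w₀ s - T G s) + T G s := by ext s; abel
  have hd := (ha.differentiableAt one_ne_zero).hasFDerivAt.restrictScalars ℝ
  refine ⟨he ▸ (ha.restrict_scalars ℝ).add hT.1, ?_⟩
  have hs := (hd.add (hT.1.differentiableAt one_ne_zero).hasFDerivAt).fderiv
  have he' : ((fun s => w₀ s - T G s) + T G) = w₀ := by ext s; simp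
  rw [he'] at hs
  rw [hs, db_add, db_restrict, zero_add, hT.2, hGd, indicator_of_mem (mem_ball_self hr)]

end

section
variable {V : Type*} [NormedAddCommGroup V]

theorem r2_shift {φ : ℂ → V} {z : ℂ} {r : ℝ} (hr : 0 < r)
    (hφ : ∀ s ∈ ball z (3 * r), ContinuousAt φ s) {ε : ℝ} (hε : 0 < ε) :
    ∃ δ > 0, δ ≤ r ∧ ∀ s ∈ ball z r, ∀ y ∈ ball s δ, ‖φ y - φ s‖ ≤ ε := by
  have hc : ContinuousOn φ (closedBall z (2 * r)) := fun s hs =>
    (hφ s (closedBall_subset_ball (by linarith) hs)).continuousWithinAt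
  obtain ⟨δ, hδ, h⟩ := Metric.uniformContinuousOn_iff.1
    ((isCompact_closedBall z (2 * r)).uniformContinuousOn_of_continuous hc) ε hε
  refine ⟨min δ r, lt_min hδ hr, min_le_right _ _, fun s hs y hy => ?_⟩
  rw [mem_ball] at hs hy
  rw [← dist_eq_norm]
  refine (h y ?_ s ?_ (hy.trans_le (min_le_left _ _))).le
  · have := dist_triangle y s z
    have := min_le_right δ r
    rw [mem_closedBall]; linarith
  · rw [mem_closedBall]; linarith

theorem r2_small (ξ : ℂ) {δ : ℝ} (hδ : 0 < δ) :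
    ∀ᶠ h : ℝ in 𝓝[≠] 0, h ≠ 0 ∧ ∀ s : ℂ, s + h • ξ ∈ ball s δ := by
  have h1 : Tendsto (fun h : ℝ => ‖h • ξ‖) (𝓝 0) (𝓝 0) := by
    have : Continuous fun h : ℝ => ‖h • ξ‖ := by fun_prop
    simpa using this.tendsto 0
  filter_upwards [self_mem_nhdsWithin, nhdsWithin_le_nhds (h1.eventually (gt_mem_nhds hδ))]
    with h h0 hh
  exact ⟨h0, fun s => by rw [mem_ball, dist_eq_norm, add_sub_cancel_left]; exact hh⟩

variable [NormedSpace ℝ V]

/-- Uniform convergence of difference quotients. -/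
theorem r2_quot {f : ℂ → V} {z : ℂ} {r : ℝ} (hr : 0 < r)
    (hf : ∀ s ∈ ball z (3 * r), ContDiffAt ℝ 1 f s) (ξ : ℂ) {ε : ℝ} (hε : 0 < ε) :
    ∀ᶠ h : ℝ in 𝓝[≠] 0, ∀ s ∈ ball z r,
      ‖h⁻¹ • (f (s + h • ξ) - f s) - fderiv ℝ f s ξ‖ ≤ ε := by
  have hx : 0 < ‖ξ‖ + 1 := by positivity
  obtain ⟨δ, hδ, hδr, H⟩ := r2_shift hr
    (fun s hs => (hf s hs).continuousAt_fderiv one_ne_zero) (div_pos hε hx)
  filter_upwards [r2_small ξ hδ] with h ⟨h0, hh⟩ s hs
  have hsub : ball s δ ⊆ ball z (3 * r) := fun y hy => by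
    have := dist_triangle y s z
    rw [mem_ball] at *; linarith
  have h1 := (convex_ball s δ).norm_image_sub_le_of_norm_fderiv_le' (𝕜 := ℝ) (f := f)
    (φ := fderiv ℝ f s) (fun y hy => (hf y (hsub hy)).differentiableAt one_ne_zero)
    (fun y hy => H s hs y hy) (mem_ball_self hδ) (hh s)
  rw [add_sub_cancel_left, map_smul, norm_smul] at h1
  have h2 : h⁻¹ • (f (s + h • ξ) - f s) - fderiv ℝ f s ξ =
      h⁻¹ • (f (s + h • ξ) - f s - h • fderiv ℝ f s ξ) := by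
    rw [smul_sub h⁻¹ (_ - _), inv_smul_smul₀ h0]
  have h3 : 0 < ‖h‖ := norm_pos_iff.2 h0
  rw [h2, norm_smul, norm_inv, inv_mul_le_iff₀ h3]
  refine h1.trans ?_
  have h4 : ε / (‖ξ‖ + 1) * ‖ξ‖ ≤ ε := by
    rw [div_mul_eq_mul_div, div_le_iff₀ hx]; nlinarith
  calc _ = ‖h‖ * (ε / (‖ξ‖ + 1) * ‖ξ‖) := by ring
    _ ≤ _ := by gcongr

end

variable {E F : Type*} [NormedAddCommGroup E] [NormedSpace ℝ E] [NormedAddCommGroup F]
  [NormedSpace ℂ F] [CompleteSpace F]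

/-- The antilinear derivative of the difference quotients, as a function of five arguments. -/
noncomputable def r2G
    (p : (E →L[ℝ] E →L[ℝ] F) × (ℂ →L[ℝ] E) × E × (E →L[ℝ] F) × (ℂ →L[ℝ] E)) : F :=
  (2 : ℂ)⁻¹ • ((p.1 (p.2.1 1) p.2.2.1 + I • p.1 (p.2.1 I) p.2.2.1)
    - (p.2.2.2.1 (p.2.2.2.2 1) + I • p.2.2.2.1 (p.2.2.2.2 I)))

omit [CompleteSpace F] in
theorem r2G_contDiff : ContDiff ℝ 1 (r2G : _ → F) (E := _ × (ℂ →L[ℝ] E) × _) := by
  unfold r2G; fun_prop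

omit [CompleteSpace F] in
theorem r2_db {Ψ : E → E →L[ℝ] F} {u : ℂ → E} {s a : ℂ} (c : ℝ)
    (hΨ : DifferentiableAt ℝ Ψ (u s)) (hu : DifferentiableAt ℝ u s)
    (hu' : DifferentiableAt ℝ u (s + a)) (h1 : HolAt Ψ u s) (h2 : HolAt Ψ u (s + a)) :
    db (fderiv ℝ (fun y => Ψ (u y) (c • (u (y + a) - u y))) s) =
      r2G (fderiv ℝ Ψ (u s), fderiv ℝ u s, c • (u (s + a) - u s),
        c • (Ψ (u (s + a)) - Ψ (u s)), fderiv ℝ u (s + a)) := by
  have e1 : HasFDerivAt (fun y => u (y + a)) (fderiv ℝ u (s + a)) s :=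
    (hasFDerivAt_comp_add_right a).2 hu'.hasFDerivAt
  have e2 := (hΨ.hasFDerivAt.comp s hu.hasFDerivAt).clm_apply
    ((e1.sub hu.hasFDerivAt).const_smul c)
  have e3 := e2.fderiv
  simp only [Function.comp_def, Pi.smul_apply, Pi.sub_apply] at e3
  rw [e3]
  unfold HolAt at h1 h2
  simp only [db, r2G, add_apply, ContinuousLinearMap.comp_apply, ContinuousLinearMap.flip_apply,
    smul_apply, sub_apply, map_smul, map_sub, h1, h2, ← Complex.coe_smul]
  match_scalars <;> first | ring1 | linear_combination (c / 2 : ℂ) * Complex.I_mul_I | linear_combination (-c / 2 : ℂ) * Complex.I_mul_I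

/-- The framed derivative is of class `C^1`. -/
theorem r2_w {Ψ : E → E →L[ℝ] F} {u : ℂ → E} {z : ℂ} {r H : ℝ} (hr : 0 < r)
    (hΨ : ContDiffAt ℝ 2 Ψ (u z)) (hu : ContDiffAt ℝ 1 u z) (hh : ∀ᶠ y in 𝓝 z, HolAt Ψ u y)
    (hH : ∀ x ∈ ball z r, ∀ y ∈ ball z r, ‖fderiv ℝ u x - fderiv ℝ u y‖ ≤ H * √‖x - y‖) (ξ : ℂ) :
    ContDiffAt ℝ 1 (fun s => Ψ (u s) (fderiv ℝ u s ξ)) z := by
  have hD : ContDiffAt ℝ 1 (fun s => fderiv ℝ Ψ (u s)) z :=
    (hΨ.fderiv_right (m := 1) (by norm_num)).comp z hu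
  have hdu : ContinuousAt (fderiv ℝ u) z := hu.continuousAt_fderiv one_ne_zero
  have hΨ1 : ContDiffAt ℝ 1 Ψ (u z) := hΨ.of_le (by norm_num)
  set θ : (E →L[ℝ] E →L[ℝ] F) × (ℂ →L[ℝ] E) → _ :=
    fun q => (q.1, q.2, q.2 ξ, q.1 (q.2 ξ), q.2) with hθ
  have hθc : ContDiff ℝ 1 θ := by rw [hθ]; fun_prop
  set q : ℂ → (E →L[ℝ] E →L[ℝ] F) × (ℂ →L[ℝ] E) := fun s => (fderiv ℝ Ψ (u s), fderiv ℝ u s)
    with hq
  have hqc : ContinuousAt q z := hD.continuousAt.prodMk hdu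
  obtain ⟨K1, t1, ht1, L1⟩ := (r2G_contDiff.contDiffAt (x := θ (q z))).exists_lipschitzOnWith
  obtain ⟨K2, t2, ht2, L2⟩ :=
    ((r2G_contDiff.comp hθc).contDiffAt (x := q z)).exists_lipschitzOnWith
  obtain ⟨K3, t3, ht3, L3⟩ := hD.exists_lipschitzOnWith
  obtain ⟨η, hη, hb⟩ := Metric.mem_nhds_iff.1 ht1
  have hev : ∀ᶠ s in 𝓝 z, (ContDiffAt ℝ 1 u s ∧ ContDiffAt ℝ 1 Ψ (u s) ∧ HolAt Ψ u s) ∧
      s ∈ ball z r ∧ s ∈ ball z (1 / 2) ∧ θ (q s) ∈ ball (θ (q z)) (η / 2) ∧ q s ∈ t2 ∧ s ∈ t3 ∧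
      ‖Ψ (u s)‖ < ‖Ψ (u z)‖ + 1 := by
    refine ((hu.eventually (by simp)).and ((hu.continuousAt.eventually
      (hΨ1.eventually (by simp))).and hh)).and (Eventually.and (ball_mem_nhds z hr)
      (Eventually.and (ball_mem_nhds z (by norm_num)) (Eventually.and ?_ (Eventually.and (hqc ht2)
      (Eventually.and ht3 ?_)))))
    · exact (hθc.continuous.continuousAt.comp hqc) (ball_mem_nhds _ (by positivity))
    · exact (hΨ1.comp z hu).continuousAt.norm.eventually (gt_mem_nhds (lt_add_one _))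
  obtain ⟨ρ3, hρ3, hρb⟩ := Metric.eventually_nhds_iff_ball.1 hev
  obtain ⟨ρ, rfl⟩ : ∃ ρ, ρ3 = 3 * ρ := ⟨ρ3 / 3, by ring⟩
  have hρ : 0 < ρ := by linarith
  have sub : ∀ s ∈ ball z ρ, s ∈ ball z (3 * ρ) := fun s hs => ball_subset_ball (by linarith) hs
  have hsm : ∀ᶠ h : ℝ in 𝓝[≠] 0, ∀ s ∈ ball z ρ, s + h • ξ ∈ ball z (3 * ρ) := by
    filter_upwards [r2_small ξ hρ] with h hh s hs
    have := dist_triangle (s + h • ξ) s z
    have := hh.2 s
    rw [mem_ball] at *; linarith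
  have hc0 : 0 < ‖Ψ (u z)‖ + 1 := by positivity
  refine (r2_closure (l := 𝓝[≠] (0 : ℝ)) (r := ρ) (H := K2 * (K3 + |H|))
    (w := fun h s => Ψ (u s) (h⁻¹ • (u (s + h • ξ) - u s))) (g := fun s => r2G (θ (q s)))
    hρ ?_ ?_ ?_ ?_).1
  · filter_upwards [hsm] with h hh s hs
    have a1 := (hρb s (sub s hs)).1
    have a2 : ContDiffAt ℝ 1 (fun y => u (y + h • ξ)) s :=
      ContDiffAt.comp (g := u) s (hρb _ (hh s hs)).1.1 (by fun_prop)
    exact (a1.2.1.comp s a1.1).clm_apply ((a2.sub a1.1).const_smul _)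
  · intro ε hε
    filter_upwards [r2_quot hρ (fun s hs => (hρb s hs).1.1) ξ (div_pos hε hc0)] with h hh s hs
    rw [← map_sub]
    refine (ContinuousLinearMap.le_opNorm _ _).trans ?_
    have a1 := (hρb s (sub s hs)).2.2.2.2.2.2.le
    calc _ ≤ (‖Ψ (u z)‖ + 1) * (ε / (‖Ψ (u z)‖ + 1)) := by gcongr; exact hh s hs
      _ = ε := by field_simp
  · intro ε hε
    have hk : (0 : ℝ) < K1 + 1 := by positivity
    have he : 0 < min (η / 2) (ε / (K1 + 1)) := lt_min (by positivity) (by positivity)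
    obtain ⟨δ, hδ, -, hs1⟩ := r2_shift hρ
      (fun s hs => (hρb s hs).1.1.continuousAt_fderiv one_ne_zero) he
    filter_upwards [hsm, r2_small ξ hδ, r2_quot hρ (fun s hs => (hρb s hs).1.1) ξ he,
      r2_quot (f := fun s => Ψ (u s)) hρ
        (fun s hs => (hρb s hs).1.2.1.comp s (hρb s hs).1.1) ξ he] with h h1 h2 h3 h4 s hs
    have a1 := hρb s (sub s hs)
    have a2 := hρb _ (h1 s hs)
    have d1 := a1.1.2.1.differentiableAt one_ne_zero
    have d2 := a1.1.1.differentiableAt one_ne_zero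
    rw [r2_db _ d1 d2 (a2.1.1.differentiableAt one_ne_zero) a1.1.2.2 a2.1.2.2]
    have d3 : fderiv ℝ (fun s => Ψ (u s)) s ξ = fderiv ℝ Ψ (u s) (fderiv ℝ u s ξ) := by
      rw [show (fun s => Ψ (u s)) = Ψ ∘ u from rfl, fderiv_comp s d1 d2]; rfl
    have h5 := h4 s hs
    rw [d3] at h5
    set P := (fderiv ℝ Ψ (u s), fderiv ℝ u s, h⁻¹ • (u (s + h • ξ) - u s),
      h⁻¹ • (Ψ (u (s + h • ξ)) - Ψ (u s)), fderiv ℝ u (s + h • ξ)) with hP
    have hd : dist P (θ (q s)) ≤ min (η / 2) (ε / (K1 + 1)) := by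
      simp only [hP, hθ, hq, Prod.dist_eq, dist_self, max_le_iff]
      simp only [dist_eq_norm]
      exact ⟨he.le, he.le, h3 s hs, h5, hs1 s hs _ (h2.2 s)⟩
    have m1 : θ (q s) ∈ ball (θ (q z)) (η / 2) := a1.2.2.2.1
    have m2 : P ∈ t1 := hb (by
      have := dist_triangle P (θ (q s)) (θ (q z))
      have := min_le_left (η / 2) (ε / (K1 + 1))
      rw [mem_ball] at *; linarith)
    have m3 := L1.dist_le_mul P m2 _ (hb (ball_subset_ball (by linarith) m1))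
    rw [dist_eq_norm] at m3
    refine m3.trans ?_
    have := hd.trans (min_le_right _ _)
    calc _ ≤ (K1 + 1) * (ε / (K1 + 1)) := by gcongr; linarith
      _ = ε := by field_simp
  · intro s hs s' hs'
    have a1 := hρb s (sub s hs)
    have a2 := hρb s' (sub s' hs')
    have m1 := L2.dist_le_mul _ a1.2.2.2.2.1 _ a2.2.2.2.2.1
    have m2 := L3.dist_le_mul _ a1.2.2.2.2.2.1 _ a2.2.2.2.2.2.1
    have m3 := hH s a1.2.1 s' a2.2.1
    have m4 : dist s s' ≤ 1 := by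
      have := dist_triangle_right s s' z
      have := mem_ball.1 a1.2.2.1
      have := mem_ball.1 a2.2.2.1
      linarith
    rw [dist_eq_norm s s'] at m2 m4
    have m5 : ‖s - s'‖ ≤ √‖s - s'‖ := by
      refine Real.le_sqrt_of_sq_le ?_
      nlinarith [norm_nonneg (s - s')]
    have m0 := Real.sqrt_nonneg ‖s - s'‖
    have m6 : dist (q s) (q s') ≤ (K3 + |H|) * √‖s - s'‖ := by
      have b1 : 0 ≤ |H| * √‖s - s'‖ := by positivity
      have b2 : (K3 : ℝ) * ‖s - s'‖ ≤ K3 * √‖s - s'‖ := by gcongr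
      have b3 : H * √‖s - s'‖ ≤ |H| * √‖s - s'‖ := by gcongr; exact le_abs_self _
      have b4 : 0 ≤ (K3 : ℝ) * √‖s - s'‖ := by positivity
      rw [Prod.dist_eq, max_le_iff]
      refine ⟨m2.trans (by linarith), ?_⟩
      rw [dist_eq_norm]
      exact m3.trans (by linarith)
    rw [dist_eq_norm] at m1
    refine m1.trans ?_
    rw [mul_assoc]
    gcongr

omit [CompleteSpace F] in
theorem r2_left [FiniteDimensional ℝ E] [FiniteDimensional ℂ F] {A : E →L[ℝ] F}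
    (hi : Function.Injective A) : ∃ P : F →L[ℝ] E, P.comp A = ContinuousLinearMap.id ℝ E := by
  obtain ⟨P, hP⟩ := LinearMap.exists_leftInverse_of_injective (A : E →ₗ[ℝ] F)
    (LinearMap.ker_eq_bot.2 hi)
  exact ⟨LinearMap.toContinuousLinearMap P, ContinuousLinearMap.ext fun v =>
    LinearMap.congr_fun hP v⟩

theorem reg2 [FiniteDimensional ℝ E] [FiniteDimensional ℂ F] {Ψ : E → E →L[ℝ] F} {u : ℂ → E} {z : ℂ}
    (hΨ : ContDiffAt ℝ 2 Ψ (u z)) (hi : Function.Injective (Ψ (u z))) (hu : ContDiffAt ℝ 1 u z)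
    (hh : ∀ᶠ y in 𝓝 z, HolAt Ψ u y) : ContDiffAt ℝ 2 u z := by
  have : CompleteSpace E := FiniteDimensional.complete ℝ E
  obtain ⟨P, hP⟩ := r2_left hi
  have hΨ1 : ContDiffAt ℝ 1 Ψ (u z) := hΨ.of_le (by norm_num)
  obtain ⟨K, t, ht, L⟩ := hΨ1.exists_lipschitzOnWith
  have hp : 0 < 2 * (‖P‖ + 1) := by positivity
  have hev : ∀ᶠ e in 𝓝 (u z), ContDiffAt ℝ 1 Ψ e ∧ e ∈ t ∧ ‖Ψ e‖ < ‖Ψ (u z)‖ + 1 ∧
      Ψ e ∈ ball (Ψ (u z)) (2 * (‖P‖ + 1))⁻¹ :=
    (hΨ1.eventually (by simp)).and (Eventually.and ht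
      ((hΨ1.continuousAt.norm.eventually (gt_mem_nhds (lt_add_one _))).and
      (hΨ1.continuousAt (ball_mem_nhds _ (inv_pos.2 hp)))))
  obtain ⟨δ, hδ, hU⟩ := Metric.eventually_nhds_iff_ball.1 hev
  have hev2 : ∀ᶠ s in 𝓝 z, ContDiffAt ℝ 1 u s ∧ u s ∈ ball (u z) δ ∧ HolAt Ψ u s ∧
      ‖fderiv ℝ u s‖ ≤ ‖fderiv ℝ u z‖ + 1 :=
    (hu.eventually (by simp)).and (Eventually.and (hu.continuousAt (ball_mem_nhds _ hδ)) (hh.and
      (((hu.continuousAt_fderiv one_ne_zero).norm.eventually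
        (gt_mem_nhds (lt_add_one _))).mono fun _ h => h.le)))
  obtain ⟨ρ3, hρ3, hρb⟩ := Metric.eventually_nhds_iff_ball.1 hev2
  obtain ⟨ρ, rfl⟩ : ∃ ρ, ρ3 = 3 * ρ := ⟨ρ3 / 3, by ring⟩
  have hρ : 0 < ρ := by linarith
  have n1 := norm_nonneg (Ψ (u z))
  have n2 := norm_nonneg P
  have n3 : (0 : ℝ) ≤ K := K.2
  have hH := est1 (C := ‖Ψ (u z)‖ + 1 + 2 * ‖P‖ + K) hρ (by positivity) isOpen_ball
    (fun e he => (hU e he).1.contDiffWithinAt) (fun e he => by linarith [(hU e he).2.2.1])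
    (fun e he v => by
      have a1 : v = P (Ψ e v) + P ((Ψ (u z) - Ψ e) v) := by
        rw [← map_add, sub_apply, add_sub_cancel]
        exact (congrArg (· v) hP).symm
      have a2 : ‖Ψ (u z) - Ψ e‖ ≤ (2 * (‖P‖ + 1))⁻¹ := by
        rw [norm_sub_rev, ← dist_eq_norm]; exact le_of_lt (hU e he).2.2.2
      have a3 := P.le_opNorm (Ψ e v)
      have a4 : ‖P ((Ψ (u z) - Ψ e) v)‖ ≤ (‖P‖ + 1) * ((2 * (‖P‖ + 1))⁻¹ * ‖v‖) := by
        refine (P.le_opNorm _).trans ?_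
        gcongr
        · linarith
        · exact (ContinuousLinearMap.le_opNorm _ _).trans (by gcongr)
      have a5 : (‖P‖ + 1) * ((2 * (‖P‖ + 1))⁻¹ * ‖v‖) = ‖v‖ / 2 := by field_simp
      have a6 := norm_add_le (P (Ψ e v)) (P ((Ψ (u z) - Ψ e) v))
      rw [← a1] at a6
      have a7 := norm_nonneg (Ψ e v)
      nlinarith)
    (fun e he e' he' => by
      have a1 := L.dist_le_mul e (hU e he).2.1 e' (hU e' he').2.1
      rw [dist_eq_norm, dist_eq_norm] at a1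
      have := norm_nonneg (e - e')
      nlinarith) hρb
  have hw := r2_w hρ hΨ hu hh hH
  have hA : ContDiffAt ℝ 1 (fun s => P.comp (Ψ (u s))) z :=
    contDiffAt_const.clm_comp (hΨ1.comp z hu)
  have hinv : ContDiffAt ℝ 1 (fun s => (P.comp (Ψ (u s))).inverse) z := by
    refine ContDiffAt.comp (g := ContinuousLinearMap.inverse) z ?_ hA
    rw [hP]
    exact contDiffAt_map_inverse (ContinuousLinearEquiv.refl ℝ E)
  have hI : ∀ᶠ s in 𝓝 z, (P.comp (Ψ (u s))).IsInvertible := by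
    refine hA.continuousAt.eventually (p := ContinuousLinearMap.IsInvertible) ?_
    simp only [hP]
    exact (ContinuousLinearEquiv.refl ℝ E).nhds
  have hd : ∀ ξ, ContDiffAt ℝ 1 (fun s => fderiv ℝ u s ξ) z := fun ξ => by
    refine (hinv.clm_apply (P.contDiff.contDiffAt.comp z (hw ξ))).congr_of_eventuallyEq ?_
    filter_upwards [hI] with s hs
    exact (hs.inverse_apply_eq.2 rfl).symm
  have hf : ContDiffAt ℝ 1 (fderiv ℝ u) z := by
    have e : fderiv ℝ u = fun s => Complex.reCLM.smulRight (fderiv ℝ u s 1) +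
        Complex.imCLM.smulRight (fderiv ℝ u s I) := by
      ext s ξ
      have : ξ = ξ.re • (1 : ℂ) + ξ.im • I := by simp
      conv_lhs => rw [this, map_add, map_smul, map_smul]
      simp
    rw [e]
    exact (contDiffAt_const.smulRight (hd 1)).add (contDiffAt_const.smulRight (hd I))
  refine (contDiffAt_succ_iff_hasFDerivAt (n := 1)).2 ⟨fderiv ℝ u, ⟨_, ball_mem_nhds z hρ3,
    fun s hs => ((hρb s hs).1.differentiableAt one_ne_zero).hasFDerivAt⟩, hf⟩

end Pool.Agent.Lib.MP_1c0d65_gt.A
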