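import Pool.Agent.Lib.MP_1c0d65_gt.A.RemB
import Pool.Agent.Lib.MP_1c0d65_gt.A.Reg

/-! Removal of singularities under a decay bound for the derivative. -/

open MeasureTheory Set Metric Real Filter Topology
open Complex (I)
open scoped ContDiff

namespace Pool.Agent.Lib.MP_1c0d65_gt.A

variable {E F : Type*} [NormedAddCommGroup E] [NormedSpace ℝ E] [NormedAddCommGroup F]
  [NormedSpace ℂ F] [CompleteSpace F]

theorem rem [FiniteDimensional ℝ E] [FiniteDimensional ℂ F] {C δ r M : ℝ} {a : ℂ} {u : ℂ → E}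
    (hδ : 0 < δ) (hr : 0 < r) (h : LocHol F C δ (ball a r \ {a}) u)
    (hm : ∀ z ∈ ball a r \ {a}, ‖z - a‖ * ‖fderiv ℝ u z‖ ≤ M * ‖z - a‖ ^ (3 / 4 : ℝ)) :
    ∃ p : E, ContDiffAt ℝ 1 (Function.update u a p) a :=
  RemA.rem1 hδ hr h (fun _ hz => (h.smooth hδ
    ((isOpen_ball.sdiff isClosed_singleton).mem_nhds hz)).of_le (WithTop.coe_le_coe.2 le_top)) hm

end Pool.Agent.Lib.MP_1c0d65_gt.A
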