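import Pool.Agent.Lib.MP_1c0d65_gt.A.Fr

/-! The equation holds at a removed singularity. -/

open MeasureTheory Set Metric Real Filter Topology
open Complex (I)
open scoped ContDiff

namespace Pool.Agent.Lib.MP_1c0d65_gt.A

variable {E F : Type*} [NormedAddCommGroup E] [NormedSpace ℝ E] [NormedAddCommGroup F]
  [NormedSpace ℂ F] [CompleteSpace F]

omit [CompleteSpace F] in
theorem HolAt.congr {Ψ : E → E →L[ℝ] F} {u v : ℂ → E} {z : ℂ} (h : HolAt Ψ u z)
    (e : v =ᶠ[𝓝 z] u) : HolAt Ψ v z := by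
  rwa [HolAt, e.fderiv_eq, e.eq_of_nhds]

omit [NormedAddCommGroup E] [NormedSpace ℝ E] in
theorem update_ev (u : ℂ → E) {a z : ℂ} (p : E) (h : z ≠ a) : Function.update u a p =ᶠ[𝓝 z] u := by
  filter_upwards [isOpen_ne.mem_nhds h] with y hy
  exact Function.update_of_ne hy _ _

theorem holAt_update {Ψ : E → E →L[ℝ] F} {u : ℂ → E} {a : ℂ} {p : E}
    (hu : ContDiffAt ℝ 1 (Function.update u a p) a) (hΨ : ContinuousAt Ψ p)
    (h : ∀ᶠ z in 𝓝[≠] a, HolAt Ψ u z) : ∀ᶠ z in 𝓝 a, HolAt Ψ (Function.update u a p) z := by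
  have h1 : ∀ᶠ z in 𝓝[≠] a, HolAt Ψ (Function.update u a p) z := by
    filter_upwards [h, self_mem_nhdsWithin] with z hz hne
    exact hz.congr (update_ev u p hne)
  have h2 : HolAt Ψ (Function.update u a p) a := by
    refine HolAt.of_tendsto (Ψ := fun _ => Ψ) (u := fun _ => Function.update u a p) (z := id) h1
      (Tendsto.mono_left ?_ nhdsWithin_le_nhds)
      ((hu.continuousAt_fderiv one_ne_zero).tendsto.mono_left nhdsWithin_le_nhds)
    exact ContinuousAt.comp (f := Function.update u a p) (x := a) (by rwa [Function.update_self])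
      hu.continuousAt
  filter_upwards [eventually_nhdsWithin_iff.1 h1] with z hz
  by_cases e : z = a
  · rwa [e]
  · exact hz e

end Pool.Agent.Lib.MP_1c0d65_gt.A
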