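import Pool.Agent.Lib.MP_1c0d65_gt.A.Dec
import Pool.Agent.Lib.MP_1c0d65_gt.A.Rem
import Pool.Agent.Lib.MP_1c0d65_gt.A.Upd

/-! Removal of singularities for curves with small gradient. -/

open MeasureTheory Set Metric Real Filter Topology
open Complex (I)
open scoped ContDiff

namespace Pool.Agent.Lib.MP_1c0d65_gt.A

variable {E F : Type*} [NormedAddCommGroup E] [NormedSpace ℝ E] [NormedAddCommGroup F]
  [NormedSpace ℂ F] [CompleteSpace F]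

variable (E F) in
/-- dec with inner radius tending to zero, then rem -/
theorem rem' [FiniteDimensional ℝ E] [FiniteDimensional ℂ F] (C : ℝ) {δ : ℝ} (hδ : 0 < δ) :
    ∃ ε₀ : ℝ, 0 < ε₀ ∧ ∀ (u : ℂ → E) (a : ℂ) (r : ℝ), 0 < r → LocHol F C δ (ball a r \ {a}) u →
    (∀ z ∈ ball a r \ {a}, ‖z - a‖ * ‖fderiv ℝ u z‖ ≤ ε₀) →
    ∃ p : E, ContDiffAt ℝ 1 (Function.update u a p) a := by
  obtain ⟨ε₀, C', h0, hC, H⟩ := dec E F C hδ (μ := 3 / 4) (by norm_num) (by norm_num)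
  refine ⟨ε₀, h0, fun u a r hr h hm => ?_⟩
  have h2 : 0 < r / 2 := by positivity
  refine rem hδ h2 (h.mono (Set.sdiff_subset_sdiff_left (ball_subset_ball (by linarith))))
    (M := C' * ε₀ / (r / 2) ^ (3 / 4 : ℝ)) fun z hz => ?_
  have hz0 : 0 < ‖z - a‖ := norm_pos_iff.2 (sub_ne_zero.2 hz.2)
  have hz1 : ‖z - a‖ ≤ r / 2 := (mem_ball_iff_norm.1 hz.1).le
  have ht : Tendsto (fun ρ : ℝ => C' * ε₀ * ((ρ / ‖z - a‖) ^ (3 / 4 : ℝ) +
      (‖z - a‖ / (r / 2)) ^ (3 / 4 : ℝ))) (𝓝[>] 0)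
      (𝓝 (C' * ε₀ * ((0 / ‖z - a‖) ^ (3 / 4 : ℝ) + (‖z - a‖ / (r / 2)) ^ (3 / 4 : ℝ)))) := by
    refine Tendsto.mono_left (Continuous.tendsto ?_ 0) nhdsWithin_le_nhds
    exact continuous_const.mul
      (((continuous_id.div_const _).rpow_const fun _ => Or.inr (by norm_num)).add continuous_const)
  rw [zero_div, Real.zero_rpow (by norm_num), zero_add, Real.div_rpow hz0.le h2.le,
    mul_div_assoc', mul_div_right_comm] at ht
  refine ge_of_tendsto ht ?_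
  filter_upwards [Ioc_mem_nhdsGT hz0] with ρ hρ
  have hs : ∀ y, ρ ≤ ‖y - a‖ → ‖y - a‖ ≤ r / 2 → y ∈ ball a r \ {a} := fun y h3 h4 =>
    ⟨mem_ball_iff_norm.2 (by linarith), sub_ne_zero.1 (norm_pos_iff.1 (hρ.1.trans_le h3))⟩
  have := H _ u a ρ (r / 2) ε₀ hρ.1 le_rfl h (fun y hy => hs y hy.1 hy.2)
    (fun y h3 h4 => hm y (hs y h3 h4)) z hρ.2 hz1
  rwa [Real.div_rpow hz0.le h2.le] at this

end Pool.Agent.Lib.MP_1c0d65_gt.A
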