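import Pool.Agent.Lib.MP_1c0d65_gt.A.Fr

/-! Calculus on a punctured disc, for the removal of singularities. -/

open MeasureTheory Set Metric Real Filter Topology
open Complex (I)
open scoped ContDiff

namespace Pool.Agent.Lib.MP_1c0d65_gt.A.RemA

variable {E F : Type*} [NormedAddCommGroup E] [NormedSpace ℝ E] [NormedAddCommGroup F]
  [NormedSpace ℂ F]

/-- Mean value inequality on a segment that misses the puncture. -/
theorem seg {g : ℂ → E} {ρ K : ℝ}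
    (hd : ∀ z ∈ ball (0 : ℂ) ρ \ {0}, DifferentiableAt ℝ g z ∧ ‖fderiv ℝ g z‖ ≤ K) {x y : ℂ}
    (hx : x ∈ ball (0 : ℂ) ρ \ {0}) (hy : y ∈ ball (0 : ℂ) ρ \ {0})
    (hxy : 0 ≤ x.re * y.re + x.im * y.im) : ‖g y - g x‖ ≤ K * ‖y - x‖ := by
  have hs : segment ℝ x y ⊆ ball (0 : ℂ) ρ \ {0} := by
    intro z hz
    refine ⟨(convex_ball 0 ρ).segment_subset hx.1 hy.1 hz, ?_⟩
    obtain ⟨a, b, ha, hb, hab, rfl⟩ := hz
    intro h0
    have h0' : a • x + b • y = 0 := h0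
    have h1 : a * x.re + b * y.re = 0 := by simpa using congrArg Complex.re h0'
    have h2 : a * x.im + b * y.im = 0 := by simpa using congrArg Complex.im h0'
    have px : 0 < x.re * x.re + x.im * x.im := by
      rw [← Complex.normSq_apply]; exact Complex.normSq_pos.2 hx.2
    have py : 0 < y.re * y.re + y.im * y.im := by
      rw [← Complex.normSq_apply]; exact Complex.normSq_pos.2 hy.2
    have h3 : a * (x.re * x.re + x.im * x.im) + b * (y.re * y.re + y.im * y.im)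
        + (x.re * y.re + x.im * y.im) = 0 := by
      linear_combination (x.re + y.re) * h1 + (x.im + y.im) * h2
        - (x.re * y.re + x.im * y.im) * hab
    have h4 := mul_nonneg ha px.le
    have h5 := mul_nonneg hb py.le
    rcases ha.eq_or_lt with h | h
    · have := mul_pos (show 0 < b by linarith) py
      linarith
    · have := mul_pos h px
      linarith
  exact (convex_segment x y).norm_image_sub_le_of_norm_fderiv_le (fun z hz => (hd z (hs hz)).1)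
    (fun z hz => (hd z (hs hz)).2) (left_mem_segment ℝ x y) (right_mem_segment ℝ x y)

theorem punct_mem {ρ : ℝ} (hρ : 0 < ρ) : ball (0 : ℂ) ρ \ {0} ∈ 𝓝[≠] (0 : ℂ) :=
  sdiff_mem_nhdsWithin_compl (ball_mem_nhds 0 hρ) _

theorem ev_punct {P : ℂ → Prop} (h : ∀ᶠ z in 𝓝[≠] (0 : ℂ), P z) :
    ∃ ρ : ℝ, 0 < ρ ∧ ∀ z ∈ ball (0 : ℂ) ρ \ {0}, P z := by
  obtain ⟨ρ, hρ, h1⟩ := Metric.eventually_nhds_iff_ball.1 (eventually_nhdsWithin_iff.1 h)
  exact ⟨ρ, hρ, fun z hz => h1 z hz.1 hz.2⟩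

theorem ev_of_sq {P : ℂ → Prop} (h : ∀ᶠ ζ in 𝓝[≠] (0 : ℂ), P (ζ ^ 2)) :
    ∀ᶠ z in 𝓝[≠] (0 : ℂ), P z := by
  obtain ⟨ρ, hρ, h1⟩ := ev_punct h
  filter_upwards [punct_mem (pow_pos hρ 2)] with z hz
  obtain ⟨ζ, rfl⟩ := IsAlgClosed.exists_pow_nat_eq z two_pos
  refine h1 ζ ⟨?_, fun h0 => hz.2 ?_⟩
  · have := hz.1
    rw [mem_ball_zero_iff, norm_pow] at this
    exact mem_ball_zero_iff.2 (lt_of_pow_lt_pow_left₀ 2 hρ.le this)
  · have h0' : ζ = 0 := h0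
    simp [h0']

theorem tendsto_sq : Tendsto (fun ζ : ℂ => ζ ^ 2) (𝓝[≠] 0) (𝓝[≠] 0) := by
  refine tendsto_nhdsWithin_iff.2 ⟨?_, ?_⟩
  · have : Continuous fun ζ : ℂ => ζ ^ 2 := by fun_prop
    exact (by simpa using this.tendsto 0 : Tendsto (fun ζ : ℂ => ζ ^ 2) (𝓝 0) (𝓝 0)).mono_left
      nhdsWithin_le_nhds
  · filter_upwards [self_mem_nhdsWithin] with ζ h
    exact pow_ne_zero 2 h

theorem fderiv_sq {V : ℂ → E} {ζ : ℂ} (hV : DifferentiableAt ℝ V (ζ ^ 2)) :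
    DifferentiableAt ℝ (fun x => V (x ^ 2)) ζ ∧
      ∀ ξ, fderiv ℝ (fun x => V (x ^ 2)) ζ ξ = fderiv ℝ V (ζ ^ 2) (ξ * (2 * ζ)) := by
  have hφ : HasDerivAt (fun x : ℂ => x ^ 2) (2 * ζ) ζ := by simpa using hasDerivAt_pow 2 ζ
  have h1 := hV.hasFDerivAt.comp ζ (hφ.hasFDerivAt.restrictScalars ℝ)
  refine ⟨h1.differentiableAt, fun ξ => ?_⟩
  have h2 : fderiv ℝ (fun x => V (x ^ 2)) ζ = _ := h1.fderiv
  rw [h2]
  simp

theorem db_sq {V : ℂ → F} {ζ : ℂ} (hV : DifferentiableAt ℝ V (ζ ^ 2)) :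
    ‖db (fderiv ℝ (fun x => V (x ^ 2)) ζ)‖ = 2 * ‖ζ‖ * ‖db (fderiv ℝ V (ζ ^ 2))‖ := by
  have h1 : fderiv ℝ (fun x => V (x ^ 2)) ζ = lin ((2 * ζ) • dz (fderiv ℝ V (ζ ^ 2)))
      ((starRingEnd ℂ (2 * ζ)) • db (fderiv ℝ V (ζ ^ 2))) := by
    ext ξ
    rw [(fderiv_sq hV).2, lin_eq, lin_app, smul_smul, smul_smul, map_mul]
  rw [h1, db_lin, norm_smul, Complex.norm_conj, norm_mul, Complex.norm_ofNat]

/-- A limit at the puncture. -/
theorem lim_of_sq [CompleteSpace E] {u : ℂ → E} {N : ℝ}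
    (h : ∀ᶠ ζ in 𝓝[≠] (0 : ℂ), DifferentiableAt ℝ u (ζ ^ 2) ∧ ‖ζ‖ * ‖fderiv ℝ u (ζ ^ 2)‖ ≤ N) :
    ∃ p, Tendsto u (𝓝[≠] 0) (𝓝 p) := by
  obtain ⟨ρ, hρ, h⟩ := ev_punct h
  have hd : ∀ ζ ∈ ball (0 : ℂ) ρ \ {0}, DifferentiableAt ℝ (fun x => u (x ^ 2)) ζ ∧
      ‖fderiv ℝ (fun x => u (x ^ 2)) ζ‖ ≤ 2 * |N| := fun ζ hζ => by
    obtain ⟨h1, h2⟩ := fderiv_sq (h ζ hζ).1
    refine ⟨h1, ContinuousLinearMap.opNorm_le_bound _ (by positivity) fun ξ => ?_⟩
    rw [h2]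
    refine (ContinuousLinearMap.le_opNorm _ _).trans ?_
    rw [norm_mul, norm_mul, Complex.norm_ofNat]
    have := mul_le_mul_of_nonneg_right ((h ζ hζ).2.trans (le_abs_self N)) (norm_nonneg ξ)
    linarith
  have key : ∀ x ∈ ball (0 : ℂ) ρ \ {0}, ∀ y ∈ ball (0 : ℂ) ρ \ {0},
      ‖u (y ^ 2) - u (x ^ 2)‖ ≤ 2 * |N| * (‖y‖ + ‖x‖) := fun x hx y hy => by
    rcases le_total 0 (x.re * y.re + x.im * y.im) with h0 | h0
    · exact (seg hd hx hy h0).trans (by gcongr; exact norm_sub_le _ _)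
    · have hy' : -y ∈ ball (0 : ℂ) ρ \ {0} := ⟨by simpa using hy.1, by simpa using hy.2⟩
      have := seg hd hx hy' (by simp only [Complex.neg_re, Complex.neg_im]; linarith)
      simp only [neg_sq] at this
      refine this.trans ?_
      gcongr
      simpa using norm_sub_le (-y) x
  obtain ⟨p, hp⟩ : ∃ p, Tendsto (fun ζ : ℂ => u (ζ ^ 2)) (𝓝[≠] 0) (𝓝 p) := by
    rw [← cauchy_map_iff_exists_tendsto, Metric.cauchy_iff]
    refine ⟨inferInstance, fun ε hε => ?_⟩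
    have hη : 0 < min ρ (ε / (4 * |N| + 1)) := by positivity
    refine ⟨_, image_mem_map (punct_mem hη), ?_⟩
    rintro _ ⟨x, hx, rfl⟩ _ ⟨y, hy, rfl⟩
    have hx1 := mem_ball_zero_iff.1 hx.1
    have hy1 := mem_ball_zero_iff.1 hy.1
    rw [lt_min_iff, lt_div_iff₀ (by positivity)] at hx1 hy1
    have := key y ⟨mem_ball_zero_iff.2 hy1.1, hy.2⟩ x ⟨mem_ball_zero_iff.2 hx1.1, hx.2⟩
    rw [dist_eq_norm]
    nlinarith [norm_nonneg x, norm_nonneg y, hx1.2, hy1.2]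
  exact ⟨p, fun s hs => ev_of_sq (P := fun z => u z ∈ s) (hp hs)⟩

/-- A function whose value and derivative have limits at the puncture extends. -/
theorem ext_one {u : ℂ → E} {p : E} {L : ℂ →L[ℝ] E} (hu : ∀ᶠ z in 𝓝[≠] (0 : ℂ), ContDiffAt ℝ 1 u z)
    (hp : Tendsto u (𝓝[≠] 0) (𝓝 p)) (hL : Tendsto (fderiv ℝ u) (𝓝[≠] 0) (𝓝 L)) :
    ContDiffAt ℝ 1 (Function.update u 0 p) 0 := by
  obtain ⟨r, hr, hu⟩ := ev_punct hu
  have h0 : HasFDerivAt (Function.update u 0 p) L 0 := by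
    rw [hasFDerivAt_iff_isLittleO_nhds_zero, Asymptotics.isLittleO_iff]
    intro ε hε
    have h1 := (tendsto_iff_norm_sub_tendsto_zero.1 hL).eventually_le_const hε
    obtain ⟨ρ, hρ, h2⟩ := ev_punct (h1.and (punct_mem hr))
    have hd : ∀ z ∈ ball (0 : ℂ) ρ \ {0}, DifferentiableAt ℝ (fun x => u x - L x) z ∧
        ‖fderiv ℝ (fun x => u x - L x) z‖ ≤ ε := fun z hz => by
      have h3 := ((hu z (h2 z hz).2).differentiableAt one_ne_zero).hasFDerivAt.sub L.hasFDerivAt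
      have h4 : fderiv ℝ (fun x => u x - L x) z = _ := h3.fderiv
      exact ⟨h3.differentiableAt, h4 ▸ (h2 z hz).1⟩
    filter_upwards [ball_mem_nhds (0 : ℂ) hρ] with z hz
    by_cases hz0 : z = 0
    · simp [hz0]
    rw [zero_add, Function.update_of_ne hz0, Function.update_self]
    have ht : Tendsto (fun t : ℝ => t • z) (𝓝[>] 0) (𝓝[≠] 0) := by
      refine tendsto_nhdsWithin_iff.2 ⟨?_, ?_⟩
      · have : Continuous fun t : ℝ => t • z := by fun_prop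
        exact (by simpa using this.tendsto 0 : Tendsto (fun t : ℝ => t • z) (𝓝 0) (𝓝 0)).mono_left
          nhdsWithin_le_nhds
      · filter_upwards [self_mem_nhdsWithin] with t h
        exact smul_ne_zero (ne_of_gt h) hz0
    have ht0 := ht.mono_right nhdsWithin_le_nhds
    have h5 : Tendsto (fun t : ℝ => ‖u z - L z - (u (t • z) - L (t • z))‖) (𝓝[>] 0)
        (𝓝 ‖u z - L z - (p - L 0)‖) :=
      (((hp.comp ht).sub ((L.continuous.tendsto 0).comp ht0)).const_sub _).norm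
    have h6 : Tendsto (fun t : ℝ => ε * ‖z - t • z‖) (𝓝[>] 0) (𝓝 (ε * ‖z - 0‖)) :=
      (ht0.const_sub _).norm.const_mul _
    have h7 := le_of_tendsto_of_tendsto h5 h6 (by
      filter_upwards [ht (punct_mem hρ), self_mem_nhdsWithin] with t h8 h9
      refine seg hd h8 ⟨hz, hz0⟩ ?_
      have h9' : (0 : ℝ) < t := h9
      simp only [Complex.smul_re, Complex.smul_im, smul_eq_mul]
      nlinarith [mul_self_nonneg z.re, mul_self_nonneg z.im])
    rw [map_zero, sub_zero, sub_zero, sub_right_comm] at h7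
    exact h7
  rw [contDiffAt_one_iff]
  refine ⟨Function.update (fderiv ℝ u) 0 L, ball 0 r, ball_mem_nhds 0 hr, fun z hz => ?_,
    fun z hz => ?_⟩
  · refine ContinuousAt.continuousWithinAt ?_
    by_cases hz0 : z = 0
    · rw [hz0, continuousAt_update_same]; exact hL
    · rw [continuousAt_update_of_ne hz0]
      exact (hu z ⟨hz, hz0⟩).continuousAt_fderiv one_ne_zero
  · by_cases hz0 : z = 0
    · rw [hz0, Function.update_self]; exact h0
    · rw [Function.update_of_ne hz0]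
      refine ((hu z ⟨hz, hz0⟩).differentiableAt one_ne_zero).hasFDerivAt.congr_of_eventuallyEq ?_
      filter_upwards [isOpen_compl_singleton.mem_nhds hz0] with y hy
      exact Function.update_of_ne hy _ _

/-- The derivative read in the frame is complex linear. -/
theorem comp_eq {Ψ : E → E →L[ℝ] F} {u : ℂ → E} {z : ℂ} (h : HolAt Ψ u z) :
    (Ψ (u z)).comp (fderiv ℝ u z) = lin (Ψ (u z) (fderiv ℝ u z 1)) 0 := by
  have h1 := lin_dz_db ((Ψ (u z)).comp (fderiv ℝ u z))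
  rw [holAt_iff.1 h] at h1
  have h2 := congrArg (fun L : ℂ →L[ℝ] F => L 1) h1
  simp only [lin_app, one_smul, smul_zero, add_zero, ContinuousLinearMap.comp_apply] at h2
  rw [← h2, h1]

/-- The equation for the derivative read in the frame. -/
theorem db_w {Ψ : E → E →L[ℝ] F} {u : ℂ → E} {z : ℂ} (hΨ : ContDiffAt ℝ 1 Ψ (u z))
    (hu : ContDiffAt ℝ 2 u z) (hh : ∀ᶠ y in 𝓝 z, HolAt Ψ u y) :
    ContDiffAt ℝ 1 (fun y => Ψ (u y) (fderiv ℝ u y 1)) z ∧
      ‖db (fderiv ℝ (fun y => Ψ (u y) (fderiv ℝ u y 1)) z)‖ ≤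
        ‖fderiv ℝ Ψ (u z)‖ * ‖fderiv ℝ u z‖ * ‖fderiv ℝ u z‖ := by
  have hu1 : ContDiffAt ℝ 1 u z := hu.of_le one_le_two
  have hD : ContDiffAt ℝ 1 (fderiv ℝ u) z := hu.fderiv_right (by norm_num)
  refine ⟨(hΨ.comp z hu1).clm_apply (hD.clm_apply contDiffAt_const), ?_⟩
  have h1 := (hΨ.differentiableAt one_ne_zero).hasFDerivAt.comp z
    (hu1.differentiableAt one_ne_zero).hasFDerivAt
  have h2 := fun ξ : ℂ => h1.clm_apply
    ((hD.differentiableAt one_ne_zero).hasFDerivAt.clm_apply (hasFDerivAt_const ξ z))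
  have h3 := ((h2 1).const_smul I).congr_of_eventuallyEq (f₁ := fun y => Ψ (u y) (fderiv ℝ u y I)) hh
  have h4 := congrArg (fun L : ℂ →L[ℝ] F => L 1) (h3.unique (h2 I))
  have h5 : fderiv ℝ (fun y => Ψ (u y) (fderiv ℝ u y 1)) z = _ := (h2 1).fderiv
  have h6 := hu.isSymmSndFDerivAt (by simp) 1 I
  have h7 := norm_db (fderiv ℝ (fun y => Ψ (u y) (fderiv ℝ u y 1)) z)
  rw [h5] at h7 ⊢
  simp only [smul_apply] at h4
  rw [h4] at h7
  simp only [add_apply, ContinuousLinearMap.comp_apply, ContinuousLinearMap.flip_apply,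
    ContinuousLinearMap.comp_zero, zero_add, Function.comp_apply, h6, add_sub_add_left_eq_sub] at h7
  have h8 : ∀ a b : ℂ, ‖a‖ = 1 → ‖b‖ = 1 →
      ‖fderiv ℝ Ψ (u z) (fderiv ℝ u z a) (fderiv ℝ u z b)‖ ≤
        ‖fderiv ℝ Ψ (u z)‖ * ‖fderiv ℝ u z‖ * ‖fderiv ℝ u z‖ := fun a b ha hb => by
    refine ((fderiv ℝ Ψ (u z)).le_opNorm₂ _ _).trans ?_
    have e1 := (fderiv ℝ u z).le_opNorm a
    have e2 := (fderiv ℝ u z).le_opNorm b
    rw [ha, mul_one] at e1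
    rw [hb, mul_one] at e2
    gcongr
  have h9 := norm_sub_le_of_le (h8 I 1 (by simp) (by simp)) (h8 1 I (by simp) (by simp))
  rw [h7] at h9
  simp only [ContinuousLinearMap.comp_zero, zero_add, Function.comp_apply]
  linarith

end Pool.Agent.Lib.MP_1c0d65_gt.A.RemA
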