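import Pool.Agent.Lib.MP_1c0d65_gt.A.RemA

/-! Removal of singularities for maps of class `C^2` off the puncture. -/

open MeasureTheory Set Metric Real Filter Topology
open Complex (I)
open scoped ContDiff

namespace Pool.Agent.Lib.MP_1c0d65_gt.A.RemA

variable {E F : Type*} [NormedAddCommGroup E] [NormedSpace ℝ E] [NormedAddCommGroup F]
  [NormedSpace ℂ F] [CompleteSpace F]

omit [CompleteSpace F] in
theorem norm_du {C : ℝ} {Ψ : E → E →L[ℝ] F} {u : ℂ → E} {z : ℂ} (hC : 0 ≤ C) (h : HolAt Ψ u z)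
    (ge : ∀ v, ‖v‖ ≤ C * ‖Ψ (u z) v‖) :
    ‖fderiv ℝ u z‖ ≤ C * ‖Ψ (u z) (fderiv ℝ u z 1)‖ := by
  refine ContinuousLinearMap.opNorm_le_bound _ (by positivity) fun ξ => (ge _).trans ?_
  have := congrArg (fun L : ℂ →L[ℝ] F => L ξ) (comp_eq h)
  simp only [lin_app, smul_zero, add_zero, ContinuousLinearMap.comp_apply] at this
  rw [this, norm_smul]
  exact le_of_eq (by ring)

/-- The derivative read in the frame has a limit. -/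
theorem lim_w {C M : ℝ} {U : Set E} {Ψ : E → E →L[ℝ] F} {u : ℂ → E} (hC : 0 ≤ C) (hM : 0 ≤ M)
    (hU : IsOpen U) (hΨ : Fr C U Ψ)
    (hu : ∀ᶠ z in 𝓝[≠] (0 : ℂ), ContDiffAt ℝ 2 u z ∧ u z ∈ U ∧ HolAt Ψ u z)
    (hm : ∀ᶠ ζ in 𝓝[≠] (0 : ℂ), ‖fderiv ℝ u (ζ ^ 2)‖ ≤ M * (√‖ζ‖)⁻¹) :
    ∃ b, Tendsto (fun z => Ψ (u z) (fderiv ℝ u z 1)) (𝓝[≠] 0) (𝓝 b) := by
  have hu' : ∀ᶠ z in 𝓝[≠] (0 : ℂ), ∀ᶠ y in 𝓝 z, HolAt Ψ u y := by
    obtain ⟨ρ, hρ, h1⟩ := ev_punct hu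
    filter_upwards [punct_mem hρ] with z hz
    filter_upwards [(isOpen_punct ρ).mem_nhds hz] with y hy
    exact (h1 y hy).2.2
  obtain ⟨ρ, hρ, h⟩ := ev_punct (((tendsto_sq.eventually (hu.and hu')).and hm).and
    (punct_mem one_pos))
  set w : ℂ → F := fun z => Ψ (u z) (fderiv ℝ u z 1) with hw
  have hd : ∀ ζ ∈ ball (0 : ℂ) ρ \ {0}, ContDiffAt ℝ 1 w (ζ ^ 2) ∧
      ‖db (fderiv ℝ w (ζ ^ 2))‖ ≤
        ‖fderiv ℝ Ψ (u (ζ ^ 2))‖ * ‖fderiv ℝ u (ζ ^ 2)‖ * ‖fderiv ℝ u (ζ ^ 2)‖ := fun ζ hζ =>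
    db_w ((hΨ.smooth.contDiffAt (hU.mem_nhds (h ζ hζ).1.1.1.2.1)).of_le (by simp))
      (h ζ hζ).1.1.1.1 (h ζ hζ).1.1.2
  have hW : HW (2 * C * M * C) ρ fun ζ => w (ζ ^ 2) := by
    refine ⟨fun ζ hζ => (hd ζ hζ).1.comp ζ (f := fun ζ : ℂ => ζ ^ 2) (by fun_prop), fun ζ hζ => ?_⟩
    obtain ⟨⟨⟨⟨-, h1, h2⟩, -⟩, h3⟩, h4⟩ := h ζ hζ
    rw [db_sq ((hd ζ hζ).1.differentiableAt one_ne_zero)]
    have e1 : ‖fderiv ℝ Ψ (u (ζ ^ 2))‖ ≤ C := norm_fderiv_le_of_lip' ℝ hC (by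
      filter_upwards [hU.mem_nhds h1] with e he
      exact hΨ.lip e he _ h1)
    have e2 := norm_du hC h2 (hΨ.ge _ h1)
    have e3 : ‖ζ‖ * (√‖ζ‖)⁻¹ ≤ 1 := by
      have e4 : ‖ζ‖ ≤ 1 := (mem_ball_zero_iff.1 h4.1).le
      rw [← div_eq_mul_inv, Real.div_sqrt]
      exact Real.sqrt_le_one.2 e4
    calc _ ≤ 2 * ‖ζ‖ * (C * (M * (√‖ζ‖)⁻¹) * (C * ‖w (ζ ^ 2)‖)) := by
          gcongr
          exact (hd ζ hζ).2.trans (by gcongr)
      _ = 2 * C * M * C * ‖w (ζ ^ 2)‖ * (‖ζ‖ * (√‖ζ‖)⁻¹) := by ring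
      _ ≤ _ := mul_le_of_le_one_right (by positivity) e3
  obtain ⟨N, hN, hb⟩ := hW.bdd hρ (by positivity) (M := C * M) (by positivity) fun ζ hζ => by
    obtain ⟨⟨⟨⟨-, h1, -⟩, -⟩, h3⟩, -⟩ := h ζ hζ
    have e1 := (fderiv ℝ u (ζ ^ 2)).le_opNorm 1
    rw [norm_one, mul_one] at e1
    refine ((Ψ _).le_opNorm _).trans ?_
    rw [mul_assoc]
    exact mul_le_mul (hΨ.le _ h1) (e1.trans h3) (norm_nonneg _) hC
  obtain ⟨b, D, -, hD⟩ := hW.lim hρ (by positivity) hN hb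
  have ht : Tendsto (fun ζ : ℂ => w (ζ ^ 2)) (𝓝[≠] 0) (𝓝 b) := by
    rw [tendsto_iff_norm_sub_tendsto_zero]
    refine squeeze_zero' (Eventually.of_forall fun _ => norm_nonneg _)
      (mem_of_superset (punct_mem hρ) hD) (Tendsto.mono_left ?_ nhdsWithin_le_nhds)
    have : Continuous fun z : ℂ => D * √‖z‖ := by fun_prop
    simpa using this.tendsto 0
  exact ⟨b, fun s hs => ev_of_sq (P := fun z => w z ∈ s) (ht hs)⟩

theorem rem0 [FiniteDimensional ℝ E] [FiniteDimensional ℂ F] {C δ r M : ℝ} {u : ℂ → E}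
    (hδ : 0 < δ) (hr : 0 < r) (h : LocHol F C δ (ball 0 r \ {0}) u)
    (hs : ∀ z ∈ ball (0 : ℂ) r \ {0}, ContDiffAt ℝ 2 u z)
    (hm : ∀ z ∈ ball (0 : ℂ) r \ {0}, ‖z‖ * ‖fderiv ℝ u z‖ ≤ M * ‖z‖ ^ (3 / 4 : ℝ)) :
    ∃ p : E, ContDiffAt ℝ 1 (Function.update u 0 p) 0 := by
  have : CompleteSpace E := FiniteDimensional.complete ℝ E
  have hm' : ∀ᶠ ζ in 𝓝[≠] (0 : ℂ), ‖fderiv ℝ u (ζ ^ 2)‖ ≤ |M| * (√‖ζ‖)⁻¹ := by
    filter_upwards [tendsto_sq (punct_mem hr), self_mem_nhdsWithin] with ζ h1 h2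
    have h3 := hm _ h1
    have hs0 : 0 < √‖ζ‖ := Real.sqrt_pos.2 (norm_pos_iff.2 h2)
    have h4 : ‖ζ ^ 2‖ = √‖ζ‖ ^ 4 := by
      rw [norm_pow, show 4 = 2 * 2 from rfl, pow_mul, Real.sq_sqrt (norm_nonneg _)]
    have h5 : (√‖ζ‖ ^ 4) ^ (3 / 4 : ℝ) = √‖ζ‖ ^ 3 := by
      rw [← Real.rpow_natCast, ← Real.rpow_mul hs0.le, ← Real.rpow_natCast]; norm_num
    rw [h4, h5] at h3
    rw [le_mul_inv_iff₀ hs0]
    refine le_of_mul_le_mul_right ?_ (pow_pos hs0 3)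
    calc _ = √‖ζ‖ ^ 4 * ‖fderiv ℝ u (ζ ^ 2)‖ := by ring
      _ ≤ _ := h3.trans (by gcongr; exact le_abs_self M)
  obtain ⟨p, hp⟩ := lim_of_sq (u := u) (N := |M|) (by
    filter_upwards [tendsto_sq (punct_mem hr), hm', punct_mem one_pos] with ζ h1 h2 h3
    refine ⟨(h.diff _ h1).differentiableAt one_ne_zero, ?_⟩
    have e3 : ‖ζ‖ * (√‖ζ‖)⁻¹ ≤ 1 := by
      rw [← div_eq_mul_inv, Real.div_sqrt]
      exact Real.sqrt_le_one.2 (mem_ball_zero_iff.1 h3.1).le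
    calc _ ≤ ‖ζ‖ * (|M| * (√‖ζ‖)⁻¹) := by gcongr
      _ = |M| * (‖ζ‖ * (√‖ζ‖)⁻¹) := by ring
      _ ≤ _ := mul_le_of_le_one_right (abs_nonneg M) e3)
  obtain ⟨z₀, hz₀, hz₁⟩ := ((hp.eventually (ball_mem_nhds p hδ)).and (punct_mem hr)).exists
  obtain ⟨Ψ, hΨ, hh⟩ := h.fr z₀ hz₁
  have hpU : p ∈ ball (u z₀) δ := mem_ball_comm.1 hz₀
  have hΨ' : Fr |C| (ball (u z₀) δ) Ψ :=
    ⟨hΨ.smooth, fun e he => (hΨ.le e he).trans (le_abs_self C),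
      fun e he v => (hΨ.ge e he v).trans (by gcongr; exact le_abs_self C),
      fun e he e' he' => (hΨ.lip e he e' he').trans (by gcongr; exact le_abs_self C)⟩
  have hu : ∀ᶠ z in 𝓝[≠] (0 : ℂ), ContDiffAt ℝ 2 u z ∧ u z ∈ ball (u z₀) δ ∧ HolAt Ψ u z := by
    filter_upwards [hp.eventually (isOpen_ball.mem_nhds hpU), punct_mem hr] with z h1 h2
    exact ⟨hs z h2, h1, hh z h2 h1⟩
  obtain ⟨b, hb⟩ := lim_w (abs_nonneg C) (abs_nonneg M) isOpen_ball hΨ' hu hm'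
  have hc : Tendsto (fun z => Ψ (u z)) (𝓝[≠] 0) (𝓝 (Ψ p)) :=
    (hΨ.smooth.contDiffAt (isOpen_ball.mem_nhds hpU)).continuousAt.tendsto.comp hp
  have hi : Function.Injective (Ψ p) := (injective_iff_map_eq_zero _).2 fun v hv => by
    have := hΨ.ge p hpU v
    rw [hv, norm_zero, mul_zero] at this
    exact norm_le_zero_iff.1 this
  obtain ⟨P, hP⟩ := ContinuousLinearMap.HasLeftInverse.of_injective_of_finiteDimensional hi
  have h1 : Tendsto (fun z => lin (Ψ (u z) (fderiv ℝ u z 1)) 0) (𝓝[≠] 0) (𝓝 (lin b 0)) := by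
    rw [tendsto_iff_norm_sub_tendsto_zero] at hb ⊢
    refine squeeze_zero (fun _ => norm_nonneg _) (fun z => ?_) hb
    rw [lin_sub]
    simpa using norm_lin_le (Ψ (u z) (fderiv ℝ u z 1) - b) (0 - 0)
  have h2 : Tendsto (fun z => (Ψ (u z) - Ψ p).comp (fderiv ℝ u z)) (𝓝[≠] 0) (𝓝 0) := by
    rw [tendsto_zero_iff_norm_tendsto_zero]
    have h3 := (tendsto_iff_norm_sub_tendsto_zero.1 hc).mul (hb.norm.const_mul |C|)
    rw [zero_mul] at h3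
    refine squeeze_zero' (Eventually.of_forall fun _ => norm_nonneg _) ?_ h3
    filter_upwards [hu] with z hz
    refine (ContinuousLinearMap.opNorm_comp_le _ _).trans ?_
    gcongr
    exact norm_du (abs_nonneg C) hz.2.2 (hΨ'.ge _ hz.2.1)
  have h3 : Continuous fun A : ℂ →L[ℝ] F => P.comp A := by fun_prop
  refine ⟨p, ext_one (L := P.comp (lin b 0 - 0)) (hu.mono fun z hz => hz.1.of_le one_le_two) hp
    (((h3.tendsto _).comp (h1.sub h2)).congr' ?_)⟩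
  filter_upwards [hu] with z hz
  ext ξ
  rw [Function.comp_apply, ← comp_eq hz.2.2]
  simp [hP _]

/-- The statement at any point, with the regularity off the puncture as a hypothesis. -/
theorem rem1 [FiniteDimensional ℝ E] [FiniteDimensional ℂ F] {C δ r M : ℝ} {a : ℂ} {u : ℂ → E}
    (hδ : 0 < δ) (hr : 0 < r) (h : LocHol F C δ (ball a r \ {a}) u)
    (hs : ∀ z ∈ ball a r \ {a}, ContDiffAt ℝ 2 u z)
    (hm : ∀ z ∈ ball a r \ {a}, ‖z - a‖ * ‖fderiv ℝ u z‖ ≤ M * ‖z - a‖ ^ (3 / 4 : ℝ)) :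
    ∃ p : E, ContDiffAt ℝ 1 (Function.update u a p) a := by
  have hmap : MapsTo (fun z : ℂ => z + a) (ball 0 r \ {0}) (ball a r \ {a}) := fun z hz =>
    ⟨by simpa using hz.1, by simpa using hz.2⟩
  obtain ⟨p, hp⟩ := rem0 (M := M) hδ hr (h.comp hmap fun z _ => by fun_prop)
    (fun z hz => (hs _ (hmap hz)).comp z (f := fun z : ℂ => z + a) (by fun_prop)) fun z hz => by
      have h1 := hm _ (hmap hz)
      have h2 : fderiv ℝ (u ∘ fun z : ℂ => z + a) z = fderiv ℝ u (z + a) := fderiv_comp_add_right a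
      rw [h2]
      simpa using h1
  refine ⟨p, ?_⟩
  have h1 : Function.update u a p
      = Function.update (u ∘ fun z : ℂ => z + a) 0 p ∘ fun z : ℂ => z - a := by
    funext z
    by_cases hz : z = a
    · simp [hz]
    · simp [hz, sub_ne_zero.2 hz]
  rw [h1]
  exact ContDiffAt.comp a (by simpa using hp) (by fun_prop)

end Pool.Agent.Lib.MP_1c0d65_gt.A.RemA
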