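import Pool.Agent.Lib.MP_1c0d65_gt.A.SchA

/-! The Schauder estimate for the Cauchy transform. -/

open MeasureTheory Set Metric Real Filter Topology
open Complex (I)

namespace Pool.Agent.Lib.MP_1c0d65_gt.A

theorem bs_of_compact {E : Type*} [NormedAddCommGroup E] {g : ℂ → E} (hg : Continuous g) {c : ℂ}
    {R : ℝ} (h : ∀ s, s ∉ ball c R → g s = 0) : ∃ M, BS M c R g := by
  have hc : HasCompactSupport g := HasCompactSupport.intro (isCompact_closedBall c R)
    fun s hs => h s fun hb => hs (ball_subset_closedBall hb)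
  obtain ⟨M, hM⟩ := hg.bounded_above_of_compact_support hc
  exact ⟨M, hg.aestronglyMeasurable, hM, h⟩

theorem exists_chi : ∃ (χ : ℂ → ℂ) (M : ℝ), BS M 0 2 χ ∧ (∀ t, ‖t‖ < 1 → χ t = 1) ∧
    (∀ t, χ (I * t) = χ t) ∧ ∀ t, ‖t‖ < 1 → T χ t = starRingEnd ℂ t := by
  set v : ℂ → ℂ := fun t => smoothTransition (2 - ‖t‖ ^ 2) • Complex.conjCLE t with hv
  have h1 : ContDiff ℝ 1 v :=
    (smoothTransition.contDiff.comp (contDiff_const.sub (contDiff_norm_sq ℝ))).smul
      Complex.conjCLE.contDiff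
  have h0 : ∀ t : ℂ, 3 / 2 ≤ ‖t‖ → v t = 0 := fun t ht => by
    simp only [hv]
    rw [smoothTransition.zero_of_nonpos (by nlinarith), zero_smul]
  have h2 : HasCompactSupport v := HasCompactSupport.intro (isCompact_closedBall 0 (3 / 2))
    fun t ht => h0 t (by rw [mem_closedBall_zero_iff, not_le] at ht; exact ht.le)
  have h3 : ∀ t : ℂ, ‖t‖ < 1 → v t = Complex.conjCLE t := fun t ht => by
    simp only [hv]
    rw [smoothTransition.one_of_one_le (by nlinarith [norm_nonneg t]), one_smul]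
  have hd : Differentiable ℝ v := h1.differentiable one_ne_zero
  obtain ⟨M, hM⟩ := bs_of_compact (g := fun s => db (fderiv ℝ v s))
    (continuous_db.comp (h1.continuous_fderiv one_ne_zero)) (c := 0) (R := 2) fun s hs => by
      rw [mem_ball_zero_iff, not_lt] at hs
      have : v =ᶠ[𝓝 s] fun _ => 0 := by
        filter_upwards [(isOpen_lt continuous_const continuous_norm).mem_nhds
          (show (3 / 2 : ℝ) < ‖s‖ by linarith)] with t ht using h0 t (le_of_lt ht)
      rw [this.fderiv_eq]; simp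
  refine ⟨_, M, hM, fun t ht => ?_, fun t => ?_, fun t ht => ?_⟩
  · have : v =ᶠ[𝓝 t] Complex.conjCLE := by
      filter_upwards [(isOpen_lt continuous_norm continuous_const).mem_nhds ht] with s hs
        using h3 s hs
    rw [this.fderiv_eq, Complex.conjCLE.fderiv]
    simp [db]; norm_num
  · have e : (fun t => v (I * t)) = fun t => (-I) • v t := by
      ext t
      simp only [hv, norm_mul, Complex.norm_I, one_mul, Complex.conjCLE_apply, map_mul,
        Complex.conj_I, smul_eq_mul, mul_smul_comm]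
    have a1 : HasFDerivAt (fun t => v (I * t))
        ((fderiv ℝ v (I * t)).comp (I • ContinuousLinearMap.id ℝ ℂ)) t :=
      (hd _).hasFDerivAt.comp t ((hasFDerivAt_id t).const_smul I)
    rw [e] at a1
    have a2 := a1.unique ((hd t).hasFDerivAt.const_smul (-I))
    have b1 := congrArg (fun L : ℂ →L[ℝ] ℂ => L 1) a2
    have b2 := congrArg (fun L : ℂ →L[ℝ] ℂ => L (-I)) a2
    simp only [ContinuousLinearMap.comp_apply, smul_apply, ContinuousLinearMap.id_apply,
      smul_eq_mul, mul_one, mul_neg, Complex.I_mul_I, neg_neg, map_neg, neg_mul] at b1 b2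
    simp only [db, b1, b2, smul_eq_mul]
    linear_combination (-(2 : ℂ)⁻¹ * fderiv ℝ v t 1) * Complex.I_mul_I
  · rw [cp h1 h2, h3 t ht]; rfl

variable {E : Type*} [NormedAddCommGroup E] [NormedSpace ℂ E] {M R H : ℝ} {c z : ℂ} {f : ℂ → E}

theorem sq_rot {g : ℂ → E} (hi : Integrable fun t : ℂ => (t ^ 2)⁻¹ • g t) :
    (Integrable fun t : ℂ => (t ^ 2)⁻¹ • g (I * t)) ∧
      ∫ t : ℂ, (t ^ 2)⁻¹ • (g t - g (I * t)) = (2 : ℂ) • ∫ t : ℂ, (t ^ 2)⁻¹ • g t := by
  have e : ∀ t : ℂ, (t ^ 2)⁻¹ • g (I * t) = -(((I * t) ^ 2)⁻¹ • g (I * t)) := fun t => by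
    rw [mul_pow, Complex.I_sq, neg_one_mul, inv_neg, neg_smul, neg_neg]
  have h1 : Integrable fun t : ℂ => (t ^ 2)⁻¹ • g (I * t) := by
    simp only [e]; exact (intg_mul hi).neg
  refine ⟨h1, ?_⟩
  simp only [smul_sub]
  rw [integral_sub hi h1]
  simp only [e]
  rw [integral_neg, int_mul (fun t => (t ^ 2)⁻¹ • g t), two_smul, sub_neg_eq_add]

theorem BS.T_hasFDerivAt [CompleteSpace E] (h : BS M c R f)
    (hH : ∀ s, ‖f s - f z‖ ≤ H * √‖s - z‖) : HasFDerivAt (T f) (lin (S f z) (f z)) z := by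
  obtain ⟨χ, N, hχ, h1, h2, h3⟩ := exists_chi
  have hM := h.nonneg
  have hN := hχ.nonneg
  have hH0 := hol_nonneg hH
  have hk : BS (N * ‖f z‖) z 2 fun s => χ (s - z) • f z :=
    ⟨(hχ.integrable.comp_sub_right z).1.smul_const _, fun s => by
      rw [norm_smul]; gcongr; exact hχ.bd _, fun s hs => by
      rw [hχ.supp _ (by simpa [dist_eq_norm] using hs), zero_smul]⟩
  set g : ℂ → E := fun s => f s - χ (s - z) • f z with hg
  have hR : 0 < |R| + ‖c - z‖ + 2 := by positivity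
  have hgb : BS (M + N * ‖f z‖) z (|R| + ‖c - z‖ + 2) g := by
    refine ⟨h.meas.sub hk.meas, fun s => norm_sub_le_of_le (h.bd s) (hk.bd s), fun s hs => ?_⟩
    rw [mem_ball, dist_eq_norm, not_lt] at hs
    have a1 := norm_add_le (s - c) (c - z)
    rw [sub_add_sub_cancel] at a1
    have a2 := le_abs_self R
    have a3 := abs_nonneg R
    have a4 := norm_nonneg (c - z)
    simp only [hg]
    rw [h.supp s (by rw [mem_ball, dist_eq_norm, not_lt]; linarith),
      hk.supp s (by rw [mem_ball, dist_eq_norm, not_lt]; linarith), sub_zero]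
  have hgH : ∀ s, ‖g s‖ ≤ (H + (M + N * ‖f z‖)) * √‖s - z‖ := fun s => by
    have p := Real.sqrt_nonneg ‖s - z‖
    have q : 0 ≤ M + N * ‖f z‖ := by positivity
    rcases lt_or_ge ‖s - z‖ 1 with hs | hs
    · simp only [hg]
      rw [h1 _ hs, one_smul]
      nlinarith [hH s]
    · have := Real.one_le_sqrt.2 hs
      nlinarith [hgb.bd s]
  obtain ⟨hi, hd⟩ := hgb.T_deriv0 hR hgH
  have hi2 : Integrable fun t : ℂ => (t ^ 2)⁻¹ • g (z + t) := by
    simpa using (hi.comp_add_left z).neg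
  have hS : (π : ℂ)⁻¹ • ∫ s, (-((z - s) ^ 2)⁻¹) • g s = S f z := by
    have e : ∀ t, f (z + t) - f (z + I * t) = g (z + t) - g (z + I * t) := fun t => by
      simp only [hg, add_sub_cancel_left, h2]; abel
    simp only [S, e]
    rw [(sq_rot (g := fun t => g (z + t)) hi2).2, ← integral_add_left_eq_self _ z]
    simp only [sub_add_cancel_left, even_two, Even.neg_pow, neg_smul, integral_neg]
    have : (π : ℂ) ≠ 0 := by exact_mod_cast pi_ne_zero
    match_scalars
    field_simp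
  rw [hS] at hd
  have hc : HasFDerivAt (fun w => lin 0 (f z) (w - z)) (lin 0 (f z)) z :=
    (lin 0 (f z)).hasFDerivAt.comp z ((hasFDerivAt_id z).sub_const z)
  have e2 : lin (S f z) (f z) = lin (S f z) 0 + lin 0 (f z) := by
    ext ξ; simp [lin_app]
  rw [e2]
  refine (hd.add hc).congr_of_eventuallyEq ?_
  filter_upwards [ball_mem_nhds z one_pos] with w hw
  rw [mem_ball, dist_eq_norm] at hw
  have a1 : T (fun s => χ (s - z) • f z) w = T χ (w - z) • f z := by
    simp only [T, smul_smul]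
    rw [smul_assoc, ← integral_smul_const, ← integral_add_right_eq_self _ z]
    simp only [add_sub_cancel_right, sub_add_eq_sub_sub_swap, smul_eq_mul]
  rw [Pi.add_apply, hg, T_sub (h.T_int w) (hk.T_int w), a1, h3 _ hw, lin_app]
  simp

/-- The truncated kernel. -/
noncomputable def kt (δ : ℝ) : ℂ → ℂ := (ball (0 : ℂ) δ)ᶜ.indicator fun t => (t ^ 2)⁻¹

theorem kt_le {δ : ℝ} (hδ : 0 < δ) (t : ℂ) : ‖kt δ t‖ ≤ (δ ^ 2)⁻¹ := by
  by_cases ht : t ∈ (ball (0 : ℂ) δ)ᶜ
  · rw [kt, indicator_of_mem ht, norm_inv, norm_pow]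
    rw [mem_compl_iff, mem_ball_zero_iff, not_lt] at ht
    gcongr
  · rw [kt, indicator_of_notMem ht, norm_zero]; positivity

theorem kt_neg (δ : ℝ) (t : ℂ) : kt δ (-t) = kt δ t := by
  simp [kt, indicator]

theorem kt_meas (δ : ℝ) : Measurable (kt δ) :=
  Measurable.indicator (by fun_prop) measurableSet_ball.compl

theorem kt_int {δ : ℝ} (hδ : 0 < δ) {g : ℂ → E} (hg : Integrable g) (a : ℂ) :
    Integrable fun t => kt δ (t + a) • g t :=
  Integrable.mono' (hg.norm.const_mul (δ ^ 2)⁻¹)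
    (((kt_meas δ).comp (measurable_add_const a)).aestronglyMeasurable.smul hg.1)
    (ae_of_all _ fun t => by rw [norm_smul]; gcongr; exact kt_le hδ _)

theorem BS.S_trunc (h : BS M c R f) (hH : ∀ s, ‖f s - f z‖ ≤ H * √‖s - z‖) {δ : ℝ} (hδ : 0 < δ) :
    ‖S f z + (π : ℂ)⁻¹ • ∫ t, kt δ t • f (z + t)‖ ≤ 4 * H * √δ := by
  have i1 : Integrable fun t => f (z + t) := h.integrable.comp_add_left z
  set g : ℂ → E := (ball (0 : ℂ) δ)ᶜ.indicator fun t => f (z + t) with hg
  have e1 : ∀ t, kt δ t • f (z + t) = (t ^ 2)⁻¹ • g t := fun t => by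
    by_cases ht : t ∈ (ball (0 : ℂ) δ)ᶜ <;> simp [kt, hg, ht]
  have i2 : Integrable fun t : ℂ => (t ^ 2)⁻¹ • g t := by
    simpa only [add_zero, e1] using kt_int hδ i1 0
  obtain ⟨i3, e2⟩ := sq_rot i2
  have i4 : Integrable fun t : ℂ => (t ^ 2)⁻¹ • (g t - g (I * t)) := by
    simp only [smul_sub]; exact i2.sub i3
  have hm : ∀ t : ℂ, I * t ∈ ball (0 : ℂ) δ ↔ t ∈ ball (0 : ℂ) δ := fun t => by simp
  have := near_le (H := H) (F := fun t => (t ^ 2)⁻¹ • (f (z + t) - f (z + I * t)) -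
    (t ^ 2)⁻¹ • (g t - g (I * t))) hδ (fun t ht => by
      rw [hg, indicator_of_mem ht, indicator_of_mem (mem_compl fun h => ht ((hm t).1 h)), sub_self])
    fun t ht => by
      rw [hg, indicator_of_notMem (not_not.2 ht), indicator_of_notMem (not_not.2 ((hm t).2 ht))]
      simpa using sym_le hH t
  rw [integral_sub (h.S_int hH) i4, e2, smul_sub] at this
  simp only [e1]
  convert this using 2
  rw [S]
  have : (π : ℂ) ≠ 0 := by exact_mod_cast pi_ne_zero
  match_scalars <;> field_simp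

theorem kt_far {t a : ℂ} {δ : ℝ} (hδ : 0 < δ) (ha : 2 * ‖a‖ = δ) (ht : 2 * δ ≤ ‖t‖) :
    ‖kt δ (t + -a) - kt δ (t + a)‖ ≤ 7 * δ / ‖t‖ ^ 3 := by
  have h1 : 3 / 4 * ‖t‖ ≤ ‖t + -a‖ := by
    have := norm_add_le (t + -a) a
    rw [neg_add_cancel_right] at this; linarith
  have h2 : 3 / 4 * ‖t‖ ≤ ‖t + a‖ := by
    have := norm_sub_le (t + a) a
    rw [add_sub_cancel_right] at this; linarith
  have h0 : 0 < ‖t‖ := by linarith
  have n1 : t + -a ≠ 0 := norm_pos_iff.1 (by linarith)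
  have n2 : t + a ≠ 0 := norm_pos_iff.1 (by linarith)
  rw [kt, indicator_of_mem (by rw [mem_compl_iff, mem_ball_zero_iff]; linarith),
    indicator_of_mem (by rw [mem_compl_iff, mem_ball_zero_iff]; linarith)]
  have e : ((t + -a) ^ 2)⁻¹ - ((t + a) ^ 2)⁻¹ = 4 * t * a / ((t + -a) ^ 2 * (t + a) ^ 2) := by
    field_simp; ring
  rw [e, norm_div, norm_mul, norm_mul, norm_mul, norm_pow, norm_pow, Complex.norm_ofNat]
  calc _ ≤ 4 * ‖t‖ * ‖a‖ / ((3 / 4 * ‖t‖) ^ 2 * (3 / 4 * ‖t‖) ^ 2) := by gcongr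
    _ = 512 / 81 * δ / ‖t‖ ^ 3 := by rw [← ha]; field_simp; ring
    _ ≤ _ := by gcongr; norm_num

theorem BS.trunc_hol (h : BS M c R f) (hH : ∀ s s', ‖f s - f s'‖ ≤ H * √‖s - s'‖) (m : ℂ) {a : ℂ}
    {δ : ℝ} (hδ : 0 < δ) (ha : 2 * ‖a‖ = δ) :
    ‖(∫ t, kt δ t • f (m + a + t)) - ∫ t, kt δ t • f (m - a + t)‖ ≤ 40 * π * H * √δ := by
  have hH0 : 0 ≤ H := hol_nonneg (hH · 0)
  have i1 : Integrable fun t => f (m + t) := h.integrable.comp_add_left m
  have i2 : Integrable fun t => f (m - t) := h.integrable.comp_sub_left m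
  set κ : ℂ → ℂ := fun t => kt δ (t + -a) - kt δ (t + a) with hκ
  have j1 : Integrable fun t => κ t • f (m + t) := by
    simp only [hκ, sub_smul]; exact (kt_int hδ i1 _).sub (kt_int hδ i1 _)
  have j2 : Integrable fun t => κ t • f (m - t) := by
    simp only [hκ, sub_smul]; exact (kt_int hδ i2 _).sub (kt_int hδ i2 _)
  have e1 : (∫ t, kt δ t • f (m + a + t)) - ∫ t, kt δ t • f (m - a + t) = ∫ t, κ t • f (m + t) := by
    simp only [hκ, sub_smul]
    rw [integral_sub (kt_int hδ i1 _) (kt_int hδ i1 _),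
      ← integral_add_right_eq_self (fun t => kt δ t • f (m + a + t)) (-a),
      ← integral_add_right_eq_self (fun t => kt δ t • f (m - a + t)) a]
    congr 2 <;> ext t <;> congr 2 <;> ring
  have e2 : ∫ t, κ t • f (m - t) = -∫ t, κ t • f (m + t) := by
    rw [← integral_neg, ← integral_neg_eq_self]
    congr 1; ext t
    simp only [hκ, sub_neg_eq_add]
    rw [← kt_neg δ (-t + -a), ← kt_neg δ (-t + a), ← neg_smul]
    congr 1
    rw [neg_sub]; congr 2 <;> ring
  have e3 : ∫ t, κ t • (f (m + t) - f (m - t)) = (2 : ℝ) • ∫ t, κ t • f (m + t) := by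
    simp only [smul_sub]
    rw [integral_sub j1 j2, e2, two_smul, sub_neg_eq_add]
  have h2δ : 0 < 2 * δ := by positivity
  have k1 : Integrable ((ball (0 : ℂ) (2 * δ)).indicator fun _ => 4 * H * √δ / δ ^ 2) :=
    (integrable_indicator_iff measurableSet_ball).2 (integrableOn_const measure_ball_lt_top.ne)
  have k2 : Integrable ((ball (0 : ℂ) (2 * δ))ᶜ.indicator
      fun t => 14 * H * δ * ‖t‖ ^ (-(5 / 2 : ℝ))) :=
    (integrable_indicator_iff measurableSet_ball.compl).2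
      ((intOn_far (by norm_num) h2δ).const_mul _)
  have hb := norm_integral_le_of_norm_le (f := fun t => κ t • (f (m + t) - f (m - t))) (k1.add k2)
    (ae_of_all _ fun t => by
      have a1 := hH (m + t) (m - t)
      have a2 : ‖m + t - (m - t)‖ = 2 * ‖t‖ := by
        rw [show m + t - (m - t) = 2 * t by ring, norm_mul, Complex.norm_ofNat]
      rw [a2] at a1
      rw [norm_smul, Pi.add_apply]
      by_cases ht : t ∈ ball (0 : ℂ) (2 * δ)
      · rw [indicator_of_mem ht, indicator_of_notMem (not_not.2 ht), add_zero]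
        have a3 : √(2 * ‖t‖) ≤ 2 * √δ := by
          rw [mem_ball_zero_iff] at ht
          refine Real.sqrt_le_iff.2 ⟨by positivity, ?_⟩
          rw [mul_pow, Real.sq_sqrt hδ.le]; linarith
        have a4 := norm_sub_le_of_le (kt_le hδ (t + -a)) (kt_le hδ (t + a))
        calc _ ≤ ((δ ^ 2)⁻¹ + (δ ^ 2)⁻¹) * (H * (2 * √δ)) :=
            mul_le_mul a4 (a1.trans (by gcongr)) (norm_nonneg _) (by positivity)
          _ = _ := by ring
      · rw [indicator_of_notMem ht, indicator_of_mem ht, zero_add, rpow52 (norm_nonneg _)]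
        rw [mem_ball_zero_iff, not_lt] at ht
        have a3 : √(2 * ‖t‖) ≤ 2 * √‖t‖ := by
          refine Real.sqrt_le_iff.2 ⟨by positivity, ?_⟩
          rw [mul_pow, Real.sq_sqrt (norm_nonneg _)]; linarith [norm_nonneg t]
        have a4 := kt_far hδ ha ht
        have hx : 0 < √‖t‖ := Real.sqrt_pos.2 (by linarith)
        have a5 := Real.sq_sqrt (norm_nonneg t)
        calc _ ≤ (7 * δ / ‖t‖ ^ 3) * (H * (2 * √‖t‖)) :=
            mul_le_mul a4 (a1.trans (by gcongr)) (norm_nonneg _) (by positivity)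
          _ = _ := by
            generalize √‖t‖ = x at *
            rw [← a5]; field_simp; ring)
  simp only [Pi.add_apply] at hb
  rw [e3, integral_add k1 k2, integral_indicator measurableSet_ball,
    integral_indicator measurableSet_ball.compl, setIntegral_const, vol_ball _ h2δ.le,
    integral_const_mul, int_far (by norm_num) h2δ, norm_smul, Real.norm_ofNat, smul_eq_mul] at hb
  have b1 : π * (2 * δ) ^ 2 * (4 * H * √δ / δ ^ 2) = 16 * π * H * √δ := by field_simp; ring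
  have b2 : δ * (2 * δ) ^ (2 - 5 / 2 : ℝ) ≤ √δ := by
    have : (2 * δ) ^ (2 - 5 / 2 : ℝ) ≤ δ ^ (2 - 5 / 2 : ℝ) :=
      Real.rpow_le_rpow_of_nonpos hδ (by linarith) (by norm_num)
    calc _ ≤ δ ^ (1 : ℝ) * δ ^ (2 - 5 / 2 : ℝ) := by rw [Real.rpow_one]; gcongr
      _ = _ := by rw [← Real.rpow_add hδ, Real.sqrt_eq_rpow]; norm_num
  have b3 := mul_le_mul_of_nonneg_left b2 (by positivity : 0 ≤ 56 * π * H)
  have b4 : 0 ≤ π * H * √δ := by positivity
  rw [e1]
  rw [b1] at hb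
  have b5 : 14 * H * δ * (2 * π * (2 * δ) ^ (2 - 5 / 2 : ℝ) / (5 / 2 - 2)) =
    56 * π * H * (δ * (2 * δ) ^ (2 - 5 / 2 : ℝ)) := by ring
  rw [b5] at hb
  linarith

theorem BS.S_hol (h : BS M c R f) (hH : ∀ s s', ‖f s - f s'‖ ≤ H * √‖s - s'‖) (z w : ℂ) :
    ‖S f z - S f w‖ ≤ 100 * H * √‖z - w‖ := by
  have hH0 : 0 ≤ H := hol_nonneg (hH · 0)
  by_cases hzw : z = w
  · simp [hzw]
  have hδ : 0 < ‖z - w‖ := norm_pos_iff.2 (sub_ne_zero.2 hzw)
  have h1 := h.S_trunc (hH · z) hδ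
  have h2 := h.S_trunc (hH · w) hδ
  have h3 := h.trunc_hol hH ((z + w) / 2) (a := (z - w) / 2) hδ (by
    rw [norm_div, Complex.norm_ofNat]; ring)
  rw [show (z + w) / 2 + (z - w) / 2 = z by ring, show (z + w) / 2 - (z - w) / 2 = w by ring] at h3
  generalize (∫ t, kt ‖z - w‖ t • f (z + t)) = A at *
  generalize (∫ t, kt ‖z - w‖ t • f (w + t)) = B at *
  have h4 : ‖(π : ℂ)⁻¹ • (A - B)‖ ≤ 40 * H * √‖z - w‖ := by
    rw [norm_smul, norm_pi_inv, inv_mul_le_iff₀ pi_pos]; linarith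
  have e : S f z - S f w = (S f z + (π : ℂ)⁻¹ • A) - (S f w + (π : ℂ)⁻¹ • B) - (π : ℂ)⁻¹ • (A - B) := by
    module
  rw [e]
  have := norm_sub_le_of_le (norm_sub_le_of_le h1 h2) h4
  have p : 0 ≤ H * √‖z - w‖ := by positivity
  linarith

end Pool.Agent.Lib.MP_1c0d65_gt.A
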