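import Pool.Agent.Lib.MP_1c0d65_gt.A.Fr

/-! The Cauchy transform is differentiable at points where the density is Hoelder. -/

open MeasureTheory Set Metric Real Filter Topology
open Complex (I)

namespace Pool.Agent.Lib.MP_1c0d65_gt.A

variable {E : Type*} [NormedAddCommGroup E] [NormedSpace ℂ E] {M R H : ℝ} {c z : ℂ} {f : ℂ → E}

omit [NormedSpace ℂ E] in
theorem hol_nonneg (hH : ∀ s, ‖f s - f z‖ ≤ H * √‖s - z‖) : 0 ≤ H := by
  have := (norm_nonneg _).trans (hH (z + 1))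
  simpa using this

omit [NormedSpace ℂ E] in
theorem BS.int_norm (h : BS M c R f) : ∫ s, ‖f s‖ ≤ M * (π * R ^ 2) := by
  have hM := h.nonneg
  rcases le_total R 0 with hR | hR
  · have : ∀ s, f s = 0 := fun s => h.supp s (by simp [ball_eq_empty.2 hR])
    simp only [this, norm_zero, integral_zero]; positivity
  · have := dom_le (E := ℂ) (F := fun s => (‖f s‖ : ℂ)) (φ := fun _ => M) (U := ball c R)
      measurableSet_ball (fun s hs => by simp [h.supp s hs])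
      (integrableOn_const measure_ball_lt_top.ne) (ae_of_all _ fun s _ => by simpa using h.bd s)
    rw [setIntegral_const, vol_ball c hR, integral_complex_ofReal, Complex.norm_real, smul_eq_mul,
      mul_comm] at this
    exact (le_abs_self _).trans this

theorem sym_le (hH : ∀ s, ‖f s - f z‖ ≤ H * √‖s - z‖) (t : ℂ) :
    ‖(t ^ 2)⁻¹ • (f (z + t) - f (z + I * t))‖ ≤ 2 * H * ‖t‖ ^ (-(3 / 2 : ℝ)) := by
  have hH0 := hol_nonneg hH
  by_cases ht : t = 0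
  · simp only [ht, ne_eq, OfNat.ofNat_ne_zero, not_false_eq_true, zero_pow, inv_zero, zero_smul,
      norm_zero]; positivity
  have h1 := hH (z + t)
  have h2 := hH (z + I * t)
  rw [add_sub_cancel_left] at h1 h2
  rw [norm_mul, Complex.norm_I, one_mul] at h2
  have h3 := norm_sub_le_of_le h1 h2
  rw [sub_sub_sub_cancel_right] at h3
  rw [norm_smul, norm_inv, norm_pow, rpow32 (norm_nonneg _)]
  have hx : 0 < √‖t‖ := Real.sqrt_pos.2 (norm_pos_iff.2 ht)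
  have e1 := Real.sq_sqrt (norm_nonneg t)
  generalize √‖t‖ = x at *
  rw [← e1]
  calc _ ≤ ((x ^ 2) ^ 2)⁻¹ * (H * x + H * x) := by gcongr
    _ = _ := by field_simp; ring

theorem int32' {ρ : ℝ} (hρ : 0 < ρ) :
    ∫ t in ball (0 : ℂ) ρ, ‖t‖ ^ (-(3 / 2 : ℝ)) = 4 * π * √ρ := by
  rw [int_ball (by norm_num) hρ, Real.sqrt_eq_rpow]; norm_num; ring

theorem norm_2pi : ‖(-(2 * π : ℂ)⁻¹)‖ = (2 * π)⁻¹ := by
  rw [norm_neg, norm_inv, norm_mul, Complex.norm_real, Real.norm_of_nonneg pi_pos.le]; simp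

theorem sym_far (f : ℂ → E) (z : ℂ) {ρ : ℝ} (hρ : 0 < ρ) {t : ℂ} (ht : t ∉ ball (0 : ℂ) ρ) :
    ‖(t ^ 2)⁻¹ • (f (z + t) - f (z + I * t))‖ ≤ (ρ ^ 2)⁻¹ * (‖f (z + t)‖ + ‖f (z + I * t)‖) := by
  rw [mem_ball_zero_iff, not_lt] at ht
  rw [norm_smul, norm_inv, norm_pow]
  gcongr
  exact norm_sub_le _ _

theorem BS.S_aux (h : BS M c R f) (hH : ∀ s, ‖f s - f z‖ ≤ H * √‖s - z‖) {ρ : ℝ} (hρ : 0 < ρ) :
    (Integrable fun t : ℂ => (t ^ 2)⁻¹ • (f (z + t) - f (z + I * t))) ∧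
      ‖S f z‖ ≤ 4 * H * √ρ + M * R ^ 2 / ρ ^ 2 := by
  have hH0 := hol_nonneg hH
  have i1 : Integrable fun t => f (z + t) := h.integrable.comp_add_left z
  have i2 : Integrable fun t => f (z + I * t) := intg_mul i1
  have i3 : Integrable ((ball (0 : ℂ) ρ).indicator fun t : ℂ => 2 * H * ‖t‖ ^ (-(3 / 2 : ℝ))) :=
    (integrable_indicator_iff measurableSet_ball).2 ((intOn_ball (by norm_num) ρ).const_mul _)
  have i4 : Integrable fun t => (ρ ^ 2)⁻¹ * (‖f (z + t)‖ + ‖f (z + I * t)‖) :=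
    (i1.norm.add i2.norm).const_mul _
  have hb : ∀ᵐ t : ℂ, ‖(t ^ 2)⁻¹ • (f (z + t) - f (z + I * t))‖ ≤
      (ball (0 : ℂ) ρ).indicator (fun t : ℂ => 2 * H * ‖t‖ ^ (-(3 / 2 : ℝ))) t +
        (ρ ^ 2)⁻¹ * (‖f (z + t)‖ + ‖f (z + I * t)‖) := ae_of_all _ fun t => by
    by_cases ht : t ∈ ball (0 : ℂ) ρ
    · rw [indicator_of_mem ht]
      exact (sym_le hH t).trans (le_add_of_nonneg_right (by positivity))
    · rw [indicator_of_notMem ht, zero_add]; exact sym_far f z hρ ht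
  refine ⟨Integrable.mono' (i3.add i4)
    ((by fun_prop : Measurable fun t : ℂ => (t ^ 2)⁻¹).aestronglyMeasurable.smul (i1.sub i2).1) hb, ?_⟩
  have h1 := norm_integral_le_of_norm_le (i3.add i4) hb
  simp only [Pi.add_apply] at h1
  rw [integral_add i3 i4, integral_indicator measurableSet_ball, integral_const_mul,
    integral_const_mul, int32' hρ, integral_add i1.norm i2.norm,
    int_mul (fun t => ‖f (z + t)‖), integral_add_left_eq_self (fun t => ‖f t‖) z] at h1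
  have h2 := mul_le_mul_of_nonneg_left (add_le_add h.int_norm h.int_norm)
    (by positivity : 0 ≤ (ρ ^ 2)⁻¹)
  rw [S, norm_smul, norm_2pi, inv_mul_le_iff₀ (by positivity), div_eq_mul_inv]
  linarith

theorem BS.S_int (h : BS M c R f) (hH : ∀ s, ‖f s - f z‖ ≤ H * √‖s - z‖) :
    Integrable fun t : ℂ => (t ^ 2)⁻¹ • (f (z + t) - f (z + I * t)) := (h.S_aux hH one_pos).1

theorem BS.S_le (h : BS M c R f) (hH : ∀ s, ‖f s - f z‖ ≤ H * √‖s - z‖) {ρ : ℝ} (hρ : 0 < ρ) :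
    ‖S f z‖ ≤ 4 * H * √ρ + M * R ^ 2 / ρ ^ 2 := (h.S_aux hH hρ).2

theorem near_le {F : ℂ → E} {ρ : ℝ} (hρ : 0 < ρ) (h0 : ∀ t, t ∉ ball (0 : ℂ) ρ → F t = 0)
    (hF : ∀ t, t ∈ ball (0 : ℂ) ρ → ‖F t‖ ≤ 2 * H * ‖t‖ ^ (-(3 / 2 : ℝ))) :
    ‖(-(2 * π : ℂ)⁻¹) • ∫ t, F t‖ ≤ 4 * H * √ρ := by
  have h1 := dom_le measurableSet_ball h0 ((intOn_ball (γ := 3 / 2) (by norm_num) ρ).const_mul _)
    (ae_of_all _ hF)
  rw [integral_const_mul, int32' hρ] at h1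
  rw [norm_smul, norm_2pi, inv_mul_le_iff₀ (by positivity)]
  linarith

theorem BS.S_le' (h : BS M c R f) (hH : ∀ s, ‖f s - f z‖ ≤ H * √‖s - z‖) {ρ : ℝ} (hρ : 0 < ρ)
    (hb : ball c R ⊆ ball z ρ) : ‖S f z‖ ≤ 4 * H * √ρ := by
  refine near_le hρ (fun t ht => ?_) fun t _ => sym_le hH t
  have h1 : ∀ s : ℂ, ‖s‖ = ‖t‖ → f (z + s) = 0 := fun s hs => h.supp _ fun hm => ht (by
    have := hb hm
    rwa [mem_ball, dist_eq_norm, add_sub_cancel_left, hs, ← mem_ball_zero_iff] at this)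
  rw [h1 t rfl, h1 (I * t) (by simp), sub_zero, smul_zero]

theorem BS.T_far (h : BS M c R f) {ρ : ℝ} (hρ : 0 < ρ) (hz : R + ρ ≤ ‖z - c‖) :
    ‖T f z‖ ≤ M * R ^ 2 / ρ := by
  have h1 := norm_integral_le_of_norm_le (f := fun s => (z - s)⁻¹ • f s)
    (h.integrable.norm.const_mul ρ⁻¹) (ae_of_all _ fun s => by
      by_cases hs : s ∈ ball c R
      · rw [norm_smul, norm_inv]
        have h2 := norm_add_le (z - s) (s - c)
        rw [sub_add_sub_cancel] at h2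
        rw [mem_ball, dist_eq_norm] at hs
        have : ρ ≤ ‖z - s‖ := by linarith
        gcongr
      · simp [h.supp s hs])
  rw [integral_const_mul] at h1
  have h2 := mul_le_mul_of_nonneg_left h.int_norm (by positivity : 0 ≤ ρ⁻¹)
  rw [T, norm_smul, norm_pi_inv, inv_mul_le_iff₀ pi_pos, div_eq_mul_inv]
  linarith

theorem rpow74 {a : ℝ} (ha : 0 ≤ a) : a ^ (-(7 / 4 : ℝ)) = (√√a ^ 7)⁻¹ := by
  rw [Real.rpow_neg ha, Real.sqrt_eq_rpow, Real.sqrt_eq_rpow, ← Real.rpow_natCast,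
    ← Real.rpow_mul ha, ← Real.rpow_mul ha]; norm_num

theorem sqrt4 {a : ℝ} (ha : 0 ≤ a) : √√a ^ 4 = a ∧ √√a ^ 2 = √a := by
  have h := Real.sq_sqrt (Real.sqrt_nonneg a)
  refine ⟨?_, h⟩
  rw [show 4 = 2 * 2 from rfl, pow_mul, h, Real.sq_sqrt ha]

theorem rem_aux {x y d : ℝ} (hx : 0 < x) (hy : 0 < y) (hd : 0 ≤ d) (h : d ^ 4 ≤ x ^ 4 + y ^ 4) :
    (d ^ 4) ^ 2 / ((x ^ 4) ^ 2 * y ^ 4) * x ^ 2 ≤ 8 * (d ^ 4 * d) * ((x ^ 7)⁻¹ + (y ^ 7)⁻¹) := by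
  have key : ∀ w : ℝ, 0 < w → x ≤ w → y ≤ w → d ^ 3 ≤ 8 * w ^ 3 := fun w hw h1 h2 => by
    have h3 : d ^ 4 ≤ (2 * w) ^ 4 := by
      have a1 : x ^ 4 ≤ w ^ 4 := by gcongr
      have a2 : y ^ 4 ≤ w ^ 4 := by gcongr
      have a3 : 0 < w ^ 4 := by positivity
      nlinarith
    have h4 : d ≤ 2 * w := le_of_pow_le_pow_left₀ (by norm_num) (by positivity) h3
    calc d ^ 3 ≤ (2 * w) ^ 3 := by gcongr
      _ = _ := by ring
  have e : (d ^ 4) ^ 2 / ((x ^ 4) ^ 2 * y ^ 4) * x ^ 2 = d ^ 5 * (d ^ 3 / (x ^ 6 * y ^ 4)) := by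
    field_simp
  rw [e, show 8 * (d ^ 4 * d) * ((x ^ 7)⁻¹ + (y ^ 7)⁻¹) = d ^ 5 * (8 * ((x ^ 7)⁻¹ + (y ^ 7)⁻¹)) by ring]
  gcongr
  have p1 : 0 < (x ^ 7)⁻¹ := by positivity
  have p2 : 0 < (y ^ 7)⁻¹ := by positivity
  rcases le_total x y with h1 | h1
  · have : d ^ 3 / (x ^ 6 * y ^ 4) ≤ 8 * (x ^ 7)⁻¹ :=
      calc _ ≤ 8 * y ^ 3 / (x ^ 6 * y ^ 4) := by gcongr; exact key y hy h1 le_rfl
        _ = 8 * (x ^ 6 * y)⁻¹ := by field_simp
        _ ≤ 8 * (x ^ 6 * x)⁻¹ := by gcongr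
        _ = _ := by ring
    linarith
  · have : d ^ 3 / (x ^ 6 * y ^ 4) ≤ 8 * (y ^ 7)⁻¹ :=
      calc _ ≤ 8 * x ^ 3 / (x ^ 6 * y ^ 4) := by gcongr; exact key x hx le_rfl h1
        _ = 8 * (x ^ 3 * y ^ 4)⁻¹ := by field_simp
        _ ≤ 8 * (y ^ 3 * y ^ 4)⁻¹ := by gcongr
        _ = _ := by ring
    linarith

theorem rem_ker {a b : ℂ} (ha : a ≠ 0) (hb : b ≠ 0) :
    ‖b⁻¹ - a⁻¹ - (b - a) * (-(a ^ 2)⁻¹)‖ * √‖a‖ ≤
      8 * (‖b - a‖ * √√‖b - a‖) * (‖a‖ ^ (-(7 / 4 : ℝ)) + ‖b‖ ^ (-(7 / 4 : ℝ))) := by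
  have h1 : b⁻¹ - a⁻¹ - (b - a) * (-(a ^ 2)⁻¹) = (b - a) ^ 2 / (a ^ 2 * b) := by field_simp; ring
  rw [h1, norm_div, norm_mul, norm_pow, norm_pow, rpow74 (norm_nonneg _), rpow74 (norm_nonneg _)]
  have h2 := norm_sub_le b a
  have hx : 0 < √√‖a‖ := Real.sqrt_pos.2 (Real.sqrt_pos.2 (norm_pos_iff.2 ha))
  have hy : 0 < √√‖b‖ := Real.sqrt_pos.2 (Real.sqrt_pos.2 (norm_pos_iff.2 hb))
  obtain ⟨e1, e1'⟩ := sqrt4 (norm_nonneg a)
  obtain ⟨e2, -⟩ := sqrt4 (norm_nonneg b)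
  obtain ⟨e3, -⟩ := sqrt4 (norm_nonneg (b - a))
  have := rem_aux hx hy (Real.sqrt_nonneg √‖b - a‖) (by rw [e1, e2, e3]; linarith)
  rwa [e1, e2, e3, e1'] at this

/-- Differentiability at a point where the density vanishes. -/
theorem BS.T_deriv0 (h : BS M c R f) (hR : 0 < R) (hH : ∀ s, ‖f s‖ ≤ H * √‖s - z‖) :
    (Integrable fun s => (-((z - s) ^ 2)⁻¹) • f s) ∧
      HasFDerivAt (T f) (lin ((π : ℂ)⁻¹ • ∫ s, (-((z - s) ^ 2)⁻¹) • f s) 0) z := by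
  have hH0 : 0 ≤ H := by simpa using (norm_nonneg _).trans (hH (z + 1))
  have hi : Integrable fun s => (-((z - s) ^ 2)⁻¹) • f s := by
    refine dom (U := ball c R) measurableSet_ball
      ((by fun_prop : Measurable fun s : ℂ => -((z - s) ^ 2)⁻¹).aestronglyMeasurable.smul h.meas)
      (fun s hs => by simp [h.supp s hs])
      ((intOn_shift (γ := 3 / 2) (by norm_num) z c R).const_mul H) ?_
    filter_upwards [ae_ne' z] with s hs _
    have h1 := hH s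
    rw [norm_sub_rev] at h1
    rw [norm_smul, norm_neg, norm_inv, norm_pow, rpow32 (norm_nonneg _)]
    have hx : 0 < √‖z - s‖ := Real.sqrt_pos.2 (norm_pos_iff.2 (sub_ne_zero.2 hs.symm))
    have e1 := Real.sq_sqrt (norm_nonneg (z - s))
    generalize √‖z - s‖ = x at *
    rw [← e1]
    calc _ ≤ ((x ^ 2) ^ 2)⁻¹ * (H * x) := by gcongr
      _ = _ := by field_simp
  refine ⟨hi, ?_⟩
  set K := (2 / (2 - 7 / 4) + 1) * π * R ^ (2 - 7 / 4 : ℝ) with hK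
  have i1 := fun w => intOn_shift (γ := 7 / 4) (by norm_num) w c R
  have hb : ∀ w, ‖T f w - T f z - lin ((π : ℂ)⁻¹ • ∫ s, (-((z - s) ^ 2)⁻¹) • f s) 0 (w - z)‖ ≤
      π⁻¹ * (8 * H * (K + K)) * √√‖w - z‖ * ‖w - z‖ := fun w => by
    have h1 := dom_le (F := fun s => (w - s)⁻¹ • f s - (z - s)⁻¹ • f s -
        (w - z) • (-((z - s) ^ 2)⁻¹) • f s)
      (φ := fun s => 8 * (‖w - z‖ * √√‖w - z‖) * H *
        (‖z - s‖ ^ (-(7 / 4 : ℝ)) + ‖w - s‖ ^ (-(7 / 4 : ℝ))))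
      measurableSet_ball (fun s hs => by simp [h.supp s hs]) (((i1 z).add (i1 w)).const_mul _) (by
        filter_upwards [ae_ne' z, ae_ne' w] with s h1 h2 _
        have := rem_ker (sub_ne_zero.2 h1.symm) (sub_ne_zero.2 h2.symm)
        rw [sub_sub_sub_cancel_right] at this
        have h3 := hH s
        rw [norm_sub_rev] at h3
        rw [smul_smul, ← sub_smul, ← sub_smul, norm_smul]
        calc _ ≤ ‖(w - s)⁻¹ - (z - s)⁻¹ - (w - z) * -((z - s) ^ 2)⁻¹‖ * (H * √‖z - s‖) := by gcongr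
          _ = H * (‖(w - s)⁻¹ - (z - s)⁻¹ - (w - z) * -((z - s) ^ 2)⁻¹‖ * √‖z - s‖) := by ring
          _ ≤ H * _ := mul_le_mul_of_nonneg_left this hH0
          _ = _ := by ring)
    rw [integral_const_mul, integral_add (i1 z) (i1 w),
      integral_sub (f := fun s => (w - s)⁻¹ • f s - (z - s)⁻¹ • f s)
        (g := fun s => (w - z) • (-((z - s) ^ 2)⁻¹) • f s)
        ((h.T_int w).sub (h.T_int z)) (hi.smul (w - z)),
      integral_sub (h.T_int w) (h.T_int z), integral_smul] at h1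
    rw [lin_app, smul_zero, add_zero, T, T, smul_comm (w - z), ← smul_sub, ← smul_sub, norm_smul,
      norm_pi_inv, mul_assoc, mul_assoc]
    gcongr
    have := mul_le_mul_of_nonneg_left (add_le_add
      (int_shift (γ := 7 / 4) (by norm_num) (by norm_num) hR z c)
      (int_shift (γ := 7 / 4) (by norm_num) (by norm_num) hR w c))
      (by positivity : 0 ≤ 8 * (‖w - z‖ * √√‖w - z‖) * H)
    rw [← hK] at this
    linarith
  rw [hasFDerivAt_iff_isLittleO]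
  refine Asymptotics.isLittleO_iff.2 fun ε hε => ?_
  have ht : Tendsto (fun w : ℂ => π⁻¹ * (8 * H * (K + K)) * √√‖w - z‖) (𝓝 z) (𝓝 0) := by
    have : Continuous fun w : ℂ => π⁻¹ * (8 * H * (K + K)) * √√‖w - z‖ := by fun_prop
    simpa using this.tendsto z
  filter_upwards [ht.eventually_le_const hε] with w hw
  exact (hb w).trans (mul_le_mul_of_nonneg_right hw (norm_nonneg _))

end Pool.Agent.Lib.MP_1c0d65_gt.A
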