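import Pool.Agent.Lib.MP_1c0d65_gt.A.Sch

/-! Consequences of the Schauder estimate. -/

open MeasureTheory Set Metric Real Filter Topology
open Complex (I)

namespace Pool.Agent.Lib.MP_1c0d65_gt.A

variable {E : Type*} [NormedAddCommGroup E] [NormedSpace ℂ E] {M R H : ℝ} {c z : ℂ} {f : ℂ → E}

theorem BS.fderiv_T [CompleteSpace E] (h : BS M c R f) (hH : ∀ s, ‖f s - f z‖ ≤ H * √‖s - z‖) :
    fderiv ℝ (T f) z = lin (S f z) (f z) := (h.T_hasFDerivAt hH).fderiv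

theorem BS.fderiv_T_hol [CompleteSpace E] (h : BS M c R f)
    (hH : ∀ s s', ‖f s - f s'‖ ≤ H * √‖s - s'‖) (z w : ℂ) :
    ‖fderiv ℝ (T f) z - fderiv ℝ (T f) w‖ ≤ 101 * H * √‖z - w‖ := by
  rw [h.fderiv_T (hH · z), h.fderiv_T (hH · w), lin_sub]
  linarith [norm_lin_le (S f z - S f w) (f z - f w), h.S_hol hH z w, hH z w]

theorem BS.T_contDiff [CompleteSpace E] (h : BS M c R f)
    (hH : ∀ s s', ‖f s - f s'‖ ≤ H * √‖s - s'‖) : ContDiff ℝ 1 (T f) :=
  contDiff_one_iff_fderiv.2 ⟨fun z => (h.T_hasFDerivAt (hH · z)).differentiableAt,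
    continuous_of_hol (h.fderiv_T_hol hH)⟩

theorem S_add {f g : ℂ → E} (hf : Integrable fun t : ℂ => (t ^ 2)⁻¹ • (f (z + t) - f (z + I * t)))
    (hg : Integrable fun t : ℂ => (t ^ 2)⁻¹ • (g (z + t) - g (z + I * t))) :
    S (fun s => f s + g s) z = S f z + S g z := by
  simp only [S, add_sub_add_comm, smul_add, integral_add hf hg]

theorem S_smul (a : ℂ) (f : ℂ → E) (z : ℂ) : S (fun s => a • f s) z = a • S f z := by
  simp only [S, ← smul_sub, smul_comm _ a, integral_smul]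

theorem T_clm {F : Type*} [NormedAddCommGroup F] [NormedSpace ℂ F] [CompleteSpace E]
    [CompleteSpace F] (L : E →L[ℂ] F) (hf : Integrable fun s => (z - s)⁻¹ • f s) :
    T (fun s => L (f s)) z = L (T f z) := by
  simp only [T, map_smul, ← L.integral_comp_comm hf]

/-- A Lipschitz function with values in the unit interval is Hoelder. -/
theorem hol_of_lip {χ : ℂ → ℝ} {L : ℝ} (hL : 0 ≤ L) (h0 : ∀ x, 0 ≤ χ x) (h1 : ∀ x, χ x ≤ 1)
    (h : ∀ x y, |χ x - χ y| ≤ L * ‖x - y‖) (x y : ℂ) : |χ x - χ y| ≤ √L * √‖x - y‖ := by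
  rw [← Real.sqrt_mul hL]
  refine Real.le_sqrt_of_sq_le ?_
  have a1 : |χ x - χ y| ≤ 1 := abs_le.2 ⟨by linarith [h0 x, h1 y], by linarith [h1 x, h0 y]⟩
  nlinarith [h x y, abs_nonneg (χ x - χ y)]

/-- Cutting off a function that is bounded and Hoelder on a set gives a globally Hoelder function. -/
theorem hol_cut {U : Set ℂ} {χ : ℂ → ℝ} {L : ℝ} (hM : 0 ≤ M) (hH0 : 0 ≤ H) (hL : 0 ≤ L)
    (h0 : ∀ x, 0 ≤ χ x) (h1 : ∀ x, χ x ≤ 1) (hχ : ∀ x y, |χ x - χ y| ≤ L * √‖x - y‖)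
    (hs : ∀ x, x ∉ U → χ x = 0) (hb : ∀ s ∈ U, ‖f s‖ ≤ M)
    (hH : ∀ s ∈ U, ∀ s' ∈ U, ‖f s - f s'‖ ≤ H * √‖s - s'‖) (x y : ℂ) :
    ‖χ x • f x - χ y • f y‖ ≤ (H + L * M) * √‖x - y‖ := by
  have p := Real.sqrt_nonneg ‖x - y‖
  have q : 0 ≤ H * √‖x - y‖ := by positivity
  have key : ∀ s ∈ U, ‖(χ x - χ y) • f s‖ ≤ L * M * √‖x - y‖ := fun s hs => by
    rw [norm_smul, Real.norm_eq_abs, mul_right_comm]
    exact mul_le_mul (hχ x y) (hb s hs) (norm_nonneg _) (by positivity)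
  by_cases hx : x ∈ U <;> by_cases hy : y ∈ U
  · have e : χ x • f x - χ y • f y = (χ x - χ y) • f x + χ y • (f x - f y) := by module
    have a1 : ‖χ y • (f x - f y)‖ ≤ H * √‖x - y‖ := by
      rw [norm_smul, Real.norm_of_nonneg (h0 y)]
      nlinarith [hH x hx y hy, h0 y, h1 y, norm_nonneg (f x - f y)]
    rw [e, add_mul]
    linarith [norm_add_le_of_le (key x hx) a1]
  · have := key x hx
    rw [hs y hy, sub_zero] at this
    rw [hs y hy, zero_smul, sub_zero, add_mul]; linarith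
  · have := key y hy
    rw [hs x hx, zero_sub, neg_smul] at this
    rw [hs x hx, zero_smul, zero_sub, add_mul]; linarith
  · rw [hs x hx, hs y hy, zero_smul, zero_smul, sub_zero, norm_zero]; positivity

omit [NormedSpace ℂ E] in
/-- Local Hoelder bound at a point and a global bound give a global Hoelder bound at the point. -/
theorem hol_at {ρ : ℝ} (hρ : 0 < ρ) (hH0 : 0 ≤ H) (hb : ∀ s, ‖f s‖ ≤ M)
    (hH : ∀ s ∈ ball z ρ, ‖f s - f z‖ ≤ H * √‖s - z‖) (s : ℂ) :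
    ‖f s - f z‖ ≤ (H + 2 * M / √ρ) * √‖s - z‖ := by
  have hM : 0 ≤ M := (norm_nonneg _).trans (hb 0)
  have p := Real.sqrt_nonneg ‖s - z‖
  have hr : 0 < √ρ := Real.sqrt_pos.2 hρ
  rw [add_mul]
  by_cases hs : s ∈ ball z ρ
  · exact (hH s hs).trans (le_add_of_nonneg_right (by positivity))
  · rw [mem_ball, dist_eq_norm, not_lt] at hs
    have a1 : 2 * M ≤ 2 * M / √ρ * √‖s - z‖ := by
      rw [div_mul_eq_mul_div, le_div_iff₀ hr]; gcongr
    have a2 := norm_sub_le_of_le (hb s) (hb z)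
    have q : 0 ≤ H * √‖s - z‖ := by positivity
    linarith

/-- The Cauchy transform of an integrable density is smooth where the density vanishes. -/
theorem T_contDiffAt0 [CompleteSpace E] {g : ℂ → E} (hg : Integrable g) (h0 : ∀ᶠ s in 𝓝 z, g s = 0)
    (n : WithTop ℕ∞) : ContDiffAt ℂ n (T g) z := by
  have : ∀ᶠ w in 𝓝 z, DifferentiableAt ℂ (T g) w :=
    h0.eventually_nhds.mono fun w hw => (T_holo hg hw).differentiableAt
  exact (Complex.analyticAt_iff_eventually_differentiableAt.2 this).contDiffAt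

/-- Local form: a bounded density that is Hoelder near `z`. -/
theorem BS.T_contDiffAt [CompleteSpace E] (h : BS M c R f) {ρ : ℝ} (hρ : 0 < ρ)
    (hH : ∀ s ∈ ball z ρ, ∀ s' ∈ ball z ρ, ‖f s - f s'‖ ≤ H * √‖s - s'‖) :
    ContDiffAt ℝ 1 (T f) z ∧ db (fderiv ℝ (T f) z) = f z := by
  have hH' : ∀ s ∈ ball z ρ, ∀ s' ∈ ball z ρ, ‖f s - f s'‖ ≤ |H| * √‖s - s'‖ := fun s hs s' hs' =>
    (hH s hs s' hs').trans (mul_le_mul_of_nonneg_right (le_abs_self H) (Real.sqrt_nonneg _))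
  refine ⟨?_, by
    rw [h.fderiv_T (hol_at hρ (abs_nonneg H) h.bd fun s hs => hH' s hs z (mem_ball_self hρ)), db_lin]⟩
  let χ : ContDiffBump z := ⟨ρ / 2, ρ, by positivity, by linarith⟩
  obtain ⟨L, hL⟩ := (χ.contDiff (n := 1)).lipschitzWith_of_hasCompactSupport χ.hasCompactSupport
    one_ne_zero
  have hs : ∀ x, x ∉ ball z ρ → χ x = 0 := fun x hx => χ.zero_of_le_dist (not_lt.1 hx)
  have h1 := hol_cut (f := f) h.nonneg (abs_nonneg H) (Real.sqrt_nonneg L) (fun _ => χ.nonneg)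
    (fun _ => χ.le_one) (hol_of_lip L.2 (fun _ => χ.nonneg) (fun _ => χ.le_one) fun x y => by
      simpa [dist_eq_norm] using hL.dist_le_mul x y) hs (fun s _ => h.bd s) hH'
  have b1 : BS M c R fun s => χ s • f s :=
    ⟨χ.continuous.aestronglyMeasurable.smul h.meas, fun s => by
      rw [norm_smul, Real.norm_of_nonneg χ.nonneg]
      nlinarith [h.bd s, χ.nonneg (x := s), χ.le_one (x := s), norm_nonneg (f s)],
      fun s hs => by rw [h.supp s hs, smul_zero]⟩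
  have h2 := (T_contDiffAt0 (h.integrable.sub b1.integrable) (z := z) (by
    filter_upwards [ball_mem_nhds z (half_pos hρ)] with s hs
    rw [Pi.sub_apply, χ.one_of_mem_closedBall (ball_subset_closedBall hs), one_smul, sub_self])
    1).restrict_scalars ℝ
  refine (h2.add (b1.T_contDiff h1).contDiffAt).congr_of_eventuallyEq (Eventually.of_forall fun w => ?_)
  have := T_sub (h.T_int w) (b1.T_int w)
  exact (sub_eq_iff_eq_add.1 this.symm)

end Pool.Agent.Lib.MP_1c0d65_gt.A
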