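import Pool.Agent.Lib.MP_1c0d65_gt.A.Cau

/-! The similarity principle in the form of Hartman and Wintner. -/

open MeasureTheory Set Metric Real Filter Topology
open Complex (I)

namespace Pool.Agent.Lib.MP_1c0d65_gt.A

variable {E : Type*} [NormedAddCommGroup E] [NormedSpace ℂ E]

theorem db_smul (a : ℂ) (L : ℂ →L[ℝ] E) : db (a • L) = a • db L := by
  simp only [db, smul_apply]; module

theorem db_holo_smul {c : ℂ → ℂ} {V : ℂ → E} {z : ℂ} (hc : DifferentiableAt ℂ c z)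
    (hV : DifferentiableAt ℝ V z) :
    db (fderiv ℝ (fun x => c x • V x) z) = c z • db (fderiv ℝ V z) := by
  have h1 := (hc.hasFDerivAt.restrictScalars ℝ).smul hV.hasFDerivAt
  have h2 : fderiv ℝ (fun x => c x • V x) z = _ := h1.fderiv
  rw [h2, db_add, db_smul]
  have : (fderiv ℂ c z) I = I * (fderiv ℂ c z) 1 := by rw [← smul_eq_mul, ← map_smul]; simp
  simp only [db, ContinuousLinearMap.smulRight_apply, ContinuousLinearMap.coe_restrictScalars',
    this, smul_smul, ← mul_assoc, Complex.I_mul_I]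
  module

/-- The differential inequality on the punctured disc. -/
structure HW (K r : ℝ) (V : ℂ → E) : Prop where
  diff : ∀ z ∈ ball (0 : ℂ) r \ {0}, ContDiffAt ℝ 1 V z
  le : ∀ z ∈ ball (0 : ℂ) r \ {0}, ‖db (fderiv ℝ V z)‖ ≤ K * ‖V z‖

/-- The antilinear derivative, cut off. -/
noncomputable def gd (r : ℝ) (V : ℂ → E) : ℂ → E :=
  (ball (0 : ℂ) r \ {0}).indicator fun z => db (fderiv ℝ V z)

theorem isOpen_punct (r : ℝ) : IsOpen (ball (0 : ℂ) r \ {0}) :=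
  isOpen_ball.sdiff isClosed_singleton

theorem meas_cut {U : Set ℂ} (hU : IsOpen U) {V : ℂ → E} (h : ∀ z ∈ U, ContDiffAt ℝ 1 V z) :
    AEStronglyMeasurable (U.indicator fun z => db (fderiv ℝ V z)) volume := by
  rw [aestronglyMeasurable_indicator_iff hU.measurableSet]
  refine ContinuousOn.aestronglyMeasurable (fun z hz => ?_) hU.measurableSet
  exact (continuous_db.continuousAt.comp
    ((h z hz).continuousAt_fderiv one_ne_zero)).continuousWithinAt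

theorem mix_le {x y : ℝ} (hx : 0 < x) (hy : 0 < y) :
    (x ^ 2)⁻¹ * y⁻¹ ≤ (x ^ 3)⁻¹ + (y ^ 3)⁻¹ := by
  rcases le_total x y with h | h
  · have : (x ^ 2)⁻¹ * y⁻¹ ≤ (x ^ 3)⁻¹ := by
      rw [pow_succ x 2, mul_inv]; gcongr
    exact this.trans (le_add_of_nonneg_right (by positivity))
  · have : (x ^ 2)⁻¹ * y⁻¹ ≤ (y ^ 3)⁻¹ := by
      rw [pow_succ y 2, mul_inv]; gcongr
    exact this.trans (le_add_of_nonneg_left (by positivity))

namespace HW

variable {K r M : ℝ} {V : ℂ → E}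

theorem mono (h : HW K r V) {r' : ℝ} (hr : r' ≤ r) : HW K r' V :=
  ⟨fun z hz => h.diff z ⟨ball_subset_ball hr hz.1, hz.2⟩,
    fun z hz => h.le z ⟨ball_subset_ball hr hz.1, hz.2⟩⟩

theorem div (h : HW K r V) (k : ℕ) : HW K r fun z => (z ^ k)⁻¹ • V z := by
  have hc : ∀ z : ℂ, z ≠ 0 → ContDiffAt ℂ 1 (fun z : ℂ => (z ^ k)⁻¹) z := fun z hz =>
    (contDiffAt_id.pow k).inv (pow_ne_zero k hz)
  refine ⟨fun z hz => ((hc z hz.2).restrict_scalars ℝ).smul (h.diff z hz), fun z hz => ?_⟩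
  rw [db_holo_smul ((hc z hz.2).differentiableAt one_ne_zero)
    ((h.diff z hz).differentiableAt one_ne_zero), norm_smul, norm_smul, mul_left_comm]
  gcongr
  exact h.le z hz

theorem bs (h : HW K r V) (hK : 0 ≤ K) (hM : 0 ≤ M) (hb : ∀ z ∈ ball (0 : ℂ) r \ {0}, ‖V z‖ ≤ M) :
    BS (K * M) 0 r (gd r V) := by
  refine ⟨meas_cut (isOpen_punct r) h.diff, fun s => ?_, fun s hs => ?_⟩
  · by_cases hs : s ∈ ball (0 : ℂ) r \ {0}
    · rw [gd, indicator_of_mem hs]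
      exact (h.le s hs).trans (mul_le_mul_of_nonneg_left (hb s hs) hK)
    · rw [gd, indicator_of_notMem hs, norm_zero]; positivity
  · exact indicator_of_notMem (fun h => hs h.1) _

variable [CompleteSpace E]

theorem rep (h : HW K r V) (hr : 0 < r) (hK : 0 ≤ K) (hM : 0 ≤ M)
    (hb : ∀ z ∈ ball (0 : ℂ) r \ {0}, ‖V z‖ ≤ M * (√‖z‖)⁻¹) :
    (∃ C, ∀ z, ‖T (gd r V) z‖ ≤ C) ∧ ∃ f : ℂ → E, DifferentiableOn ℂ f (ball 0 r) ∧
      ∀ z ∈ ball (0 : ℂ) r \ {0}, V z = T (gd r V) z + f z := by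
  have hm : AEStronglyMeasurable (gd r V) volume := meas_cut (isOpen_punct r) h.diff
  have h0 : ∀ s, s ∉ ball (0 : ℂ) r → gd r V s = 0 := fun s hs =>
    indicator_of_notMem (fun h => hs h.1) _
  have hg : ∀ s ∈ ball (0 : ℂ) r, s ≠ 0 → ‖gd r V s‖ ≤ K * M * (√‖s‖)⁻¹ := fun s hs h1 => by
    have hs' : s ∈ ball (0 : ℂ) r \ {0} := ⟨hs, h1⟩
    rw [gd, indicator_of_mem hs', mul_assoc]
    exact (h.le s hs').trans (mul_le_mul_of_nonneg_left (hb s hs') hK)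
  have hi : Integrable (gd r V) := by
    refine dom measurableSet_ball hm h0
      ((intOn_ball (γ := 1 / 2) (by norm_num) r).const_mul (K * M)) ?_
    filter_upwards [ae_ne' 0] with s h1 hs
    rw [Real.rpow_neg (norm_nonneg _), ← Real.sqrt_eq_rpow]
    exact hg s hs h1
  have i1 := fun z => intOn_shift (γ := 3 / 2) (by norm_num) z 0 r
  have hker : ∀ z : ℂ, ∀ᵐ s : ℂ, s ∈ ball (0 : ℂ) r → ‖(z - s)⁻¹ • gd r V s‖ ≤
      K * M * (‖z - s‖ ^ (-(3 / 2 : ℝ)) + ‖0 - s‖ ^ (-(3 / 2 : ℝ))) := fun z => by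
    filter_upwards [ae_ne' 0, ae_ne' z] with s h1 h2 hs
    have hx : 0 < √‖z - s‖ := Real.sqrt_pos.2 (norm_pos_iff.2 (sub_ne_zero.2 h2.symm))
    have hy : 0 < √‖s‖ := Real.sqrt_pos.2 (norm_pos_iff.2 h1)
    have := mix_le hx hy
    rw [Real.sq_sqrt (norm_nonneg _)] at this
    rw [norm_smul, norm_inv, rpow32 (norm_nonneg _), rpow32 (norm_nonneg _), zero_sub, norm_neg]
    calc _ ≤ ‖z - s‖⁻¹ * (K * M * (√‖s‖)⁻¹) := by gcongr; exact hg s hs h1
      _ = K * M * (‖z - s‖⁻¹ * (√‖s‖)⁻¹) := by ring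
      _ ≤ _ := by gcongr
  have hk0 : ∀ z s : ℂ, s ∉ ball (0 : ℂ) r → (z - s)⁻¹ • gd r V s = 0 := fun z s hs => by
    simp [h0 s hs]
  have hT : ∀ z, ‖T (gd r V) z‖ ≤ π⁻¹ * (K * M * (5 * π * √r + 5 * π * √r)) := fun z => by
    have h1 := dom_le measurableSet_ball (hk0 z) (((i1 z).add (i1 0)).const_mul _) (hker z)
    simp only [Pi.add_apply] at h1
    rw [integral_const_mul, integral_add (i1 z) (i1 0)] at h1
    rw [T, norm_smul, norm_pi_inv]
    gcongr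
    exact h1.trans (mul_le_mul_of_nonneg_left (add_le_add (int32 hr z 0) (int32 hr 0 0))
      (by positivity))
  refine ⟨⟨_, hT⟩, ?_⟩
  generalize π⁻¹ * (K * M * (5 * π * √r + 5 * π * √r)) = C at hT
  have hd := loc_holo (isOpen_punct r) h.diff (g := gd r V)
    (fun z hz => indicator_of_mem hz _) hi fun z _ =>
      dom measurableSet_ball (meas_ker hm z) (hk0 z) (((i1 z).add (i1 0)).const_mul _) (hker z)
  refine ⟨_, Complex.differentiableOn_update_limUnder_of_isLittleO (ball_mem_nhds 0 hr) hd ?_,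
    fun z hz => by rw [Function.update_of_ne hz.2]; abel⟩
  refine Asymptotics.isLittleO_iff.2 fun c hc => ?_
  set B := C + ‖V 0 - T (gd r V) 0‖ with hB
  have ht : Tendsto (fun z : ℂ => M * √‖z‖ + B * ‖z‖) (𝓝 0) (𝓝 0) := by
    have : Continuous fun z : ℂ => M * √‖z‖ + B * ‖z‖ := by fun_prop
    simpa using this.tendsto 0
  filter_upwards [mem_nhdsWithin_of_mem_nhds (ht.eventually_le_const hc),
    mem_nhdsWithin_of_mem_nhds (ball_mem_nhds 0 hr), self_mem_nhdsWithin] with z h1 h2 h3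
  have hz : 0 < ‖z‖ := norm_pos_iff.2 h3
  have hs : 0 < √‖z‖ := Real.sqrt_pos.2 hz
  have h4 := norm_sub_le (V z - T (gd r V) z) (V 0 - T (gd r V) 0)
  have h5 := norm_sub_le (V z) (T (gd r V) z)
  have h6 := hb z ⟨h2, h3⟩
  have h7 := hT z
  rw [sub_zero, norm_inv, le_mul_inv_iff₀ hz]
  have h8 : M * (√‖z‖)⁻¹ * ‖z‖ = M * √‖z‖ := by
    have := Real.mul_self_sqrt hz.le
    field_simp
    rw [sq, this]
  have h1' : M * √‖z‖ + B * ‖z‖ ≤ c := h1
  calc _ ≤ (M * (√‖z‖)⁻¹ + B) * ‖z‖ := by gcongr; linarith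
    _ ≤ c := by rw [add_mul, h8]; exact h1'

omit [NormedSpace ℂ E] [CompleteSpace E] in
theorem weight (hM : 0 ≤ M) (hb : ∀ z ∈ ball (0 : ℂ) r \ {0}, ‖V z‖ ≤ M) :
    ∀ z ∈ ball (0 : ℂ) r \ {0}, ‖V z‖ ≤ M * √r * (√‖z‖)⁻¹ := fun z hz => by
  have h1 : 0 < √‖z‖ := Real.sqrt_pos.2 (norm_pos_iff.2 hz.2)
  have h2 : √‖z‖ ≤ √r := Real.sqrt_le_sqrt (mem_ball_zero_iff.1 hz.1).le
  rw [le_mul_inv_iff₀ h1]
  exact mul_le_mul (hb z hz) h2 h1.le hM

/-- Growth of order one half at the puncture implies boundedness. -/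
theorem bdd (h : HW K r V) (hr : 0 < r) (hK : 0 ≤ K) (hM : 0 ≤ M)
    (hb : ∀ z ∈ ball (0 : ℂ) r \ {0}, ‖V z‖ ≤ M * (√‖z‖)⁻¹) :
    ∃ N, 0 ≤ N ∧ ∀ z ∈ ball (0 : ℂ) r \ {0}, ‖V z‖ ≤ N := by
  obtain ⟨⟨C, hC⟩, f, hf, hV⟩ := h.rep hr hK hM hb
  have hC0 : 0 ≤ C := (norm_nonneg _).trans (hC 0)
  obtain ⟨D, hD⟩ := (isCompact_closedBall (0 : ℂ) (r / 2)).exists_bound_of_continuousOn
    (hf.continuousOn.mono (closedBall_subset_ball (by linarith)))
  have hD0 : 0 ≤ D := (norm_nonneg _).trans (hD 0 (mem_closedBall_self (by positivity)))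
  have h2 : 0 ≤ M * (√(r / 2))⁻¹ := by positivity
  refine ⟨C + D + M * (√(r / 2))⁻¹, by positivity, fun z hz => ?_⟩
  rcases le_total ‖z‖ (r / 2) with h1 | h1
  · rw [hV z hz]
    have := norm_add_le_of_le (hC z) (hD z (mem_closedBall_zero_iff.2 h1))
    linarith
  · have : M * (√‖z‖)⁻¹ ≤ M * (√(r / 2))⁻¹ := by gcongr
    linarith [hb z hz]

/-- A bounded solution has a limit at the puncture, with rate one half. -/
theorem lim (h : HW K r V) (hr : 0 < r) (hK : 0 ≤ K) (hM : 0 ≤ M)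
    (hb : ∀ z ∈ ball (0 : ℂ) r \ {0}, ‖V z‖ ≤ M) :
    ∃ b C, 0 ≤ C ∧ ∀ z ∈ ball (0 : ℂ) r \ {0}, ‖V z - b‖ ≤ C * √‖z‖ := by
  obtain ⟨-, f, hf, hV⟩ := h.rep hr hK (by positivity) (weight hM hb)
  have hT := (h.bs hK hM hb).T_hol hr
  obtain ⟨D, hD0, hD⟩ := ((hf.differentiableAt (ball_mem_nhds 0 hr)).isBigO_sub).exists_nonneg
  obtain ⟨ρ, hρ, hD⟩ := Metric.eventually_nhds_iff_ball.1 hD.bound
  set b := T (gd r V) 0 + f 0 with hbd
  have p1 : 0 ≤ 20 * √r * (K * M) := by positivity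
  have p2 : 0 ≤ D * √r := by positivity
  have p3 : 0 ≤ (M + ‖b‖) * (√ρ)⁻¹ := by positivity
  refine ⟨b, 20 * √r * (K * M) + D * √r + (M + ‖b‖) * (√ρ)⁻¹, by positivity, fun z hz => ?_⟩
  have hs := Real.sqrt_nonneg ‖z‖
  by_cases h1 : z ∈ ball (0 : ℂ) ρ
  · have h2 := hD z h1
    have h3 := hT z 0
    rw [sub_zero] at h2 h3
    have h4 : √‖z‖ ≤ √r := Real.sqrt_le_sqrt (mem_ball_zero_iff.1 hz.1).le
    have h5 : D * ‖z‖ ≤ D * √r * √‖z‖ := by
      rw [mul_assoc]; gcongr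
      calc ‖z‖ = √‖z‖ * √‖z‖ := (Real.mul_self_sqrt (norm_nonneg _)).symm
        _ ≤ _ := by gcongr
    rw [hV z hz, hbd, add_sub_add_comm]
    have := norm_add_le_of_le h3 h2
    nlinarith
  · rw [mem_ball_zero_iff, not_lt] at h1
    have h2 : 0 < √ρ := Real.sqrt_pos.2 hρ
    have h3 : M + ‖b‖ ≤ (M + ‖b‖) * (√ρ)⁻¹ * √‖z‖ := by
      rw [mul_assoc]
      refine le_mul_of_one_le_right (by positivity) ?_
      rw [inv_mul_eq_div, one_le_div h2]
      exact Real.sqrt_le_sqrt h1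
    have := norm_sub_le_of_le (hb z hz) (le_refl ‖b‖)
    nlinarith

/-- One step of the maximum principle. -/
theorem maxp {r' B : ℝ} (h : HW K r' V) (hr : 0 < r) (hr' : r < r') (hK : 0 ≤ K)
    (hs : 12 * r * K ≤ 1) (hB : ∀ z ∈ sphere (0 : ℂ) r, ‖V z‖ ≤ B) (hM : 0 ≤ M)
    (hb : ∀ z ∈ ball (0 : ℂ) r \ {0}, ‖V z‖ ≤ M) :
    ∀ z ∈ ball (0 : ℂ) r \ {0}, ‖V z‖ ≤ B + M / 2 := by
  have h1 := h.mono hr'.le
  obtain ⟨-, f, hf, hV⟩ := h1.rep hr hK (by positivity) (weight hM hb)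
  have hbs := h1.bs hK hM hb
  have hT : ∀ z, ‖T (gd r V) z‖ ≤ M / 4 := fun z => (hbs.T_le hr z).trans (by nlinarith)
  set F : ℂ → E := Function.update (fun z => V z - T (gd r V) z) 0 (f 0) with hF
  have hFf : ∀ z ∈ ball (0 : ℂ) r, F z = f z := fun z hz => by
    by_cases h0 : z = 0
    · simp [hF, h0]
    · rw [hF, Function.update_of_ne h0, hV z ⟨hz, h0⟩]; abel
  have hFd : DifferentiableOn ℂ F (ball 0 r) := hf.congr hFf
  have hsp : ∀ z ∈ sphere (0 : ℂ) r, z ≠ 0 := fun z hz h0 => by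
    simp [h0] at hz; exact hr.ne hz
  have hFc : DiffContOnCl ℂ F (ball 0 r) := by
    refine ⟨hFd, fun z hz => ?_⟩
    rw [closure_ball _ hr.ne'] at hz
    by_cases h0 : z = 0
    · rw [h0]
      exact (hFd.differentiableAt (ball_mem_nhds 0 hr)).continuousAt.continuousWithinAt
    · refine ContinuousAt.continuousWithinAt ?_
      rw [hF, continuousAt_update_of_ne h0]
      exact (h.diff z ⟨closedBall_subset_ball hr' hz, h0⟩).continuousAt.sub
        (hbs.T_cont hr).continuousAt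
  intro z hz
  have h2 := Complex.norm_le_of_forall_mem_frontier_norm_le isBounded_ball hFc (C := B + M / 4)
    (fun w hw => by
      rw [frontier_ball _ hr.ne'] at hw
      rw [hF, Function.update_of_ne (hsp w hw)]
      exact norm_sub_le_of_le (hB w hw) (hT w)) (subset_closure hz.1)
  rw [hFf z hz.1] at h2
  rw [hV z hz]
  have := norm_add_le_of_le (hT z) h2
  linarith

theorem maxp' {r' B : ℝ} (h : HW K r' V) (hr : 0 < r) (hr' : r < r') (hK : 0 ≤ K)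
    (hs : 12 * r * K ≤ 1) (hB0 : 0 ≤ B) (hB : ∀ z ∈ sphere (0 : ℂ) r, ‖V z‖ ≤ B) (hM : 0 ≤ M)
    (hb : ∀ z ∈ ball (0 : ℂ) r \ {0}, ‖V z‖ ≤ M) :
    ∀ z ∈ ball (0 : ℂ) r \ {0}, ‖V z‖ ≤ 2 * B := by
  have h1 : ∀ n : ℕ, ∀ z ∈ ball (0 : ℂ) r \ {0}, ‖V z‖ ≤ 2 * B + M * (1 / 2) ^ n := by
    intro n
    induction n with
    | zero => intro z hz; linarith [hb z hz]
    | succ n ih =>
      intro z hz
      have := h.maxp hr hr' hK hs hB (by positivity) ih z hz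
      rw [pow_succ]; linarith
  intro z hz
  have h2 : Tendsto (fun n : ℕ => 2 * B + M * (1 / 2 : ℝ) ^ n) atTop (𝓝 (2 * B + M * 0)) :=
    ((tendsto_pow_atTop_nhds_zero_of_lt_one (by norm_num) (by norm_num)).const_mul M).const_add _
  simpa using ge_of_tendsto' h2 fun n => h1 n z hz

end HW

/-- Similarity principle: a solution of the differential inequality vanishes near the origin or
has a finite order there. -/
theorem sim [CompleteSpace E] {W : ℂ → E} {K : ℝ} (hc : ContinuousAt W 0)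
    (h : ∀ᶠ z in 𝓝[≠] (0 : ℂ), ContDiffAt ℝ 1 W z ∧
      ‖fderiv ℝ W z I - I • fderiv ℝ W z 1‖ ≤ K * ‖W z‖) :
    (∀ᶠ z in 𝓝[≠] (0 : ℂ), W z = 0) ∨
      ∃ (l : ℕ) (b : E), b ≠ 0 ∧ Tendsto (fun z => (z ^ l)⁻¹ • W z) (𝓝[≠] 0) (𝓝 b) := by
  have hb0 : ∀ᶠ z in 𝓝 (0 : ℂ), ‖W z‖ ≤ ‖W 0‖ + 1 :=
    hc.norm.eventually_le_const (lt_add_one _)
  obtain ⟨r', hr', hall⟩ := Metric.eventually_nhds_iff_ball.1
    ((eventually_nhdsWithin_iff.1 h).and hb0)
  have hK : 0 ≤ |K| := abs_nonneg K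
  have hW : HW |K| r' W := ⟨fun z hz => ((hall z hz.1).1 hz.2).1, fun z hz => by
    have := ((hall z hz.1).1 hz.2).2
    rw [norm_db] at this
    have h1 := mul_le_mul_of_nonneg_right (le_abs_self K) (norm_nonneg (W z))
    linarith [norm_nonneg (db (fderiv ℝ W z))]⟩
  set r := min (r' / 2) (12 * (|K| + 1))⁻¹ with hrd
  have hr : 0 < r := by positivity
  have hrr : r < r' := (min_le_left _ _).trans_lt (by linarith)
  have hs : 12 * r * |K| ≤ 1 := by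
    have h1 : r * (12 * (|K| + 1)) ≤ 1 := by
      rw [← le_mul_inv_iff₀ (by positivity), one_mul]; exact min_le_right _ _
    nlinarith
  have hU : ball (0 : ℂ) r \ {0} ∈ 𝓝[≠] (0 : ℂ) :=
    sdiff_mem_nhdsWithin_compl (ball_mem_nhds 0 hr) _
  rw [or_iff_not_imp_right]
  intro hno
  have hbd : ∀ k : ℕ, ∃ N, 0 ≤ N ∧ ∀ z ∈ ball (0 : ℂ) r \ {0}, ‖(z ^ k)⁻¹ • W z‖ ≤ N := by
    intro k
    induction k with
    | zero =>
      exact ⟨‖W 0‖ + 1, by positivity, fun z hz => by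
        simpa using (hall z (ball_subset_ball hrr.le hz.1)).2⟩
    | succ k ih =>
      obtain ⟨N, hN, ih⟩ := ih
      obtain ⟨b, C, hC, hb⟩ := ((hW.div k).mono hrr.le).lim hr hK hN ih
      have hb1 : b = 0 := by
        by_contra hne
        refine hno ⟨k, b, hne, ?_⟩
        rw [tendsto_iff_norm_sub_tendsto_zero]
        refine squeeze_zero' (Eventually.of_forall fun _ => norm_nonneg _)
          (mem_of_superset hU hb) (Tendsto.mono_left ?_ nhdsWithin_le_nhds)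
        have : Continuous fun z : ℂ => C * √‖z‖ := by fun_prop
        simpa using this.tendsto 0
      refine ((hW.div (k + 1)).mono hrr.le).bdd hr hK hC fun z hz => ?_
      have h1 := hb z hz
      have hz0 : 0 < ‖z‖ := norm_pos_iff.2 hz.2
      have h2 : 0 < √‖z‖ := Real.sqrt_pos.2 hz0
      rw [hb1, sub_zero] at h1
      rw [pow_succ', mul_inv, mul_smul, norm_smul, norm_inv, inv_mul_le_iff₀ hz0]
      refine h1.trans (le_of_eq ?_)
      have := Real.mul_self_sqrt hz0.le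
      field_simp
      rw [sq, this]
  filter_upwards [hU] with z hz
  have hz0 : 0 < ‖z‖ := norm_pos_iff.2 hz.2
  have hk : ∀ k : ℕ, ‖W z‖ ≤ 2 * (‖W 0‖ + 1) * (‖z‖ / r) ^ k := fun k => by
    obtain ⟨N, hN, hb⟩ := hbd k
    have := (hW.div k).maxp' hr hrr hK hs (B := (r ^ k)⁻¹ * (‖W 0‖ + 1)) (by positivity)
      (fun w hw => by
        rw [norm_smul, norm_inv, norm_pow, mem_sphere_zero_iff_norm.1 hw]
        gcongr
        exact (hall w (closedBall_subset_ball hrr (sphere_subset_closedBall hw))).2) hN hb z hz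
    rw [norm_smul, norm_inv, norm_pow, inv_mul_le_iff₀ (by positivity)] at this
    refine this.trans (le_of_eq ?_)
    rw [div_pow]; field_simp
  have h2 : Tendsto (fun k : ℕ => 2 * (‖W 0‖ + 1) * (‖z‖ / r) ^ k) atTop (𝓝 (2 * (‖W 0‖ + 1) * 0)) :=
    (tendsto_pow_atTop_nhds_zero_of_lt_one (by positivity)
      ((div_lt_one hr).2 (mem_ball_zero_iff.1 hz.1))).const_mul _
  simpa using ge_of_tendsto' h2 hk

end Pool.Agent.Lib.MP_1c0d65_gt.A
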